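import Pool.Agent.P.MP_65bf67_nt.Chk

/-! Specifications of the basic Boolean combinators, and the interface statements. -/

set_option autoImplicit false

noncomputable section

namespace Pool.Agent.P.MP_65bf67_nt

theorem band_iff (a b : Bool) : band a b = true ↔ a = true ∧ b = true := by
  cases a <;> cases b <;> simp [band]

theorem bor_iff (a b : Bool) : bor a b = true ↔ a = true ∨ b = true := by
  cases a <;> cases b <;> simp [bor]

theorem frc_eq (x : ℕ) (f : ℕ → Bool) : frc x f = f x := by cases x <;> rfl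

theorem frcN_eq (x : ℕ) (f : ℕ → ℕ) : frcN x f = f x := by cases x <;> rfl

theorem allLt_iff (n : ℕ) (f : ℕ → Bool) : allLt n f = true ↔ ∀ i, i < n → f i = true := by
  induction n with
  | zero => simp [allLt]
  | succ n ih =>
    have e : allLt (n + 1) f = band (f n) (allLt n f) := rfl
    rw [e, band_iff, ih]
    constructor
    · rintro ⟨h1, h2⟩ i hi
      rcases Nat.lt_succ_iff_lt_or_eq.1 hi with h | h
      · exact h2 i h
      · rw [h]; exact h1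
    · intro h
      exact ⟨h n (Nat.lt_succ_self n), fun i hi => h i (Nat.lt_succ_of_lt hi)⟩

theorem lall_iff {α : Type} (l : List α) (f : α → Bool) :
    lall l f = true ↔ ∀ a ∈ l, f a = true := by
  induction l with
  | nil => simp [lall]
  | cons a l ih =>
    have e : lall (a :: l) f = band (f a) (lall l f) := rfl
    rw [e, band_iff, ih, List.forall_mem_cons]

theorem lany_iff {α : Type} (l : List α) (f : α → Bool) :
    lany l f = true ↔ ∃ a ∈ l, f a = true := by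
  induction l with
  | nil => simp [lany]
  | cons a l ih =>
    have e : lany (a :: l) f = bor (f a) (lany l f) := rfl
    rw [e, bor_iff, ih]
    simp

theorem tb_eq (m n : ℕ) : tb m n = m.testBit n := by
  have e : tb m n = Nat.beq ((m >>> n) &&& 1) 1 := rfl
  rw [e, Nat.testBit, Nat.and_one_is_mod, Nat.one_and_eq_mod_two]
  rcases Nat.mod_two_eq_zero_or_one (m >>> n) with h | h <;> rw [h] <;> rfl

theorem dv_iff (g x : ℕ) : dv g x = true ↔ g ∣ x := by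
  have e : dv g x = Nat.beq (x % g) 0 := rfl
  rw [e, Nat.beq_eq, Nat.dvd_iff_mod_eq_zero]

theorem ieq_iff (a b : ℤ) : ieq a b = true ↔ a = b := by simp [ieq]

theorem fl_eq (F s : ℕ) : fl F s = (F >>> s) % 4096 := rfl

theorem mk_bit (n : ℕ) (f : ℕ → Bool) (i : ℕ) :
    (mk n f).testBit i = true ↔ i < n ∧ f i = true := by
  induction n with
  | zero => simp [mk]
  | succ n ih =>
    cases h : f n
    · have e : mk (n + 1) f = mk n f := by
        show @Bool.rec (fun _ => ℕ) (mk n f) _ (f n) = _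
        rw [h]
      rw [e, ih]
      constructor
      · rintro ⟨h1, h2⟩; exact ⟨by omega, h2⟩
      · rintro ⟨h1, h2⟩
        refine ⟨?_, h2⟩
        rcases Nat.lt_succ_iff_lt_or_eq.1 h1 with h3 | h3
        · exact h3
        · rw [h3, h] at h2; exact absurd h2 (by simp)
    · have e : mk (n + 1) f = mk n f ||| 2 ^ n := by
        show @Bool.rec (fun _ => ℕ) (mk n f) (mk n f ||| (1 <<< n)) (f n) = _
        rw [h, Nat.one_shiftLeft]
      rw [e, Nat.testBit_or, Bool.or_eq_true, ih, Nat.testBit_two_pow]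
      constructor
      · rintro (⟨h1, h2⟩ | h1)
        · exact ⟨by omega, h2⟩
        · have : n = i := by simpa using h1
          subst this; exact ⟨by omega, h⟩
      · rintro ⟨h1, h2⟩
        rcases Nat.lt_succ_iff_lt_or_eq.1 h1 with h3 | h3
        · exact Or.inl ⟨h3, h2⟩
        · exact Or.inr (by simp [h3])

theorem fm_cons (a : ℕ) (l : List ℕ) (f : ℕ → Bool) : fm (a :: l) f = Nat.bit (f a) (fm l f) := by
  show @Bool.rec (fun _ => ℕ) (2 * fm l f) (2 * fm l f + 1) (f a) = _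
  cases f a <;> simp [Nat.bit]

theorem fm_and (l : List ℕ) (f g : ℕ → Bool) (h : 0 < fm l f &&& fm l g) :
    ∃ a ∈ l, f a = true ∧ g a = true := by
  induction l with
  | nil => exact absurd h (by simp [fm])
  | cons a l ih =>
    rw [fm_cons, fm_cons, Nat.land_bit] at h
    by_cases h1 : f a = true ∧ g a = true
    · exact ⟨a, List.mem_cons_self, h1⟩
    · have h2 : (f a && g a) = false := by
        cases hf : f a <;> cases hg : g a <;> simp_all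
      rw [h2] at h
      have h3 : 0 < fm l f &&& fm l g := by
        simp only [Nat.bit, cond_false] at h
        omega
      obtain ⟨b, hb, hb2⟩ := ih h3
      exact ⟨b, List.mem_cons_of_mem _ hb, hb2⟩

theorem nm_modEq (M : ℕ) (hM : 0 < M) (k : ℤ) : ((nm M k : ℕ) : ℤ) ≡ k [ZMOD M] := by
  have h : 0 ≤ k % (M : ℤ) := Int.emod_nonneg _ (by exact_mod_cast hM.ne')
  unfold nm
  rw [Int.toNat_of_nonneg h]
  exact Int.mod_modEq _ _

theorem qn_modEq (M : ℕ) (hM : 0 < M) (K : K6) (x y z : ℕ) :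
    ((qn M K x y z : ℕ) : ℤ) ≡ ev K x y z [ZMOD M] := by
  have e : ((qn M K x y z : ℕ) : ℤ) = (nm M K.a : ℤ) * x ^ 2 + (nm M K.b : ℤ) * y ^ 2 +
      (nm M K.c : ℤ) * z ^ 2 + (nm M K.r : ℤ) * y * z + (nm M K.s : ℤ) * x * z +
      (nm M K.t : ℤ) * x * y := by
    simp only [qn, Nat.add_eq, Nat.mul_eq]; push_cast; ring
  rw [e, ev, QF]
  have := nm_modEq M hM
  gcongr <;> apply this

theorem lin_eq (F s0 s1 s2 x y z : ℕ) :
    lin F s0 s1 s2 x y z = fl F s0 * x + fl F s1 * y + fl F s2 * z := rfl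

/-! ### interface -/

def Rep (c1 c2 c3 q : ℕ) : Prop :=
  ∃ x y z : ℤ, (q : ℤ) = c1 * x ^ 2 + c2 * y ^ 2 + c3 * z ^ 2

def Fam (D P : ℕ) (Ks : List K6) : Prop :=
  ∀ n : ℕ, admB D (P * n) = true → ∃ K ∈ Ks, ∃ x y z : ℤ, ev K x y z = n

def RecOK (r : ℕ) : Prop :=
  0 < rc1 r ∧ rc1 r ≤ rc2 r ∧ rc1 r ≤ rc3 r ∧
    ∀ a b m : ℕ, a < 17 → b < 5 → m % 2 = 1 → m % 3 ≠ 0 →
      (rgt r).testBit (tix a b (m % 24)) = true → Rep (rc1 r) (rc2 r) (rc3 r) (2 ^ a * 3 ^ b * m)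

structure World (E : ℕ) where
  N : ℕ
  β : ℕ
  u : ℕ
  n : ℕ
  μ : ℕ
  w : ℕ
  ν : ℕ
  hβ : 16384 ≤ β
  hu : u < β
  hμ : μ % 16 = 1 ∨ μ % 32 = 21
  hw : w < 81
  hν : ν < 27
  hq : ∀ t S1 S3 : ℕ, S1 % 3 = S3 % 3 → ∃ q : ℤ,
    3 * (β : ℤ) * q = 3 * N - 4 * ((u : ℤ) + β * t) ^ 3 + (u + β * t) - (β : ℤ) ^ 3 * S3 + β * S1 ∧
    3 * q ≡ (μ : ℤ) * ((t : ℤ) - n) + S1 [ZMOD 16384] ∧
    q + (Tz E ((w + 2 * t % 81) % 81) : ℕ) + (KK E S1 S3 : ℕ) ≡ ν [ZMOD 27]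

/-- projective charts -/
def S_Chart : Prop := ∀ (p e : ℕ) (f : ℕ → ℕ → ℕ → Bool), p.Prime →
  allPts p (p ^ (e + 1)) (p ^ e) f = true → ∀ x y z : ℤ,
    ¬ ((p : ℤ) ∣ x ∧ (p : ℤ) ∣ y ∧ (p : ℤ) ∣ z) → ∃ (c : ℤ) (x' y' z' : ℕ), IsCoprime c (p : ℤ) ∧
      c * x ≡ x' [ZMOD ((p : ℤ) ^ (e + 1))] ∧ c * y ≡ y' [ZMOD ((p : ℤ) ^ (e + 1))] ∧
      c * z ≡ z' [ZMOD ((p : ℤ) ^ (e + 1))] ∧ f x' y' z' = true

def S_Step : Prop := ∀ (D P p : ℕ) (Gs : List K6) (frs : List (List ℕ)) (Ks : List K6), p.Prime →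
  Fam D P Gs → stepOK p Gs frs Ks = true → Fam D (P * p) Ks

/-- one lattice of a group -/
def S_Lat : Prop := ∀ (c1 c2 c3 lam mul M : ℕ) (K : K6) (L : Lat),
  latOK c1 c2 c3 lam mul M K L = true → ∀ (α β m : ℕ) (x y z : ℤ), α < 2 → β < 2 → m % 2 = 1 →
    m % 3 ≠ 0 → M.testBit (48 * α + 24 * β + m % 24) = true →
    ev K x y z = ((2 ^ α * 3 ^ β * m : ℕ) : ℤ) →
    ∃ X Y Z : ℤ, (lam : ℤ) * (c1 * X ^ 2 + c2 * Y ^ 2 + c3 * Z ^ 2) =
      (mul : ℤ) * ((2 ^ α * 3 ^ β * m : ℕ) : ℤ)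

def S_Form : Prop := ∀ (fams : List Fm) (f : FC), (∀ F ∈ fams, Fam F.D F.lev F.Ks) →
  Fam fm0.D fm0.lev fm0.Ks → fcOK fams f = true → RecOK f.r

def S_Mask : Prop := ∀ E t S K w ν j : ℕ, w < 81 → ν < 27 → K < 27 → S < 2 ^ 27 → j < 27 →
  (j + Tz E ((w + 2 * t % 81) % 81) + K) % 27 = ν → S.testBit j = true →
  (sor (zr (zz E 162 0) t * rot S K)).testBit (54 * w + ν) = true

def S_Class : Prop := ∀ r l lk v z q : ℕ, RecOK r → l < 8 → lk < 4 → v < 16 → z < 8 →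
  3 * q ≡ 3 * kk l lk * hhz z * 2 ^ v [MOD 2 ^ (l + v + remz z)] →
  (sbar r l lk v z).testBit (q % 27) = false →
  Rep (kk l lk * rc1 r) (kk l lk * rc2 r) (kk l lk * rc3 r) q

def S_World : Prop := ∀ N : ℕ, 2 ^ 57 ≤ N → ∃ e, e < 27 ∧ ∃ W : World (1 + 3 * e), W.N = N ∧
  2 ^ 23 * W.β ^ 3 ≤ 256 * N ∧ 256 * N ≤ 2 ^ 26 * W.β ^ 3

def S_Fin : Prop := ∀ N β u C1 C2 C3 q : ℕ, 0 < β → 0 < C1 → C1 ≤ C2 → C1 ≤ C3 →
  3 * (β : ℤ) * q = 3 * N - 4 * (u : ℤ) ^ 3 + u - (β : ℤ) ^ 3 * ((C1 ^ 3 + C2 ^ 3 + C3 ^ 3 : ℕ) : ℤ)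
    + β * ((C1 + C2 + C3 : ℕ) : ℤ) →
  q ≤ C1 ^ 3 * β ^ 2 → Rep C1 C2 C3 q → Sum7 N

end Pool.Agent.P.MP_65bf67_nt
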