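import Pool.Agent.P.MP_65bf67_nt.Data

set_option autoImplicit false
set_option maxRecDepth 100000

noncomputable section

namespace Pool.Agent.P.MP_65bf67_nt

theorem ctc0 : ctOK fams ct0 = true := by decide +kernel

theorem ctc4 : ctOK fams ct4 = true := by decide +kernel

theorem ctc8 : ctOK fams ct8 = true := by decide +kernel

theorem ctc12 : ctOK fams ct12 = true := by decide +kernel

end Pool.Agent.P.MP_65bf67_nt
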