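import Pool.Agent.P.MP_65bf67_nt.Data

set_option autoImplicit false
set_option maxRecDepth 100000

noncomputable section

namespace Pool.Agent.P.MP_65bf67_nt

theorem ctc2 : ctOK fams ct2 = true := by decide +kernel

theorem ctc6 : ctOK fams ct6 = true := by decide +kernel

theorem ctc10 : ctOK fams ct10 = true := by decide +kernel

theorem ctc14 : ctOK fams ct14 = true := by decide +kernel

end Pool.Agent.P.MP_65bf67_nt
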