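import Pool.Agent.P.MP_65bf67_nt.Defs

/-! Boolean checkers evaluated by the kernel. -/

set_option autoImplicit false

noncomputable section

namespace Pool.Agent.P.MP_65bf67_nt

def band (a b : Bool) : Bool := @Bool.rec (fun _ => Bool) false b a
def bor (a b : Bool) : Bool := @Bool.rec (fun _ => Bool) b true a
def ite' (a : Bool) (x y : ℕ) : ℕ := @Bool.rec (fun _ => ℕ) y x a
def allLt (n : ℕ) (f : ℕ → Bool) : Bool :=
  @Nat.rec (fun _ => Bool) true (fun i ih => @Bool.rec (fun _ => Bool) false ih (f i)) n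
def frc (x : ℕ) (f : ℕ → Bool) : Bool :=
  @Nat.rec (fun _ => Bool) (f 0) (fun n _ => f n.succ) x
def lall {α : Type} (l : List α) (f : α → Bool) : Bool :=
  @List.rec α (fun _ => Bool) true (fun a _ ih => @Bool.rec (fun _ => Bool) false ih (f a)) l
def lany {α : Type} (l : List α) (f : α → Bool) : Bool :=
  @List.rec α (fun _ => Bool) false (fun a _ ih => @Bool.rec (fun _ => Bool) ih true (f a)) l
def tb (m n : ℕ) : Bool := Nat.beq (Nat.land (Nat.shiftRight m n) (nat_lit 1)) (nat_lit 1)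
def fl (F s : ℕ) : ℕ := Nat.mod (Nat.shiftRight F s) (nat_lit 4096)
def dv (g x : ℕ) : Bool := Nat.beq (Nat.mod x g) (nat_lit 0)

/-- mask of the indices below `n` where `f` holds -/
def mk (n : ℕ) (f : ℕ → Bool) : ℕ :=
  @Nat.rec (fun _ => ℕ) (nat_lit 0)
    (fun i acc => @Bool.rec (fun _ => ℕ) acc (Nat.lor acc (Nat.shiftLeft (nat_lit 1) i)) (f i)) n

/-- mask of the list positions where `f` holds -/
def fm (l : List ℕ) (f : ℕ → Bool) : ℕ :=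
  @List.rec ℕ (fun _ => ℕ) (nat_lit 0)
    (fun a _ acc => @Bool.rec (fun _ => ℕ) (Nat.mul (nat_lit 2) acc)
      (Nat.succ (Nat.mul (nat_lit 2) acc)) (f a)) l

/-- all points of the projective plane modulo `pe = p * ml` -/
def allPts (p pe ml : ℕ) (f : ℕ → ℕ → ℕ → Bool) : Bool :=
  band (allLt pe fun y => allLt pe fun z => f (nat_lit 1) y z)
    (band (allLt ml fun x => allLt pe fun z => f (Nat.mul p x) (nat_lit 1) z)
      (allLt ml fun x => allLt ml fun y => f (Nat.mul p x) (Nat.mul p y) (nat_lit 1)))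

structure K6 where
  a : ℤ
  b : ℤ
  c : ℤ
  r : ℤ
  s : ℤ
  t : ℤ

def ev (K : K6) (x y z : ℤ) : ℤ := QF K.a K.b K.c K.r K.s K.t x y z

def nm (M : ℕ) (k : ℤ) : ℕ := Int.toNat (k % (M : ℤ))

/-- the form evaluated with coefficients reduced modulo `M` -/
def qn (M : ℕ) (K : K6) (x y z : ℕ) : ℕ :=
  Nat.add (Nat.add
    (Nat.mul x (Nat.add (Nat.add (Nat.mul (nm M K.a) x) (Nat.mul (nm M K.t) y)) (Nat.mul (nm M K.s) z)))
    (Nat.mul y (Nat.add (Nat.mul (nm M K.b) y) (Nat.mul (nm M K.r) z))))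
    (Nat.mul z (Nat.mul (nm M K.c) z))

def lin (F s0 s1 s2 x y z : ℕ) : ℕ :=
  Nat.add (Nat.add (Nat.mul (fl F s0) x) (Nat.mul (fl F s1) y)) (Nat.mul (fl F s2) z)

/-- signed field -/
def wi (o F s : ℕ) : ℤ := (fl F s : ℤ) - (o : ℤ)

def ieq (a b : ℤ) : Bool := decide (a = b)

def base0 : K6 := ⟨0, 0, 0, 0, 0, 0⟩

/-! ### level steps -/

/-- a frame of a level step: `K (W v) = p * G v` -/
def lfOK (p : ℕ) (G K : K6) (F : ℕ) : Bool :=
  band (ieq (ev K (wi (16 * p) F 0) (wi (16 * p) F 36) (wi (16 * p) F 72)) (p * G.a))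
  (band (ieq (ev K (wi (16 * p) F 12) (wi (16 * p) F 48) (wi (16 * p) F 84)) (p * G.b))
  (band (ieq (ev K (wi (16 * p) F 24) (wi (16 * p) F 60) (wi (16 * p) F 96)) (p * G.c))
  (band (ieq (ev K (wi (16 * p) F 12 + wi (16 * p) F 24) (wi (16 * p) F 48 + wi (16 * p) F 60)
      (wi (16 * p) F 84 + wi (16 * p) F 96)) (p * (G.b + G.c + G.r)))
  (band (ieq (ev K (wi (16 * p) F 0 + wi (16 * p) F 24) (wi (16 * p) F 36 + wi (16 * p) F 60)
      (wi (16 * p) F 72 + wi (16 * p) F 96)) (p * (G.a + G.c + G.s)))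
   (ieq (ev K (wi (16 * p) F 0 + wi (16 * p) F 12) (wi (16 * p) F 36 + wi (16 * p) F 48)
      (wi (16 * p) F 72 + wi (16 * p) F 84)) (p * (G.a + G.b + G.t)))))))

def lfPt (p F x y z : ℕ) : Bool :=
  band (dv p (lin F (nat_lit 0) (nat_lit 12) (nat_lit 24) x y z))
    (band (dv p (lin F (nat_lit 36) (nat_lit 48) (nat_lit 60) x y z))
      (dv p (lin F (nat_lit 72) (nat_lit 84) (nat_lit 96) x y z)))

/-- one parent lattice `G` with its frames -/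
def parOK (p : ℕ) (Ks : List K6) (G : K6) (frs : List ℕ) : Bool :=
  band (lany frs fun _ => true)
    (band (lall frs fun F => band (Nat.blt (fl F 108) Ks.length) (lfOK p G (Ks.getD (fl F 108) base0) F))
      (allPts p p 1 fun x y z =>
        bor (Nat.blt (nat_lit 0) (Nat.mod (qn p G x y z) p)) (lany frs fun F => lfPt p F x y z)))

def stepOK (p : ℕ) (Gs : List K6) (frs : List (List ℕ)) (Ks : List K6) : Bool :=
  band (Nat.beq Gs.length frs.length) (lall (Gs.zip frs) fun g => parOK p Ks g.1 g.2)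

/-! ### groups -/

def val (i : ℕ) : ℕ :=
  Nat.mul (Nat.mul (Nat.pow 2 (Nat.div i 48)) (Nat.pow 3 (Nat.mod (Nat.div i 24) 2))) (Nat.mod i 24)

def cm2 (P r : ℕ) : ℕ := mk 96 fun i =>
  Nat.beq (Nat.mod (val i) (Nat.gcd P (Nat.mul 8 (Nat.pow 2 (Nat.div i 48)))))
    (Nat.mod r (Nat.gcd P (Nat.mul 8 (Nat.pow 2 (Nat.div i 48)))))

def cm3 (P r : ℕ) : ℕ := mk 96 fun i =>
  Nat.beq (Nat.mod (val i) (Nat.gcd P (Nat.mul 3 (Nat.pow 3 (Nat.mod (Nat.div i 24) 2)))))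
    (Nat.mod r (Nat.gcd P (Nat.mul 3 (Nat.pow 3 (Nat.mod (Nat.div i 24) 2)))))

def frcN (x : ℕ) (f : ℕ → ℕ) : ℕ :=
  @Nat.rec (fun _ => ℕ) (f 0) (fun n _ => f n.succ) x

def admB (D n : ℕ) : Bool :=
  @Bool.rec (fun _ => Bool)
    (band (Nat.blt 0 (Nat.mod n 9)) (not (Nat.beq (Nat.mod n 9) 6)))
    (band (Nat.blt 0 (Nat.mod n 4)) (not (Nat.beq (Nat.mod n 8) 7)))
    (Nat.beq D 2)

def admM (D P : ℕ) : ℕ := mk 96 fun i =>
  allLt 3 fun j => admB D (Nat.mul (Nat.mul P (Nat.mul (Nat.pow 2 (Nat.div i 48))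
    (Nat.pow 3 (Nat.mod (Nat.div i 24) 2)))) (Nat.add (Nat.mod i 24) (Nat.mul 24 j)))

def sq3 (A B C x y z : ℤ) : ℤ := A * (x * x) + B * (y * y) + C * (z * z)
def bl3 (A B C x y z x' y' z' : ℤ) : ℤ := 2 * (A * (x * x') + B * (y * y') + C * (z * z'))

def frId (A B C T : ℤ) (K : K6) (F : ℕ) : Bool :=
  band (ieq (sq3 A B C (wi 1728 F 0) (wi 1728 F 48) (wi 1728 F 96)) (T * K.a))
  (band (ieq (sq3 A B C (wi 1728 F 12) (wi 1728 F 60) (wi 1728 F 108)) (T * K.b))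
  (band (ieq (sq3 A B C (wi 1728 F 24) (wi 1728 F 72) (wi 1728 F 120)) (T * K.c))
  (band (ieq (bl3 A B C (wi 1728 F 12) (wi 1728 F 60) (wi 1728 F 108)
      (wi 1728 F 24) (wi 1728 F 72) (wi 1728 F 120)) (T * K.r))
  (band (ieq (bl3 A B C (wi 1728 F 0) (wi 1728 F 48) (wi 1728 F 96)
      (wi 1728 F 24) (wi 1728 F 72) (wi 1728 F 120)) (T * K.s))
   (ieq (bl3 A B C (wi 1728 F 0) (wi 1728 F 48) (wi 1728 F 96)
      (wi 1728 F 12) (wi 1728 F 60) (wi 1728 F 108)) (T * K.t))))))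

def mOK (P2 P3 m : ℕ) : Bool :=
  band (dv m 1728) (Nat.beq (Nat.mul (Nat.gcd m P2) (Nat.gcd m P3)) m)

/-- a frame: `lam * sum c_i (w_i v / m_i)^2 = mul * K v` -/
def frOK (c1 c2 c3 lam mul P2 P3 : ℕ) (K : K6) (F : ℕ) : Bool :=
  band (mOK P2 P3 (fl F 36)) (band (mOK P2 P3 (fl F 84)) (band (mOK P2 P3 (fl F 132))
    (frId ((lam * c1 * (fl F 84 * fl F 132) ^ 2 : ℕ) : ℤ) ((lam * c2 * (fl F 36 * fl F 132) ^ 2 : ℕ) : ℤ)
      ((lam * c3 * (fl F 36 * fl F 84) ^ 2 : ℕ) : ℤ)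
      ((mul * (fl F 36 * fl F 84 * fl F 132) ^ 2 : ℕ) : ℤ) K F)))

def frPt (pe F x y z : ℕ) : Bool :=
  band (dv (Nat.gcd (fl F (nat_lit 36)) pe) (lin F (nat_lit 0) (nat_lit 12) (nat_lit 24) x y z))
    (band (dv (Nat.gcd (fl F (nat_lit 84)) pe) (lin F (nat_lit 48) (nat_lit 60) (nat_lit 72) x y z))
      (dv (Nat.gcd (fl F (nat_lit 132)) pe) (lin F (nat_lit 96) (nat_lit 108) (nat_lit 120) x y z)))

def sg2 (M PP : ℕ) (K : K6) (x y z : ℕ) : ℕ :=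
  frcN (Nat.mod (qn (nat_lit 144) K x y z) (nat_lit 16)) fun r => Nat.land M (cm2 PP r)
def sg3 (P3 : ℕ) (K : K6) (x y z : ℕ) : ℕ :=
  frcN (Nat.mod (qn (nat_lit 144) K x y z) (nat_lit 9)) fun r => Nat.add (cm3 P3 r) (nat_lit 0)
def fms (pe : ℕ) (frs : List ℕ) (x y z : ℕ) : ℕ := fm frs fun F => frPt pe F x y z

def inner3 (P3 M3 : ℕ) (K : K6) (frs : List ℕ) (cm f2 : ℕ) : Bool :=
  allPts 3 P3 M3 fun x y z =>
    bor (Nat.beq (Nat.land cm (sg3 P3 K x y z)) (nat_lit 0))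
      (Nat.blt (nat_lit 0) (Nat.land f2 (fms P3 frs x y z)))

def dd (K : K6) : ℕ :=
  ite' (band (dv 2 (nm 2 K.r)) (band (dv 2 (nm 2 K.s)) (dv 2 (nm 2 K.t)))) 2 1

structure Lat where
  e2 : ℕ
  e3 : ℕ
  frs : List ℕ

def latAux (c1 c2 c3 lam mul M P2 M2 PP P3 M3 : ℕ) (K : K6) (frs : List ℕ) : Bool :=
  band (lall frs fun F => frOK c1 c2 c3 lam mul P2 P3 K F)
    (allPts 2 P2 M2 fun x y z =>
      frc (sg2 M PP K x y z) fun cm =>
        bor (Nat.beq cm (nat_lit 0))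
          (frc (fms P2 frs x y z) fun f2 => band (inner3 P3 M3 K frs cm f2) true))

/-- depths are `e2 + 1` and `e3 + 1` -/
def latOK (c1 c2 c3 lam mul M : ℕ) (K : K6) (L : Lat) : Bool :=
  frc (Nat.pow 2 (L.e2 + 1)) fun P2 => frc (Nat.pow 2 L.e2) fun M2 =>
  frc (Nat.mul P2 (dd K)) fun PP =>
  frc (Nat.pow 3 (L.e3 + 1)) fun P3 => frc (Nat.pow 3 L.e3) fun M3 =>
    latAux c1 c2 c3 lam mul M P2 M2 PP P3 M3 K L.frs

structure Grp where
  j2 : ℕ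
  j3 : ℕ
  M : ℕ
  lats : List Lat

def grpOK (c1 c2 c3 lam D P : ℕ) (Ks : List K6) (g : Grp) : Bool :=
  band (Nat.beq (Nat.land g.M (admM D P)) g.M)
    (band (Nat.beq Ks.length g.lats.length)
      (lall (Ks.zip g.lats) fun kl =>
        latOK c1 c2 c3 lam (Nat.mul (Nat.pow 4 g.j2) (Nat.pow 9 g.j3)) g.M kl.1 kl.2))

def goodB (gs : List Grp) (A B h : ℕ) : Bool :=
  lany gs fun g => band (Nat.ble (Nat.mul 2 g.j2) A) (band (Nat.ble (Nat.mul 2 g.j3) B)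
    (tb g.M (Nat.add (Nat.add (Nat.mul 48 (Nat.mod A 2)) (Nat.mul 24 (Nat.mod B 2))) h)))

/-- position of a class in a table -/
def tix (a b h : ℕ) : ℕ :=
  Nat.add (Nat.add (Nat.mul 40 a) (Nat.mul 10 (Nat.div (Nat.mod (Nat.mul (Nat.pow 3 b) h) 8) 2)))
    (Nat.add (Nat.mul 2 b) (Nat.sub (Nat.mod (Nat.mul (Nat.pow 2 a) h) 3) 1))

def tabOK (gt l2 l3 : ℕ) (gs : List Grp) : Bool :=
  allLt 17 fun a => allLt 5 fun b => lall [1, 5, 7, 11, 13, 17, 19, 23] fun h =>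
    bor (not (tb gt (tix a b h))) (goodB gs (Nat.add a l2) (Nat.add b l3) h)

def rc1 (r : ℕ) : ℕ := Nat.mod r (nat_lit 128)
def rc2 (r : ℕ) : ℕ := Nat.mod (Nat.shiftRight r (nat_lit 7)) (nat_lit 128)
def rc3 (r : ℕ) : ℕ := Nat.mod (Nat.shiftRight r (nat_lit 14)) (nat_lit 128)
def rgt (r : ℕ) : ℕ := Nat.shiftRight r (nat_lit 21)

structure FC where
  r : ℕ
  fi : ℕ
  l2 : ℕ
  l3 : ℕ
  gs : List Grp

structure Fm where
  D : ℕ
  lev : ℕ
  Ks : List K6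

def fm0 : Fm := ⟨2, 1, [⟨1, 1, 1, 0, 0, 0⟩]⟩

def fcAux (f : FC) (c1 c2 c3 : ℕ) (F : Fm) : Bool :=
  band (Nat.blt 0 c1) (band (Nat.ble c1 c2) (band (Nat.ble c1 c3)
    (band (lall f.gs fun g =>
        grpOK c1 c2 c3 (Nat.mul (Nat.pow 2 f.l2) (Nat.pow 3 f.l3)) F.D F.lev F.Ks g)
      (tabOK (rgt f.r) f.l2 f.l3 f.gs))))

def fcOK (fams : List Fm) (f : FC) : Bool :=
  fcAux f (rc1 f.r) (rc2 f.r) (rc3 f.r) (fams.getD f.fi fm0)

inductive CT where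
  | L : FC → CT
  | N : CT → CT → CT

def ctOK (fams : List Fm) (t : CT) : Bool :=
  @CT.rec (fun _ => Bool) (fun f => fcOK fams f) (fun _ _ a b => band a b) t

def look (t : CT) : ℕ → ℕ :=
  @CT.rec (fun _ => ℕ → ℕ) (fun f _ => f.r)
    (fun _ _ a b i => @Bool.rec (fun _ => ℕ) (b (Nat.div i (nat_lit 2))) (a (Nat.div i (nat_lit 2)))
      (Nat.beq (Nat.mod i (nat_lit 2)) (nat_lit 0))) t

/-! ### the covering tree -/

def Tz (E y : ℕ) : ℕ := (E * y ^ 3 + 80 * y) % 81 / 3 * 14 % 27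

def zz (E : ℕ) (n : ℕ) : ℕ → ℕ :=
  @Nat.rec (fun _ => ℕ → ℕ) (fun _ => 0)
    (fun _ ih y => Nat.add (Nat.pow 2 (Tz E (Nat.mod y 81)))
      (Nat.mul (Nat.pow 2 54) (ih (Nat.succ y)))) n

def zr (Z t : ℕ) : ℕ :=
  Nat.mod (Nat.shiftRight Z (Nat.mul (nat_lit 54) (Nat.mod (Nat.mul (nat_lit 2) t) (nat_lit 81))))
    (Nat.pow (nat_lit 2) (nat_lit 4374))

def full : ℕ :=
  @Nat.rec (fun _ => ℕ) 0 (fun _ ih => Nat.add 134217727 (Nat.mul (Nat.pow 2 54) ih)) 81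

def cls (par r : ℕ) : ℕ :=
  if r % 3 ≠ 0 then 2 ^ par * r % 3 - 1
  else if r % 9 ≠ 0 then 2 + (2 ^ par * (r / 3) % 3 - 1)
  else if r ≠ 0 then 4 + (2 ^ par * (r / 9) % 3 - 1) else 6

def TB : ℕ := nat_lit 0x124924912492496db6db6201008164b2591a4d2697dbedf604020112c964b1349a4d6fb7dbe24120916cb65b1b4da6d7fbfdfe008000125924912692496df6db6209008165b2591a6d2697dfedf604820112d964b1369a4d6ff7dbe24920916db65b1b6da6d7fffdfe00004012492c912493496db6fb6201048164b2d91a4d3697dbeff604024112c96cb1349b4d6fb7fbe24124916cb6db1b4db6d7fbfffe00804012592c912693496df6fb6209048165b2d91a6d3697dfeff604824112d96cb1369b4d6ff7fbe24924916db6db1b6db6d7fffffe00000032492495249249edb6db7201008364b2595a4d269fdbedf704020132c964b5349a4defb7dbf24120936cb65b5b4da6dffbfdff00800032592495269249edf6db7209008365b2595a6d269fdfedf704820132d964b5369a4deff7dbf24920936db65b5b6da6dffffdff00004032492c95249349edb6fb72010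48364b2d95a4d369fdbeff704024132c96cb5349b4defb7fbf24124936cb6db5b4db6dffbffff00804032592c95269349edf6fb7209048365b2d95a6d369fdfeff704824132d96cb5369b4deff7fbf24924936db6db5b6db6dfffffff0000000924924a4924926db6db604020109a4d26a592c966fb7dbe2010080d26934ac964b27dbedf62412090da6d36ad96cb67fbfdfe00004009249a4a4925926db6fb604024109a4da6a592d966fb7fbe2010480d269b4ac965b27dbeff62412490da6db6ad96db67fbfffe0080000934924a4b24926df6db604820109b4d26a5b2c966ff7dbe2090080d36934acb64b27dfedf62492090db6d36adb6cb67fffdfe00804009349a4a4b25926df6fb604824109b4da6a5b2d966ff7fbe2090480d369b4acb65b27dfeff62492490db6db6adb6db67fffffe0000002924924e492492edb6db704020129a4d26e592c96efb7dbf2010082d26934ec964b2fdbedf72412092da6d36ed96cb6ffbfdff00004029249a4e492592edb6fb704024129a4da6e592d96efb7fbf2010482d269b4ec965b2fdbeff72412492da6db6ed96db6ffbffff0080002934924e4b2492edf6db704820129b4d26e5b2c96eff7dbf2090082d36934ecb64b2fdfedf72492092db6d36edb6cb6ffffdff00804029349a4e4b2592edf6fb704824129b4da6e5b2d96eff7fbf2090482d369b4ecb65b2fdfeff72492492db6db6edb6db6fffffff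

def remz (z : ℕ) : ℕ := Nat.mod (Nat.shiftRight (nat_lit 65444) (Nat.mul (nat_lit 2) z)) (nat_lit 4)
def hhz (z : ℕ) : ℕ := Nat.mod (Nat.shiftRight (nat_lit 16094792) (Nat.mul (nat_lit 3) z)) (nat_lit 8)

def compat (z rho : ℕ) : Bool :=
  decide (z = 0 ∨ (rho < 4 ∧ (2 * rho + 1) % 2 ^ remz z = hhz z))

def DC : ℕ := nat_lit 0xffffffffff003fffffffffffffffffffc00ffffffffffffffffffff003fffffffffffffffffffc00ffffffffff003ff003ffffffffffffffc00ffc00ffffffffff000000000000000000000000000000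

def rs1 (r : ℕ) : ℕ := Nat.add (Nat.add (rc1 r) (rc2 r)) (rc3 r)
def rs3 (r : ℕ) : ℕ := Nat.add (Nat.add (Nat.pow (rc1 r) (nat_lit 3)) (Nat.pow (rc2 r) (nat_lit 3)))
  (Nat.pow (rc3 r) (nat_lit 3))
def rs4 (r : ℕ) : ℕ := Nat.add (rs3 r) (Nat.mul (nat_lit 3) (Nat.pow (rc1 r) (nat_lit 3)))
def kk (l lk : ℕ) : ℕ := Nat.shiftLeft (Nat.pow (nat_lit 3) lk) l
def kk3 (l lk : ℕ) : ℕ := Nat.shiftLeft (Nat.pow (kk l lk) (nat_lit 3)) (nat_lit 48)
def KK (E S1 S3 : ℕ) : ℕ :=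
  Nat.div (Nat.mod (Nat.add (Nat.mul E S3) (Nat.mul (nat_lit 80) S1)) (nat_lit 81)) (nat_lit 3)
def cube4 (t a : ℕ) : ℕ :=
  Nat.shiftLeft (Nat.pow (Nat.add (Nat.shiftLeft t (nat_lit 16)) a) (nat_lit 3)) (nat_lit 2)
def sand (Y s : ℕ) : ℕ := Nat.land Y (Nat.shiftRight Y s)
def sor (X : ℕ) : ℕ := Nat.lor X (Nat.shiftRight X (nat_lit 27))
def g10 (r v z : ℕ) : ℕ :=
  Nat.mod (sand (sand (sand (Nat.lor (Nat.shiftRight (rgt r) (Nat.mul (nat_lit 40) v))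
    (Nat.shiftRight DC (Nat.mul (nat_lit 80) z))) (nat_lit 40)) (nat_lit 20)) (nat_lit 10)) (nat_lit 1024)
def g7 (G : ℕ) : ℕ :=
  Nat.add (Nat.mod G (nat_lit 64))
    (Nat.mul (nat_lit 64) (Nat.div (Nat.mod (Nat.shiftRight G (nat_lit 6)) (nat_lit 16)) (nat_lit 15)))
def sbar (r l lk v z : ℕ) : ℕ :=
  Nat.mod (Nat.shiftRight TB (Nat.mul (nat_lit 27)
    (Nat.add (Nat.mul (nat_lit 128) (Nat.mod l (nat_lit 2)))
      (g7 (Nat.shiftLeft (g10 r v z) (Nat.mul (nat_lit 2) lk)))))) (nat_lit 134217728)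
def rot (S K : ℕ) : ℕ :=
  Nat.mod (Nat.shiftRight (Nat.mul S (nat_lit 134217729)) (Nat.sub (nat_lit 27) K)) (nat_lit 134217728)

def newRem (Z E r l lk t v z rem : ℕ) : ℕ :=
  Nat.land rem (sor (Nat.mul (zr Z t) (rot (sbar r l lk v z)
    (KK E (Nat.mul (kk l lk) (rs1 r)) (Nat.mul (Nat.pow (kk l lk) (nat_lit 3)) (rs3 r))))))

def ok2 (Kn d Pi m0 Pj S1 tg : ℕ) : Bool :=
  band (dv Kn Pi) (band (dv Kn (Nat.mul d Pj))
    (Nat.beq (Nat.mod (Nat.add (Nat.mul m0 d) S1) Kn) (Nat.mod tg Kn)))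

def appOK (r l lk t v z R1 R2 a1 a2 n0 Pi m0 Pj : ℕ) : Bool :=
  band (Nat.ble (Nat.add (cube4 t a2) (Nat.mul (kk3 l lk) (rs3 r))) (Nat.mul (nat_lit 3298534883328) R1))
    (band (Nat.ble (Nat.add (Nat.mul (nat_lit 3298534883328) R2)
        (Nat.shiftLeft (Nat.add (Nat.succ t) (Nat.mul (kk l lk) (rs1 r))) (nat_lit 20)))
        (Nat.add (cube4 t a1) (Nat.mul (kk3 l lk) (rs4 r))))
      (ok2 (Nat.pow (nat_lit 2) (Nat.add (Nat.add l v) (remz z))) (Nat.sub (Nat.add t Pi) n0) Pi m0 Pj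
        (Nat.mul (kk l lk) (rs1 r))
        (Nat.shiftLeft (Nat.mul (Nat.mul (nat_lit 3) (kk l lk)) (hhz z)) v)))

def bits (s o m : ℕ) : ℕ := Nat.mod (Nat.shiftRight s o) m

abbrev St := ℕ → ℕ → ℕ → ℕ → ℕ → ℕ → ℕ → ℕ → ℕ → ℕ → Bool

def appStep (ct : CT) (Z E : ℕ) (ih : St) (R1 R2 a1 a2 n0 Pi m0 Pj rem s : ℕ) : Bool :=
  frc (bits s (nat_lit 3) (nat_lit 256)) fun i =>
  frc (bits s (nat_lit 11) (nat_lit 8)) fun l =>
  frc (bits s (nat_lit 14) (nat_lit 4)) fun lk =>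
  frc (bits s (nat_lit 16) (nat_lit 64)) fun t =>
  frc (bits s (nat_lit 22) (nat_lit 16)) fun v =>
  frc (bits s (nat_lit 26) (nat_lit 8)) fun z =>
    band (appOK (look ct i) l lk t v z R1 R2 a1 a2 n0 Pi m0 Pj)
      (ih R1 R2 a1 a2 n0 Pi m0 Pj (newRem Z E (look ct i) l lk t v z rem)
        (Nat.shiftRight s (nat_lit 29)))

def sL (s : ℕ) : ℕ :=
  Nat.mod (Nat.shiftRight s (nat_lit 23)) (Nat.pow (nat_lit 2) (bits s (nat_lit 3) (nat_lit 1048576)))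
def sR (s : ℕ) : ℕ :=
  Nat.shiftRight s (Nat.add (nat_lit 23) (bits s (nat_lit 3) (nat_lit 1048576)))
def mid (a b : ℕ) : ℕ := Nat.div (Nat.add a b) (nat_lit 2)

def splitStep (ih : St) (op R1 R2 a1 a2 n0 Pi m0 Pj rem s : ℕ) : Bool :=
  @Bool.rec (fun _ => Bool)
    (@Bool.rec (fun _ => Bool)
      (@Bool.rec (fun _ => Bool)
        (@Bool.rec (fun _ => Bool)
          (band (ih R1 R2 a1 a2 n0 Pi m0 (Nat.mul (nat_lit 2) Pj) rem (sL s))
            (ih R1 R2 a1 a2 n0 Pi (Nat.add m0 Pj) (Nat.mul (nat_lit 2) Pj) rem (sR s)))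
          (band (ih R1 R2 a1 (mid a1 a2) n0 Pi m0 Pj rem (sL s))
            (ih R1 R2 (mid a1 a2) a2 n0 Pi m0 Pj rem (sR s)))
          (Nat.beq op (nat_lit 5)))
        (band (ih R1 R2 a1 a2 n0 Pi (nat_lit 1) (nat_lit 16) rem (sL s))
          (ih R1 R2 a1 a2 n0 Pi (nat_lit 21) (nat_lit 32) rem (sR s)))
        (Nat.beq op (nat_lit 4)))
      (band (dv (Nat.mul (nat_lit 2) Pi) (nat_lit 16384))
        (band (ih R1 R2 a1 a2 n0 (Nat.mul (nat_lit 2) Pi) m0 Pj rem (sL s))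
          (ih R1 R2 a1 a2 (Nat.add n0 Pi) (Nat.mul (nat_lit 2) Pi) m0 Pj rem (sR s))))
      (Nat.beq op (nat_lit 3)))
    (band (ih R1 (mid R1 R2) a1 a2 n0 Pi m0 Pj rem (sL s))
      (ih (mid R1 R2) R2 a1 a2 n0 Pi m0 Pj rem (sR s)))
    (Nat.beq op (nat_lit 2))

def go (ct : CT) (Z E : ℕ) (fuel : ℕ) : St :=
  @Nat.rec (fun _ => St) (fun _ _ _ _ _ _ _ _ _ _ => false)
    (fun _ ih R1 R2 a1 a2 n0 Pi m0 Pj rem s =>
      @Bool.rec (fun _ => Bool)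
        (@Bool.rec (fun _ => Bool)
          (splitStep ih (Nat.mod s (nat_lit 8)) R1 R2 a1 a2 n0 Pi m0 Pj rem s)
          (Nat.beq rem (nat_lit 0))
          (Nat.beq s (nat_lit 0)))
        (appStep ct Z E ih R1 R2 a1 a2 n0 Pi m0 Pj rem s)
        (Nat.beq (Nat.mod s (nat_lit 8)) (nat_lit 1))) fuel

def root (ct : CT) (E R1 R2 s : ℕ) : Bool :=
  go ct (zz E 162 0) E 1000 R1 R2 0 65536 0 1 1 4 full s

end Pool.Agent.P.MP_65bf67_nt
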