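import Pool.Agent.P.MP_65bf67_nt.Basic

/-! Soundness of the class lookup. -/

set_option autoImplicit false

namespace Pool.Agent.P.MP_65bf67_nt

theorem tabTB : (allLt 2 fun par => allLt 128 fun g => allLt 27 fun r =>
    bor (tb TB (27 * (128 * par + g) + r)) (tb g (cls par r))) = true := by decide +kernel

theorem tabDC : (allLt 8 fun z => allLt 8 fun rho => allLt 10 fun j =>
    bor (not (compat z rho)) (not (tb DC (80 * z + 10 * rho + j)))) = true := by decide +kernel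

theorem tabTB' (par g r : ℕ) (h1 : par < 2) (h2 : g < 128) (h3 : r < 27)
    (h : TB.testBit (27 * (128 * par + g) + r) = false) : g.testBit (cls par r) = true := by
  have := (allLt_iff _ _).1 ((allLt_iff _ _).1 ((allLt_iff _ _).1 tabTB par h1) g h2) r h3
  rw [bor_iff, tb_eq, tb_eq, h] at this
  rcases this with h' | h'
  · exact absurd h' (by simp)
  · exact h'

theorem tabDC' (z rho j : ℕ) (h1 : z < 8) (h2 : rho < 8) (h3 : j < 10)
    (h : compat z rho = true) : DC.testBit (80 * z + 10 * rho + j) = false := by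
  have := (allLt_iff _ _).1 ((allLt_iff _ _).1 ((allLt_iff _ _).1 tabDC z h1) rho h2) j h3
  rw [bor_iff, tb_eq, h] at this
  rcases this with h' | h'
  · exact absurd h' (by simp)
  · simpa using h'

theorem remz_facts (z : ℕ) (hz : z < 8) : remz z ≤ 3 ∧
    (z ≠ 0 → 1 ≤ remz z ∧ hhz z % 2 = 1 ∧ hhz z < 2 ^ remz z) := by
  interval_cases z <;> decide

theorem kk_eq (l lk : ℕ) : kk l lk = 3 ^ lk * 2 ^ l := by
  show (3 ^ lk) <<< l = _
  rw [Nat.shiftLeft_eq]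

theorem cls_tab : ∀ par < 2, ∀ a < 27, ∀ B < 3, a % 3 ≠ 0 →
    cls par (3 ^ B * a % 27) = 2 * B + (2 ^ par * a % 3 - 1) := by decide +kernel

theorem two_pow_mod3 (a : ℕ) : 2 ^ a ≡ 2 ^ (a % 2) [MOD 3] := by
  have h : 2 ^ a = (2 ^ 2) ^ (a / 2) * 2 ^ (a % 2) := by
    rw [← pow_mul, ← pow_add, Nat.div_add_mod]
  rw [h]
  have h4 : (2 ^ 2) ^ (a / 2) ≡ 1 ^ (a / 2) [MOD 3] := Nat.ModEq.pow _ (by decide)
  rw [one_pow] at h4
  simpa using h4.mul_right (2 ^ (a % 2))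

theorem cls_spec (l B w : ℕ) (hB : B < 3) (hw : w % 3 ≠ 0) :
    cls (l % 2) (3 ^ B * w % 27) = 2 * B + (2 ^ l * w % 3 - 1) := by
  have h1 : 3 ^ B * w % 27 = 3 ^ B * (w % 27) % 27 := by
    rw [Nat.mul_mod, Nat.mul_mod (3 ^ B) (w % 27), Nat.mod_mod]
  have h2 : 2 ^ l * w % 3 = 2 ^ (l % 2) * (w % 27) % 3 := by
    have h3 : w ≡ w % 27 [MOD 3] :=
      ((Nat.mod_modEq w 27).of_dvd (by norm_num : 3 ∣ 27)).symm
    exact (two_pow_mod3 l).mul h3
  rw [h1, h2]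
  exact cls_tab (l % 2) (Nat.mod_lt _ (by norm_num)) (w % 27) (Nat.mod_lt _ (by norm_num)) B hB
    (by omega)

theorem g7_lt (G : ℕ) : g7 G < 128 := by
  have e : g7 G = G % 64 + 64 * ((G >>> 6) % 16 / 15) := rfl
  rw [e]; omega

theorem g7_low (G i : ℕ) (hi : i < 6) (h : (g7 G).testBit i = true) : G.testBit i = true := by
  have e : g7 G = G % 64 + 64 * ((G >>> 6) % 16 / 15) := rfl
  have h1 : g7 G % 2 ^ 6 = G % 2 ^ 6 := by rw [e]; omega
  have h2 : (g7 G % 2 ^ 6).testBit i = true := by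
    rw [Nat.testBit_mod_two_pow, h]; simp [hi]
  rw [h1, Nat.testBit_mod_two_pow] at h2
  simpa [hi] using h2

theorem g7_high (G i : ℕ) (hi : i < 4) (h : (g7 G).testBit 6 = true) :
    G.testBit (6 + i) = true := by
  have e : g7 G = G % 64 + 64 * ((G >>> 6) % 16 / 15) := rfl
  have h1 : 2 ^ 6 ≤ g7 G := Nat.ge_two_pow_of_testBit h
  have h2 : (G >>> 6) % 2 ^ 4 = 15 := by rw [e] at h1; omega
  have h3 : ((G >>> 6) % 2 ^ 4).testBit i = true := by
    rw [h2]; interval_cases i <;> decide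
  rw [Nat.testBit_mod_two_pow, Nat.testBit_shiftRight] at h3
  simpa [hi] using h3

theorem sand_bit (Y s j : ℕ) (h : (sand Y s).testBit j = true) :
    Y.testBit j = true ∧ Y.testBit (s + j) = true := by
  have e : sand Y s = Y &&& (Y >>> s) := rfl
  rw [e, Nat.testBit_and, Nat.testBit_shiftRight, Bool.and_eq_true] at h
  exact h

theorem g10_bit (r v z j rho : ℕ) (hj : j < 10) (hr : rho < 8)
    (h : (g10 r v z).testBit j = true) :
    (rgt r).testBit (40 * v + 10 * rho + j) = true ∨ DC.testBit (80 * z + 10 * rho + j) = true := by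
  set Y : ℕ := (rgt r >>> (40 * v)) ||| (DC >>> (80 * z)) with hY
  have e : g10 r v z = sand (sand (sand Y 40) 20) 10 % 2 ^ 10 := rfl
  rw [e, Nat.testBit_mod_two_pow] at h
  have h0 : (sand (sand (sand Y 40) 20) 10).testBit j = true := by simpa [hj] using h
  obtain ⟨a0, a1⟩ := sand_bit _ _ _ h0
  obtain ⟨b0, b1⟩ := sand_bit _ _ _ a0
  obtain ⟨b2, b3⟩ := sand_bit _ _ _ a1
  obtain ⟨c0, c4⟩ := sand_bit _ _ _ b0
  obtain ⟨c2, c6⟩ := sand_bit _ _ _ b1
  obtain ⟨c1, c5⟩ := sand_bit _ _ _ b2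
  obtain ⟨c3, c7⟩ := sand_bit _ _ _ b3
  have key : Y.testBit (10 * rho + j) = true := by
    interval_cases rho
    · simpa using c0
    · simpa using c1
    · simpa using c2
    · rw [show 10 * 3 + j = 20 + (10 + j) by omega]; exact c3
    · simpa using c4
    · rw [show 10 * 5 + j = 40 + (10 + j) by omega]; exact c5
    · rw [show 10 * 6 + j = 40 + (20 + j) by omega]; exact c6
    · rw [show 10 * 7 + j = 40 + (20 + (10 + j)) by omega]; exact c7
  rw [hY, Nat.testBit_or, Nat.testBit_shiftRight, Nat.testBit_shiftRight, Bool.or_eq_true] at key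
  rw [Nat.add_assoc, Nat.add_assoc]
  exact key

theorem sbar_bit (r l lk v z j : ℕ) (hj : j < 27) (h : (sbar r l lk v z).testBit j = false) :
    TB.testBit (27 * (128 * (l % 2) + g7 (g10 r v z <<< (2 * lk))) + j) = false := by
  have e : sbar r l lk v z =
      (TB >>> (27 * (128 * (l % 2) + g7 (g10 r v z <<< (2 * lk))))) % 2 ^ 27 := rfl
  rw [e, Nat.testBit_mod_two_pow, Nat.testBit_shiftRight] at h
  simpa [hj] using h

theorem split23 (q : ℕ) (hq : q ≠ 0) :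
    ∃ A B m : ℕ, m % 2 = 1 ∧ m % 3 ≠ 0 ∧ q = 2 ^ A * 3 ^ B * m := by
  obtain ⟨A, q1, h1, e1⟩ := Nat.exists_eq_pow_mul_and_not_dvd hq 2 (by norm_num)
  have hq1 : q1 ≠ 0 := by rintro rfl; exact h1 (dvd_zero _)
  obtain ⟨B, m, h2, e2⟩ := Nat.exists_eq_pow_mul_and_not_dvd hq1 3 (by norm_num)
  refine ⟨A, B, m, ?_, by omega, by rw [e1, e2, mul_assoc]⟩
  have : ¬ 2 ∣ m := fun h => h1 (by rw [e2]; exact h.mul_left _)
  omega

theorem three_pow_odd (a m : ℕ) (hm : m % 2 = 1) : 3 ^ a * m % 2 = 1 := by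
  have h : 3 ^ a % 2 = 1 := by rw [Nat.pow_mod]; simp
  rw [Nat.mul_mod, h, hm]

theorem two_adic (A n rem hh w : ℕ) (hw : w % 2 = 1)
    (h : 2 ^ A * w ≡ 2 ^ n * hh [MOD 2 ^ (n + rem)]) :
    n ≤ A ∧ (1 ≤ rem → hh % 2 = 1 → A = n ∧ w ≡ hh [MOD 2 ^ rem]) := by
  have hc : Nat.Coprime 2 w := by
    rw [Nat.coprime_two_left, Nat.odd_iff]; exact hw
  have h1 : n ≤ A := by
    have h2 : 2 ^ A * w ≡ 2 ^ n * hh [MOD 2 ^ n] := h.of_dvd (pow_dvd_pow 2 (by omega))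
    have h3 : 2 ^ n ∣ 2 ^ A * w := (h2.dvd_iff dvd_rfl).2 (dvd_mul_right _ _)
    have h4 : 2 ^ n ∣ 2 ^ A := (Nat.Coprime.pow_left n hc).dvd_of_dvd_mul_right h3
    exact (Nat.pow_dvd_pow_iff_le_right (by norm_num)).1 h4
  refine ⟨h1, fun hr hh1 => ?_⟩
  obtain ⟨d, rfl⟩ := Nat.exists_eq_add_of_le h1
  have h5 : 2 ^ d * w ≡ hh [MOD 2 ^ rem] := by
    rw [pow_add, pow_add, mul_assoc] at h
    exact Nat.ModEq.mul_left_cancel' (by positivity) h
  have h6 : d = 0 := by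
    by_contra hd
    have h7 : 2 ^ d * w ≡ hh [MOD 2] := h5.of_dvd (dvd_pow_self 2 (by omega))
    have h8 : 2 ∣ 2 ^ d * w := (dvd_pow_self 2 hd).mul_right _
    unfold Nat.ModEq at h7
    omega
  subst h6
  exact ⟨rfl, by simpa using h5⟩

theorem rep_scale (c1 c2 c3 k t n : ℕ) (h : Rep c1 c2 c3 n) :
    Rep (k * c1) (k * c2) (k * c3) (k * t ^ 2 * n) := by
  obtain ⟨x, y, z, e⟩ := h
  refine ⟨t * x, t * y, t * z, ?_⟩
  push_cast
  rw [e]; ring

theorem class_core (r l lk v z A B B0 m : ℕ) (hR : RecOK r) (hv : v < 16) (hz : z < 8)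
    (hm2 : m % 2 = 1) (hm3 : m % 3 ≠ 0) (hB0 : B0 ≤ 4) (hB : B0 ≤ B) (hBp : B0 % 2 = B % 2)
    (hq : 3 * (2 ^ A * 3 ^ B * m) ≡ 3 * kk l lk * hhz z * 2 ^ v [MOD 2 ^ (l + v + remz z)])
    (hG : (g10 r v z <<< (2 * lk)).testBit (2 * B0 + (2 ^ l * (2 ^ A * m) % 3 - 1)) = true) :
    Rep (kk l lk * rc1 r) (kk l lk * rc2 r) (kk l lk * rc3 r) (2 ^ A * 3 ^ B * m) := by
  set s := 2 ^ l * (2 ^ A * m) % 3 with hs
  have hs3 : s < 3 := Nat.mod_lt _ (by norm_num)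
  rw [Nat.testBit_shiftLeft, Bool.and_eq_true, decide_eq_true_eq] at hG
  obtain ⟨hG1, hG2⟩ := hG
  have hlk : lk ≤ B0 := by omega
  obtain ⟨b, rfl⟩ := Nat.exists_eq_add_of_le hlk
  obtain ⟨e, he⟩ : ∃ e, B = lk + b + 2 * e := ⟨(B - (lk + b)) / 2, by omega⟩
  subst he
  have hj : 2 * (lk + b) + (s - 1) - 2 * lk = 2 * b + (s - 1) := by omega
  rw [hj] at hG2
  -- the two-adic part
  have hcop : ∀ a : ℕ, Nat.gcd (2 ^ (l + v + remz z)) (3 ^ a) = 1 := fun a =>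
    Nat.Coprime.pow _ _ (by norm_num)
  have h2 : 2 ^ A * (3 ^ (b + 2 * e) * m) ≡ 2 ^ (l + v) * hhz z [MOD 2 ^ (l + v + remz z)] := by
    apply Nat.ModEq.cancel_left_of_coprime (hcop (lk + 1))
    have e1 : 3 ^ (lk + 1) * (2 ^ A * (3 ^ (b + 2 * e) * m)) =
        3 * (2 ^ A * 3 ^ (lk + b + 2 * e) * m) := by ring
    have e2 : 3 ^ (lk + 1) * (2 ^ (l + v) * hhz z) = 3 * kk l lk * hhz z * 2 ^ v := by
      rw [kk_eq]; ring
    rw [e1, e2]; exact hq
  obtain ⟨hA, hA2⟩ := two_adic A (l + v) (remz z) (hhz z) _ (three_pow_odd _ _ hm2) h2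
  obtain ⟨d, rfl⟩ := Nat.exists_eq_add_of_le hA
  have hodd := three_pow_odd b m hm2
  set ui := 3 ^ b * m % 8 / 2 with hui
  have hui4 : ui < 4 := by omega
  have hcomp : compat z (4 * (d % 2) + ui) = true := by
    unfold compat
    rw [decide_eq_true_eq]
    by_cases hz0 : z = 0
    · exact Or.inl hz0
    · right
      obtain ⟨hr3, hr⟩ := remz_facts z hz
      obtain ⟨hr1, hh1, hh2⟩ := hr hz0
      obtain ⟨hd, hw⟩ := hA2 hr1 hh1
      have hd0 : d = 0 := by omega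
      subst hd0
      refine ⟨by omega, ?_⟩
      have e1 : 2 * (4 * (0 % 2) + ui) + 1 = 3 ^ b * m % 8 := by omega
      have hdv : 2 ^ remz z ∣ 8 := by
        have : (8 : ℕ) = 2 ^ 3 := by norm_num
        rw [this]; exact pow_dvd_pow 2 hr3
      have e2 : 3 ^ (b + 2 * e) * m ≡ 3 ^ b * m [MOD 8] := by
        have h9 : (3 ^ 2) ^ e ≡ 1 ^ e [MOD 8] := Nat.ModEq.pow _ (by decide)
        rw [one_pow] at h9
        have e3 : 3 ^ (b + 2 * e) * m = (3 ^ 2) ^ e * (3 ^ b * m) := by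
          rw [← pow_mul]; ring
        rw [e3]
        simpa using h9.mul_right (3 ^ b * m)
      have e4 : 3 ^ b * m % 8 ≡ hhz z [MOD 2 ^ remz z] :=
        (((Nat.mod_modEq _ 8).trans e2.symm).of_dvd hdv).trans hw
      rw [e1]
      unfold Nat.ModEq at e4
      rw [e4, Nat.mod_eq_of_lt hh2]
  have hd2 : d % 2 < 2 := Nat.mod_lt _ (by norm_num)
  have hbit := g10_bit r v z (2 * b + (s - 1)) (4 * (d % 2) + ui) (by omega) (by omega) hG2
  rw [tabDC' z _ _ hz (by omega) (by omega) hcomp] at hbit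
  have hbit2 : (rgt r).testBit (40 * v + 10 * (4 * (d % 2) + ui) + (2 * b + (s - 1))) = true := by
    rcases hbit with h | h
    · exact h
    · exact absurd h (by simp)
  have htix : tix (v + d % 2) b (m % 24) =
      40 * v + 10 * (4 * (d % 2) + ui) + (2 * b + (s - 1)) := by
    have e0 : tix (v + d % 2) b (m % 24) = 40 * (v + d % 2) + 10 * (3 ^ b * (m % 24) % 8 / 2) +
        (2 * b + (2 ^ (v + d % 2) * (m % 24) % 3 - 1)) := rfl
    have e1 : 3 ^ b * (m % 24) % 8 = 3 ^ b * m % 8 :=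
      ((Nat.mod_modEq m 24).of_dvd (by norm_num : 8 ∣ 24)).mul_left _
    have e2 : 2 ^ (v + d % 2) * (m % 24) % 3 = s := by
      have e3 : 2 ^ l * (2 ^ (l + v + d) * m) = 2 ^ (l + (l + v + d)) * m := by ring
      rw [hs, e3]
      have e4 : (v + d % 2) % 2 = (l + (l + v + d)) % 2 := by omega
      have e5 : 2 ^ (v + d % 2) ≡ 2 ^ (l + (l + v + d)) [MOD 3] := by
        refine (two_pow_mod3 _).trans ?_
        rw [e4]; exact (two_pow_mod3 _).symm
      exact e5.mul ((Nat.mod_modEq m 24).of_dvd (by norm_num : 3 ∣ 24))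
    rw [e0, e1, e2, ← hui]; ring
  have hrep := hR.2.2.2 (v + d % 2) b m (by omega) (by omega) hm2 hm3 (by rw [htix]; exact hbit2)
  have hfin := rep_scale _ _ _ (kk l lk) (2 ^ (d / 2) * 3 ^ e) _ hrep
  have e9 : kk l lk * (2 ^ (d / 2) * 3 ^ e) ^ 2 * (2 ^ (v + d % 2) * 3 ^ b * m) =
      2 ^ (l + v + d) * 3 ^ (lk + b + 2 * e) * m := by
    have e8 : 2 ^ (l + v + d) = 2 ^ l * 2 ^ (v + d % 2) * (2 ^ (d / 2)) ^ 2 := by
      rw [← pow_mul, ← pow_add, ← pow_add]; congr 1; omega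
    rw [kk_eq, e8]; ring
  rw [e9] at hfin
  exact hfin

theorem class_sound : S_Class := by
  intro r l lk v z q hR hl hlk hv hz hq hbit
  by_cases hq0 : q = 0
  · subst hq0
    exact ⟨0, 0, 0, by simp⟩
  obtain ⟨A, B, m, hm2, hm3, rfl⟩ := split23 q hq0
  have h27 : 2 ^ A * 3 ^ B * m % 27 < 27 := Nat.mod_lt _ (by norm_num)
  have h1 := tabTB' (l % 2) _ _ (Nat.mod_lt _ (by norm_num)) (g7_lt _) h27
    (sbar_bit r l lk v z _ h27 hbit)
  have hw : 2 ^ A * m % 3 ≠ 0 := by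
    intro h
    have h3 : 3 ∣ 2 ^ A * m := Nat.dvd_of_mod_eq_zero h
    have h4 : 3 ∣ m :=
      (Nat.Coprime.pow_right A (by norm_num : Nat.Coprime 3 2)).dvd_of_dvd_mul_left h3
    omega
  have hs3 : 2 ^ l * (2 ^ A * m) % 3 < 3 := Nat.mod_lt _ (by norm_num)
  have eq1 : 2 ^ A * 3 ^ B * m = 3 ^ B * (2 ^ A * m) := by ring
  by_cases hB : B < 3
  · rw [eq1, cls_spec l B _ hB hw] at h1
    exact class_core r l lk v z A B B m hR hv hz hm2 hm3 (by omega) le_rfl rfl hq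
      (g7_low _ _ (by omega) h1)
  · have h0 : 2 ^ A * 3 ^ B * m % 27 = 0 := by
      apply Nat.mod_eq_zero_of_dvd
      rw [eq1]
      have : (27 : ℕ) = 3 ^ 3 := by norm_num
      rw [this]
      exact (pow_dvd_pow 3 (by omega)).mul_right _
    have hc : cls (l % 2) 0 = 6 := by simp [cls]
    rw [h0, hc] at h1
    refine class_core r l lk v z A B (4 - B % 2) m hR hv hz hm2 hm3 (by omega) (by omega)
      (by omega) hq ?_
    have h2 := g7_high _ (2 * (4 - B % 2) + (2 ^ l * (2 ^ A * m) % 3 - 1) - 6) (by omega) h1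
    rw [show 6 + (2 * (4 - B % 2) + (2 ^ l * (2 ^ A * m) % 3 - 1) - 6) =
      2 * (4 - B % 2) + (2 ^ l * (2 ^ A * m) % 3 - 1) by omega] at h2
    exact h2

end Pool.Agent.P.MP_65bf67_nt
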