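import Mathlib

set_option autoImplicit false

namespace Pool.Agent.P.MP_65bf67_nt

/-- ternary quadratic form -/
def QF (a b c r s t x y z : ℤ) : ℤ :=
  a * x ^ 2 + b * y ^ 2 + c * z ^ 2 + r * y * z + s * x * z + t * x * y

/-- half discriminant -/
def disc (a b c r s t : ℤ) : ℤ := 4 * a * b * c + r * s * t - a * r ^ 2 - b * s ^ 2 - c * t ^ 2

/-- positive definite -/
def PD (a b c r s t : ℤ) : Prop :=
  ∀ x y z : ℤ, (x ≠ 0 ∨ y ≠ 0 ∨ z ≠ 0) → 0 < QF a b c r s t x y z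

/-- tetrahedral number -/
def tet (n : ℕ) : ℕ := n * (n + 1) * (n + 2) / 6

/-- sum of seven tetrahedral numbers -/
def Sum7 (N : ℕ) : Prop :=
  ∃ a b c d e f g : ℕ, N = tet a + tet b + tet c + tet d + tet e + tet f + tet g

/-- class number one, discriminant 2 -/
def S_Red2 : Prop := ∀ a b c r s t : ℤ, PD a b c r s t → disc a b c r s t = 2 →
  ∀ x y z : ℤ, ∃ X Y Z : ℤ, 2 * QF a b c r s t x y z = X ^ 2 + Y ^ 2 + Z ^ 2

/-- class number one, discriminant 3 -/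
def S_Red3 : Prop := ∀ a b c r s t : ℤ, PD a b c r s t → disc a b c r s t = 3 →
  ∀ x y z : ℤ, ∃ X Y Z : ℤ, QF a b c r s t x y z = X ^ 2 + X * Y + Y ^ 2 + Z ^ 2

/-- three squares theorem -/
def S_Three : Prop := ∀ n : ℕ, n % 4 ≠ 0 → n % 8 ≠ 7 →
  ∃ x y z : ℤ, (n : ℤ) = x ^ 2 + y ^ 2 + z ^ 2

/-- the hexagonal analogue -/
def S_Hex : Prop := ∀ n : ℕ, n % 9 ≠ 0 → n % 9 ≠ 6 →
  ∃ x y z : ℤ, (n : ℤ) = x ^ 2 + x * y + y ^ 2 + z ^ 2

/-- small numbers -/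
def S_Small : Prop := ∀ N : ℕ, N ≤ 10 ^ 18 → Sum7 N

end Pool.Agent.P.MP_65bf67_nt
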