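import Pool.Agent.P.MP_65bf67_nt.Defs

/-! The three squares theorem and its hexagonal analogue from class number one statements,
by Dirichlet's method. -/

set_option autoImplicit false

namespace Pool.Agent.P.MP_65bf67_nt

namespace Dir

lemma key {n b c r s Δ D : ℤ} (hn : 0 < n) (hb : 0 < b) (hD : 0 < D)
    (h1 : n * Δ = s ^ 2 * b + D) (h2 : 4 * b * c = r ^ 2 + Δ) :
    PD n b c r s 0 ∧ disc n b c r s 0 = D ∧ QF n b c r s 0 1 0 0 = n := by
  refine ⟨fun x y z h => ?_, ?_, by simp [QF]⟩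
  · have e : 4 * n * b * QF n b c r s 0 x y z =
        b * (2 * n * x + s * z) ^ 2 + n * (2 * b * y + r * z) ^ 2 + D * z ^ 2 := by
      unfold QF
      linear_combination z ^ 2 * h1 + n * z ^ 2 * h2
    have p : 0 < b * (2 * n * x + s * z) ^ 2 + n * (2 * b * y + r * z) ^ 2 + D * z ^ 2 := by
      have a1 : 0 ≤ b * (2 * n * x + s * z) ^ 2 := by positivity
      have a2 : 0 ≤ n * (2 * b * y + r * z) ^ 2 := by positivity
      by_cases hz : z = 0
      · subst hz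
        simp only [mul_zero, add_zero] at a1 a2 ⊢
        rcases h with h | h | h
        · have : 0 < b * (2 * n * x) ^ 2 := by positivity
          linarith
        · have : 0 < n * (2 * b * y) ^ 2 := by positivity
          linarith
        · exact absurd rfl h
      · have : 0 < D * z ^ 2 := by positivity
        linarith
    rw [← e] at p
    exact (mul_pos_iff_of_pos_left (by positivity)).1 p
  · unfold disc
    linear_combination h1 + n * h2

lemma exists_rc {b : ℕ} (hb : b.Prime) (hb2 : b % 2 = 1) {Δ : ℤ} (hJ : jacobiSym (-Δ) b = 1)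
    (h4 : Δ % 4 = 0 ∨ Δ % 4 = 3) : ∃ r c : ℤ, 4 * b * c = r ^ 2 + Δ := by
  have : Fact b.Prime := ⟨hb⟩
  obtain ⟨x, hx⟩ := ZMod.isSquare_of_jacobiSym_eq_one hJ
  obtain ⟨r₀, rfl⟩ := ZMod.intCast_surjective x
  have h0 : (b : ℤ) ∣ r₀ ^ 2 + Δ := by
    rw [← ZMod.intCast_zmod_eq_zero_iff_dvd]
    push_cast at hx ⊢
    linear_combination -hx
  obtain ⟨r, h1, h2⟩ : ∃ r : ℤ, (b : ℤ) ∣ r ^ 2 + Δ ∧ r % 2 = Δ % 2 := by
    by_cases hp : r₀ % 2 = Δ % 2
    · exact ⟨r₀, h0, hp⟩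
    · refine ⟨r₀ + b, ?_, by omega⟩
      have : (r₀ + b) ^ 2 + Δ = r₀ ^ 2 + Δ + b * (2 * r₀ + b) := by ring
      rw [this]
      exact dvd_add h0 (dvd_mul_right _ _)
  have h3 : (4 : ℤ) ∣ r ^ 2 + Δ := by
    obtain ⟨u, hu⟩ : ∃ u, r = 2 * u + r % 2 := ⟨r / 2, by omega⟩
    rcases h4 with h4 | h4
    · have e : r = 2 * u := by omega
      have : r ^ 2 = 4 * u ^ 2 := by rw [e]; ring
      omega
    · have e : r = 2 * u + 1 := by omega
      have : r ^ 2 = 4 * (u ^ 2 + u) + 1 := by rw [e]; ring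
      omega
  have hc : IsCoprime (4 : ℤ) (b : ℤ) := by
    have : Nat.Coprime 4 b := (Nat.coprime_two_left.2 (Nat.odd_iff.2 hb2)).pow_left 2
    exact_mod_cast Nat.isCoprime_iff_coprime.2 this
  obtain ⟨c, hc⟩ := hc.mul_dvd h3 h1
  exact ⟨r, c, hc.symm⟩

lemma jac_neg {d b : ℕ} (hd : d % 4 = 3) (hb : b % 2 = 1) :
    jacobiSym (-(d : ℤ)) b = jacobiSym b d := by
  rw [jacobiSym.neg _ (Nat.odd_iff.2 hb)]
  rcases (by omega : b % 4 = 1 ∨ b % 4 = 3) with h | h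
  · rw [ZMod.χ₄_nat_one_mod_four h, one_mul,
      jacobiSym.quadratic_reciprocity_one_mod_four' (Nat.odd_iff.2 (by omega)) h]
  · rw [ZMod.χ₄_nat_three_mod_four h, jacobiSym.quadratic_reciprocity_three_mod_four hd h]
    ring

lemma jac_of_sq {s b D m : ℤ} {d : ℕ} (h : m * d = s ^ 2 * b + D) (hJ : jacobiSym (-D) d = 1) :
    jacobiSym b d = 1 := by
  have h1 : jacobiSym (s ^ 2 * b) d = jacobiSym (-D) d := by
    refine jacobiSym.mod_left' ?_
    have : s ^ 2 * b = -D + d * m := by linear_combination -h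
    rw [this, Int.add_mul_emod_self_left]
  rw [hJ, jacobiSym.mul_left, jacobiSym.pow_left] at h1
  rcases jacobiSym.trichotomy s d with e | e | e <;> rw [e] at h1 <;> norm_num at h1 <;> exact h1

lemma two (h : S_Red2) {n s Δ b : ℕ} (hn : 0 < n) (hb : b.Prime) (hb2 : b % 2 = 1)
    (hΔ : Δ % 8 = 3) (he : n * Δ = s ^ 2 * b + 2) :
    ∃ X Y Z : ℤ, 2 * (n : ℤ) = X ^ 2 + Y ^ 2 + Z ^ 2 := by
  have he' : (n : ℤ) * Δ = (s : ℤ) ^ 2 * b + 2 := by exact_mod_cast he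
  have h1 : jacobiSym (-2) Δ = 1 := by
    rw [jacobiSym.at_neg_two (Nat.odd_iff.2 (by omega)), ZMod.χ₈'_nat_eq_if_mod_eight,
      if_neg (by omega), if_pos (Or.inr hΔ)]
  have h2 : jacobiSym (-(Δ : ℤ)) b = 1 := by
    rw [jac_neg (by omega) hb2]
    exact jac_of_sq he' h1
  obtain ⟨r, c, hc⟩ := exists_rc hb hb2 h2 (by omega)
  obtain ⟨a1, a2, a3⟩ := key (by exact_mod_cast hn) (by exact_mod_cast hb.pos) two_pos he' hc
  have := h _ _ _ _ _ _ a1 a2 1 0 0
  rwa [a3] at this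

lemma three (h : S_Red3) {n s d b : ℕ} (hn : 0 < n) (hb : b.Prime) (hb4 : b % 4 = 1)
    (hd : d % 6 = 1) (he : n * (4 * d) = s ^ 2 * b + 3) :
    ∃ X Y Z : ℤ, (n : ℤ) = X ^ 2 + X * Y + Y ^ 2 + Z ^ 2 := by
  have he' : (n : ℤ) * (4 * d) = (s : ℤ) ^ 2 * b + 3 := by exact_mod_cast he
  have hbo : Odd b := Nat.odd_iff.2 (by omega)
  have h1 : jacobiSym (-3) d = 1 := by
    have := jac_neg (d := 3) (b := d) rfl (by omega)
    rw [Nat.cast_ofNat] at this
    rw [this, jacobiSym.mod_left' (a₂ := 1) (by omega), jacobiSym.one_left]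
  have h2 : jacobiSym (-(4 * (d : ℤ))) b = 1 := by
    rw [jacobiSym.neg _ hbo, ZMod.χ₄_nat_one_mod_four hb4, one_mul, jacobiSym.mul_left,
      jacobiSym.at_four hbo, one_mul,
      jacobiSym.quadratic_reciprocity_one_mod_four' (Nat.odd_iff.2 (by omega)) hb4]
    exact jac_of_sq (m := n * 4) (s := s) (by linear_combination he') h1
  obtain ⟨r, c, hc⟩ := exists_rc hb (by omega) h2 (by omega)
  obtain ⟨a1, a2, a3⟩ := key (by exact_mod_cast hn) (by exact_mod_cast hb.pos) three_pos he' hc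
  have := h _ _ _ _ _ _ a1 a2 1 0 0
  rwa [a3] at this

lemma cop {a n u v e : ℕ} (h : u * n = v * a + e) (he : e.Coprime n) : a.Coprime n := by
  have h1 : a.gcd n ∣ e := by
    have h2 : a.gcd n ∣ v * a + e := h ▸ (Nat.gcd_dvd_right a n).mul_left u
    exact (Nat.dvd_add_right ((Nat.gcd_dvd_left a n).mul_left v)).1 h2
  exact Nat.eq_one_of_dvd_coprimes he h1 (Nat.gcd_dvd_right a n)

lemma cop_two {a : ℕ} (h : a % 2 = 1) (j : ℕ) : a.Coprime (2 ^ j) :=
  (Nat.coprime_two_right.2 (Nat.odd_iff.2 h)).pow_right j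

lemma dir {M a : ℕ} (hM : M ≠ 0) (h : a.Coprime M) : ∃ k, (M * k + a).Prime := by
  obtain ⟨p, h1, h2, h3⟩ := Nat.forall_exists_prime_gt_and_modEq a hM h
  obtain ⟨k, hk⟩ := (Nat.modEq_iff_dvd' h1.le).1 h3.symm
  exact ⟨k, by rwa [← hk, Nat.sub_add_cancel h1.le]⟩

lemma halve {m X Y Z : ℤ} (h : 2 * (2 * m) = X ^ 2 + Y ^ 2 + Z ^ 2) :
    ∃ x y z : ℤ, m = x ^ 2 + y ^ 2 + z ^ 2 := by
  have f : ∀ X : ℤ, (∃ u, X = 2 * u) ∨ X ^ 2 % 4 = 1 := fun X => by
    rcases Int.even_or_odd' X with ⟨u, hu | hu⟩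
    · exact Or.inl ⟨u, hu⟩
    · right
      have : X ^ 2 = 4 * (u ^ 2 + u) + 1 := by rw [hu]; ring
      omega
  have g : ∀ u : ℤ, (2 * u) ^ 2 = 4 * u ^ 2 := fun u => by ring
  rcases f X with ⟨x, rfl⟩ | hx <;> rcases f Y with ⟨y, rfl⟩ | hy <;>
    rcases f Z with ⟨z, rfl⟩ | hz <;> try simp only [g] at h
  · exact ⟨x, y, z, by linarith⟩
  all_goals omega

end Dir

open Dir

theorem three_of_red (h : S_Red2) : S_Three := by
  intro N h4 h8
  rcases (by omega : N % 4 = 2 ∨ N % 4 = 1 ∨ N % 16 = 3 ∨ N % 16 = 11) with c | c | c | c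
  · obtain ⟨j, rfl⟩ : ∃ j, N = 2 * (2 * j + 1) := ⟨N / 4, by omega⟩
    obtain ⟨k, hk⟩ := dir (M := 2 ^ 3 * (2 * j + 1)) (a := 6 * j + 1) (by positivity)
      ((cop_two (by omega) 3).mul_right
        (cop (u := 3) (v := 1) (e := 2) (by ring) (Nat.coprime_two_left.2 ⟨j, rfl⟩)))
    have := two h (n := 2 * j + 1) (s := 1) (Δ := 8 * k + 3) (by omega) hk
      (by rw [mul_assoc]; omega) (by omega) (by ring)
    exact_mod_cast this
  · obtain ⟨j, rfl⟩ : ∃ j, N = 4 * j + 1 := ⟨N / 4, by omega⟩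
    obtain ⟨k, hk⟩ := dir (M := 2 ^ 2 * (4 * j + 1)) (a := 6 * j + 1) (by positivity)
      ((cop_two (by omega) 2).mul_right
        (cop (u := 3) (v := 2) (e := 1) (by ring) (Nat.coprime_one_left _)))
    obtain ⟨X, Y, Z, e⟩ := two h (n := 2 * (4 * j + 1)) (s := 2) (Δ := 8 * k + 3) (by omega) hk
      (by rw [mul_assoc]; omega) (by omega) (by ring)
    rw [Nat.cast_mul, Nat.cast_ofNat] at e
    exact halve e
  · obtain ⟨j, rfl⟩ : ∃ j, N = 16 * j + 3 := ⟨N / 16, by omega⟩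
    obtain ⟨k, hk⟩ := dir (M := 2 ^ 1 * (16 * j + 3)) (a := 6 * j + 1) (by positivity)
      ((cop_two (by omega) 1).mul_right
        (cop (u := 3) (v := 8) (e := 1) (by ring) (Nat.coprime_one_left _)))
    obtain ⟨X, Y, Z, e⟩ := two h (n := 2 * (16 * j + 3)) (s := 4) (Δ := 16 * k + 3) (by omega) hk
      (by rw [mul_assoc]; omega) (by omega) (by ring)
    rw [Nat.cast_mul, Nat.cast_ofNat] at e
    exact halve e
  · obtain ⟨j, rfl⟩ : ∃ j, N = 16 * j + 11 := ⟨N / 16, by omega⟩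
    obtain ⟨k, hk⟩ := dir (M := 2 ^ 1 * (16 * j + 11)) (a := 22 * j + 15) (by positivity)
      ((cop_two (by omega) 1).mul_right
        (cop (u := 11) (v := 8) (e := 1) (by ring) (Nat.coprime_one_left _)))
    obtain ⟨X, Y, Z, e⟩ := two h (n := 2 * (16 * j + 11)) (s := 4) (Δ := 16 * k + 11) (by omega)
      hk (by rw [mul_assoc]; omega) (by omega) (by ring)
    rw [Nat.cast_mul, Nat.cast_ofNat] at e
    exact halve e

theorem hex_of_red (h : S_Red3) : S_Hex := by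
  intro N h0 h6
  rcases (by omega : N % 3 ≠ 0 ∨ N % 9 = 3) with c | c
  · obtain ⟨j, rfl⟩ : ∃ j, N = j + 1 := ⟨N - 1, by omega⟩
    have c3 : ∀ a : ℕ, a % 3 ≠ 0 → Nat.Coprime 3 a := fun a ha =>
      (Nat.Prime.coprime_iff_not_dvd Nat.prime_three).2 (by omega)
    obtain ⟨k, hk⟩ := dir (M := 2 ^ 3 * (3 * (j + 1))) (a := 4 * j + 1) (by positivity)
      ((cop_two (by omega) 3).mul_right ((c3 _ (by omega)).symm.mul_right
        (cop (u := 4) (v := 1) (e := 3) (by ring) (c3 _ c))))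
    exact three h (s := 1) (d := 6 * k + 1) (by omega) hk (by rw [mul_assoc]; omega) (by omega)
      (by ring)
  · obtain ⟨j, rfl⟩ : ∃ j, N = 3 * (3 * j + 1) := ⟨N / 9, by omega⟩
    obtain ⟨k, hk⟩ := dir (M := 2 ^ 3 * (3 * j + 1)) (a := 4 * j + 1) (by positivity)
      ((cop_two (by omega) 3).mul_right
        (cop (u := 4) (v := 3) (e := 1) (by ring) (Nat.coprime_one_left _)))
    exact three h (s := 3) (d := 6 * k + 1) (by omega) hk (by rw [mul_assoc]; omega) (by omega)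
      (by ring)

end Pool.Agent.P.MP_65bf67_nt
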