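import Pool.Agent.P.MP_65bf67_nt.Basic

/-! Soundness of the covering tree checker. -/

set_option autoImplicit false

noncomputable section

namespace Pool.Agent.P.MP_65bf67_nt

def Cov (E R1 R2 a1 a2 n0 Pi m0 Pj rem : ℕ) : Prop :=
  ∀ W : World E, R1 * W.β ^ 3 ≤ 256 * W.N → 256 * W.N ≤ R2 * W.β ^ 3 →
    a1 * W.β ≤ 65536 * W.u → 65536 * W.u ≤ a2 * W.β → Pi ∣ 16384 → W.n % Pi = n0 →
    W.μ % Pj = m0 → rem.testBit (54 * W.w + W.ν) = true → Sum7 W.N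

theorem mod_split (x P a : ℕ) (h : x % P = a) : x % (2 * P) = a ∨ x % (2 * P) = a + P := by
  rw [mul_comm 2 P, Nat.mod_mul, h]
  rcases Nat.mod_two_eq_zero_or_one (x / P) with h2 | h2 <;> rw [h2] <;> simp

theorem cube4_eq (t a : ℕ) : cube4 t a = 4 * (65536 * t + a) ^ 3 := by
  show ((t <<< 16 + a) ^ 3) <<< 2 = _
  rw [Nat.shiftLeft_eq, Nat.shiftLeft_eq]; ring

theorem kk3_eq (l lk : ℕ) : kk3 l lk = 2 ^ 48 * kk l lk ^ 3 := by
  show (kk l lk ^ 3) <<< 48 = _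
  rw [Nat.shiftLeft_eq]; ring

theorem kk_pos (l lk : ℕ) : 0 < kk l lk := by
  show 0 < (3 ^ lk) <<< l
  rw [Nat.shiftLeft_eq]; positivity

theorem real_lo (N β u t a2 R1 S1 S3 : ℕ) (q : ℤ) (hβ : 0 < β)
    (h1 : R1 * β ^ 3 ≤ 256 * N) (h2 : 65536 * u ≤ a2 * β)
    (h3 : 4 * (65536 * t + a2) ^ 3 + 2 ^ 48 * S3 ≤ 3298534883328 * R1)
    (hq : 3 * (β : ℤ) * q = 3 * N - 4 * ((u : ℤ) + β * t) ^ 3 + (u + β * t) - (β : ℤ) ^ 3 * S3
      + β * S1) : 0 ≤ q := by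
  have h4 : 65536 * (u + β * t) ≤ (65536 * t + a2) * β := by linarith
  have h5 : (65536 * (u + β * t)) ^ 3 ≤ ((65536 * t + a2) * β) ^ 3 := Nat.pow_le_pow_left h4 3
  have h6 := Nat.mul_le_mul_right (β ^ 3) h3
  have h7 : 4 * (u + β * t) ^ 3 + β ^ 3 * S3 ≤ 3 * N := by
    rw [mul_pow, mul_pow] at h5
    generalize (u + β * t) ^ 3 = X at *
    generalize (65536 * t + a2) ^ 3 = Y at *
    generalize β ^ 3 = B at *
    linarith
  have h8 : (4 * ((u : ℤ) + β * t) ^ 3 + (β : ℤ) ^ 3 * S3 ≤ 3 * N) := by exact_mod_cast h7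
  have h9 : (0 : ℤ) ≤ (u + β * t) + β * S1 := by positivity
  have h10 : (0 : ℤ) ≤ 3 * (β : ℤ) * q := by linarith
  have hb : (0 : ℤ) < 3 * β := by
    have : (0 : ℤ) < β := by exact_mod_cast hβ
    linarith
  exact (mul_nonneg_iff_of_pos_left hb).1 h10

theorem real_hi (N β u t a1 R2 S1 S3 C : ℕ) (q : ℤ) (hβ : 16384 ≤ β) (hu : u < β)
    (h1 : 256 * N ≤ R2 * β ^ 3) (h2 : a1 * β ≤ 65536 * u)
    (h3 : 3298534883328 * R2 + (t + 1 + S1) * 2 ^ 20 ≤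
      4 * (65536 * t + a1) ^ 3 + 2 ^ 48 * (S3 + 3 * C))
    (hq : 3 * (β : ℤ) * q = 3 * N - 4 * ((u : ℤ) + β * t) ^ 3 + (u + β * t) - (β : ℤ) ^ 3 * S3
      + β * S1) : q ≤ C * (β : ℤ) ^ 2 := by
  have h4 : (65536 * t + a1) * β ≤ 65536 * (u + β * t) := by linarith
  have h5 : ((65536 * t + a1) * β) ^ 3 ≤ (65536 * (u + β * t)) ^ 3 := Nat.pow_le_pow_left h4 3
  have h6 := Nat.mul_le_mul_right (β ^ 3) h3
  have hb2 : 16384 ^ 2 ≤ β ^ 2 := Nat.pow_le_pow_left hβ 2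
  have hb3 : 16384 ^ 2 * β ≤ β ^ 3 := by
    have := Nat.mul_le_mul_right β hb2
    linarith
  have hb4 : (u + β * t) + β * S1 ≤ (t + 1 + S1) * β := by linarith
  have hb5 : 16384 ^ 2 * ((u + β * t) + β * S1) ≤ (t + 1 + S1) * β ^ 3 := by
    calc 16384 ^ 2 * ((u + β * t) + β * S1) ≤ 16384 ^ 2 * ((t + 1 + S1) * β) :=
          Nat.mul_le_mul_left _ hb4
      _ = (t + 1 + S1) * (16384 ^ 2 * β) := by ring
      _ ≤ _ := Nat.mul_le_mul_left _ hb3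
  have h7 : 3 * N + ((u + β * t) + β * S1) ≤ 4 * (u + β * t) ^ 3 + β ^ 3 * S3 + 3 * (C * β ^ 3) := by
    rw [mul_pow, mul_pow] at h5
    generalize (u + β * t) ^ 3 = X at *
    generalize (65536 * t + a1) ^ 3 = Y at *
    generalize (u + β * t) + β * S1 = V at *
    generalize t + 1 + S1 = T at *
    generalize β ^ 3 = B at *
    linarith
  have h8 : (3 * (N : ℤ) + ((u + β * t) + β * S1) ≤
      4 * ((u : ℤ) + β * t) ^ 3 + (β : ℤ) ^ 3 * S3 + 3 * (C * (β : ℤ) ^ 3)) := by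
    exact_mod_cast h7
  have h10 : 3 * (β : ℤ) * q ≤ 3 * (β : ℤ) * (C * (β : ℤ) ^ 2) := by linarith
  have hb : (0 : ℤ) < 3 * β := by
    have : (0 : ℤ) < β := by exact_mod_cast (by omega : 0 < β)
    linarith
  exact le_of_mul_le_mul_left h10 hb

theorem two_adic_go (Kn Pi Pj n0 m0 n μ t S1 tg q : ℕ) (hP : Pi ∣ 16384) (hn : n % Pi = n0)
    (hμ : μ % Pj = m0) (h : ok2 Kn (t + Pi - n0) Pi m0 Pj S1 tg = true)
    (hq : 3 * (q : ℤ) ≡ (μ : ℤ) * ((t : ℤ) - n) + S1 [ZMOD 16384]) : 3 * q ≡ tg [MOD Kn] := by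
  simp only [ok2, band_iff, dv_iff, Nat.beq_eq, Nat.add_eq, Nat.mul_eq] at h
  obtain ⟨h1, h2, h3⟩ := h
  have h3' : m0 * (t + Pi - n0) + S1 ≡ tg [MOD Kn] := h3
  refine Nat.ModEq.trans ?_ h3'
  have hPi : 0 < Pi := Nat.pos_of_dvd_of_pos hP (by norm_num)
  have hlt : n0 < Pi := hn ▸ Nat.mod_lt _ hPi
  set d := t + Pi - n0 with hd
  have hdz : (d : ℤ) = t + Pi - n0 := by omega
  have e1 : (n : ℤ) = n0 + Pi * (n / Pi : ℕ) := by
    have := Nat.mod_add_div n Pi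
    rw [hn] at this; exact_mod_cast this.symm
  have e2 : (μ : ℤ) = m0 + Pj * (μ / Pj : ℕ) := by
    have := Nat.mod_add_div μ Pj
    rw [hμ] at this; exact_mod_cast this.symm
  rw [← Int.natCast_modEq_iff]
  have k1 : (Kn : ℤ) ∣ Pi := by exact_mod_cast h1
  have k2 : (Kn : ℤ) ∣ d * Pj := by exact_mod_cast h2
  have k3 : (Kn : ℤ) ∣ 16384 := by exact_mod_cast h1.trans hP
  have k4 := (hq.of_dvd k3).dvd
  rw [Int.modEq_iff_dvd]
  push_cast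
  have e3 : ((m0 : ℤ) * d + S1 - 3 * q) = (μ * (t - n) + S1 - 3 * q)
      + Pi * (μ * (1 + (n / Pi : ℕ))) - d * Pj * (μ / Pj : ℕ) := by
    rw [hdz]
    linear_combination (-(μ : ℤ)) * e1 - ((t : ℤ) + Pi - n0) * e2 + 2 * (μ : ℤ) * e1
  rw [e3]
  exact (k4.add (k1.mul_right _)).sub (k2.mul_right _)

theorem cube_mod3 (x : ℕ) : x ^ 3 % 3 = x % 3 := by
  rw [Nat.pow_mod]
  have : x % 3 < 3 := Nat.mod_lt _ (by norm_num)
  interval_cases x % 3 <;> rfl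

theorem newRem_eq (Z E r l lk t v z rem : ℕ) : newRem Z E r l lk t v z rem =
    rem &&& sor (zr Z t * rot (sbar r l lk v z)
      (KK E (kk l lk * rs1 r) (kk l lk ^ 3 * rs3 r))) := by
  unfold newRem
  simp only [Nat.land_eq, Nat.mul_eq, Nat.pow_eq]

theorem app_sound (hM : S_Mask) (hC : S_Class) (hF : S_Fin) (E r l lk t v z : ℕ) (hr : RecOK r)
    (hl : l < 8) (hlk : lk < 4) (hv : v < 16) (hz : z < 8)
    (R1 R2 a1 a2 n0 Pi m0 Pj rem : ℕ)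
    (h : appOK r l lk t v z R1 R2 a1 a2 n0 Pi m0 Pj = true)
    (ih : Cov E R1 R2 a1 a2 n0 Pi m0 Pj (newRem (zz E 162 0) E r l lk t v z rem)) :
    Cov E R1 R2 a1 a2 n0 Pi m0 Pj rem := by
  intro W w1 w2 w3 w4 w5 w6 w7 w8
  have hk := kk_pos l lk
  set k := kk l lk with hkd
  have eS1 : k * rs1 r = k * rc1 r + k * rc2 r + k * rc3 r := by
    show k * (rc1 r + rc2 r + rc3 r) = _; ring
  have eS3 : k ^ 3 * rs3 r = (k * rc1 r) ^ 3 + (k * rc2 r) ^ 3 + (k * rc3 r) ^ 3 := by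
    show k ^ 3 * (rc1 r ^ 3 + rc2 r ^ 3 + rc3 r ^ 3) = _; ring
  have e3 : k * rs1 r % 3 = k ^ 3 * rs3 r % 3 := by
    rw [eS1, eS3]
    have := cube_mod3 (k * rc1 r)
    have := cube_mod3 (k * rc2 r)
    have := cube_mod3 (k * rc3 r)
    omega
  obtain ⟨q, q1, q2, q3⟩ := W.hq t (k * rs1 r) (k ^ 3 * rs3 r) e3
  unfold appOK at h
  rw [band_iff, band_iff, Nat.ble_eq, Nat.ble_eq, cube4_eq, cube4_eq, kk3_eq, ← hkd] at h
  obtain ⟨h1, h2, h3⟩ := h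
  have hβ := W.hβ
  have q0 : 0 ≤ q := by
    refine real_lo W.N W.β W.u t a2 R1 _ _ q (by omega) w1 w4 ?_ q1
    have h1' : 4 * (65536 * t + a2) ^ 3 + 2 ^ 48 * k ^ 3 * rs3 r ≤ 3298534883328 * R1 := h1
    rw [← mul_assoc]; exact h1'
  have qh : q ≤ ((k * rc1 r) ^ 3 : ℕ) * (W.β : ℤ) ^ 2 := by
    refine real_hi W.N W.β W.u t a1 R2 _ _ _ q hβ W.hu w2 w3 ?_ q1
    have h2' : 3298534883328 * R2 + (t + 1 + k * rs1 r) <<< 20 ≤
      4 * (65536 * t + a1) ^ 3 + 2 ^ 48 * k ^ 3 * (rs3 r + 3 * rc1 r ^ 3) := h2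
    rw [Nat.shiftLeft_eq] at h2'
    refine h2'.trans (le_of_eq ?_)
    ring
  obtain ⟨q, rfl⟩ := Int.eq_ofNat_of_zero_le q0
  have h4 := two_adic_go _ Pi Pj n0 m0 W.n W.μ t (k * rs1 r) _ q w5 w6 w7 h3 q2
  have h5 : 3 * q ≡ 3 * kk l lk * hhz z * 2 ^ v [MOD 2 ^ (l + v + remz z)] := by
    rw [← Nat.shiftLeft_eq]; exact h4
  cases hb : (sbar r l lk v z).testBit (q % 27)
  · have hrep := hC r l lk v z q hr hl hlk hv hz h5 hb
    refine hF W.N W.β (W.u + W.β * t) (k * rc1 r) (k * rc2 r) (k * rc3 r) q (by omega)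
      (Nat.mul_pos hk hr.1) (Nat.mul_le_mul_left _ hr.2.1) (Nat.mul_le_mul_left _ hr.2.2.1) ?_
      (by exact_mod_cast qh) hrep
    rw [← eS1, ← eS3, q1]; push_cast; ring
  · refine ih W w1 w2 w3 w4 w5 w6 w7 ?_
    have hK : KK E (k * rs1 r) (k ^ 3 * rs3 r) < 27 := by
      show (E * (k ^ 3 * rs3 r) + 80 * (k * rs1 r)) % 81 / 3 < 27
      omega
    have hS : sbar r l lk v z < 2 ^ 27 := Nat.mod_lt _ (by norm_num)
    have hj : (q % 27 + Tz E ((W.w + 2 * t % 81) % 81) + KK E (k * rs1 r) (k ^ 3 * rs3 r)) % 27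
        = W.ν := by
      have hν := W.hν
      have q4 : (q + Tz E ((W.w + 2 * t % 81) % 81) + KK E (k * rs1 r) (k ^ 3 * rs3 r)) ≡ W.ν
          [MOD 27] := by
        rw [← Int.natCast_modEq_iff]; exact_mod_cast q3
      unfold Nat.ModEq at q4
      omega
    have := hM E t _ _ W.w W.ν (q % 27) W.hw W.hν hK hS (Nat.mod_lt _ (by norm_num)) hj hb
    rw [newRem_eq, Nat.testBit_and, w8, this]; rfl

theorem brec_true {a x y : Bool} (h : @Bool.rec (fun _ => Bool) x y a = true) :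
    (a = false ∧ x = true) ∨ (a = true ∧ y = true) := by
  cases a
  · exact Or.inl ⟨rfl, h⟩
  · exact Or.inr ⟨rfl, h⟩

theorem split_sound (E : ℕ) (ih : St)
    (hih : ∀ R1 R2 a1 a2 n0 Pi m0 Pj rem s, ih R1 R2 a1 a2 n0 Pi m0 Pj rem s = true →
      Cov E R1 R2 a1 a2 n0 Pi m0 Pj rem) (op R1 R2 a1 a2 n0 Pi m0 Pj rem s : ℕ)
    (h : splitStep ih op R1 R2 a1 a2 n0 Pi m0 Pj rem s = true) :
    Cov E R1 R2 a1 a2 n0 Pi m0 Pj rem := by
  intro W w1 w2 w3 w4 w5 w6 w7 w8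
  unfold splitStep at h
  rcases brec_true h with ⟨-, h⟩ | ⟨-, h⟩
  · rcases brec_true h with ⟨-, h⟩ | ⟨-, h⟩
    · rcases brec_true h with ⟨-, h⟩ | ⟨-, h⟩
      · rcases brec_true h with ⟨-, h⟩ | ⟨-, h⟩
        · rw [band_iff] at h
          rcases mod_split _ _ _ w7 with h1 | h1
          · exact hih _ _ _ _ _ _ _ _ _ _ h.1 W w1 w2 w3 w4 w5 w6 h1 w8
          · exact hih _ _ _ _ _ _ _ _ _ _ h.2 W w1 w2 w3 w4 w5 w6 h1 w8
        · rw [band_iff] at h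
          rcases le_total (65536 * W.u) (mid a1 a2 * W.β) with h1 | h1
          · exact hih _ _ _ _ _ _ _ _ _ _ h.1 W w1 w2 w3 h1 w5 w6 w7 w8
          · exact hih _ _ _ _ _ _ _ _ _ _ h.2 W w1 w2 h1 w4 w5 w6 w7 w8
      · rw [band_iff] at h
        rcases W.hμ with h1 | h1
        · exact hih _ _ _ _ _ _ _ _ _ _ h.1 W w1 w2 w3 w4 w5 w6 h1 w8
        · exact hih _ _ _ _ _ _ _ _ _ _ h.2 W w1 w2 w3 w4 w5 w6 h1 w8
    · rw [band_iff, band_iff, dv_iff] at h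
      rcases mod_split _ _ _ w6 with h1 | h1
      · exact hih _ _ _ _ _ _ _ _ _ _ h.2.1 W w1 w2 w3 w4 h.1 h1 w7 w8
      · exact hih _ _ _ _ _ _ _ _ _ _ h.2.2 W w1 w2 w3 w4 h.1 h1 w7 w8
  · rw [band_iff] at h
    rcases le_total (256 * W.N) (mid R1 R2 * W.β ^ 3) with h1 | h1
    · exact hih _ _ _ _ _ _ _ _ _ _ h.1 W w1 h1 w3 w4 w5 w6 w7 w8
    · exact hih _ _ _ _ _ _ _ _ _ _ h.2 W h1 w2 w3 w4 w5 w6 w7 w8

theorem go_sound (hM : S_Mask) (hC : S_Class) (hF : S_Fin) (ct : CT)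
    (hct : ∀ i, RecOK (look ct i)) (E fuel : ℕ) :
    ∀ R1 R2 a1 a2 n0 Pi m0 Pj rem s,
      go ct (zz E 162 0) E fuel R1 R2 a1 a2 n0 Pi m0 Pj rem s = true →
      Cov E R1 R2 a1 a2 n0 Pi m0 Pj rem := by
  induction fuel with
  | zero => intro R1 R2 a1 a2 n0 Pi m0 Pj rem s h; exact absurd h (by simp [go])
  | succ f ih =>
    intro R1 R2 a1 a2 n0 Pi m0 Pj rem s h
    have h' : @Bool.rec (fun _ => Bool)
        (@Bool.rec (fun _ => Bool)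
          (splitStep (go ct (zz E 162 0) E f) (s % 8) R1 R2 a1 a2 n0 Pi m0 Pj rem s)
          (Nat.beq rem 0) (Nat.beq s 0))
        (appStep ct (zz E 162 0) E (go ct (zz E 162 0) E f) R1 R2 a1 a2 n0 Pi m0 Pj rem s)
        (Nat.beq (s % 8) 1) = true := h
    rcases brec_true h' with ⟨-, h⟩ | ⟨-, h⟩
    · rcases brec_true h with ⟨-, h⟩ | ⟨-, h⟩
      · exact split_sound E _ ih _ _ _ _ _ _ _ _ _ _ _ h
      · intro W _ _ _ _ _ _ _ w8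
        rw [Nat.beq_eq] at h
        rw [h] at w8
        simp at w8
    · unfold appStep at h
      simp only [frc_eq] at h
      rw [band_iff] at h
      exact app_sound hM hC hF E _ _ _ _ _ _ (hct _) (Nat.mod_lt _ (by norm_num))
        (Nat.mod_lt _ (by norm_num)) (Nat.mod_lt _ (by norm_num)) (Nat.mod_lt _ (by norm_num))
        _ _ _ _ _ _ _ _ _ h.1 (ih _ _ _ _ _ _ _ _ _ _ h.2)

def RC (E R1 R2 : ℕ) : Prop :=
  ∀ W : World E, R1 * W.β ^ 3 ≤ 256 * W.N → 256 * W.N ≤ R2 * W.β ^ 3 → Sum7 W.N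

theorem RC.trans {E R1 R2 R3 : ℕ} (h1 : RC E R1 R2) (h2 : RC E R2 R3) : RC E R1 R3 := by
  intro W w1 w2
  rcases le_total (256 * W.N) (R2 * W.β ^ 3) with h | h
  · exact h1 W w1 h
  · exact h2 W h w2

theorem root_sound (hM : S_Mask) (hC : S_Class) (hF : S_Fin)
    (hfull : ∀ w ν : ℕ, w < 81 → ν < 27 → full.testBit (54 * w + ν) = true) (ct : CT)
    (hct : ∀ i, RecOK (look ct i)) (E R1 R2 s : ℕ) (h : root ct E R1 R2 s = true) :
    RC E R1 R2 := by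
  intro W w1 w2
  have hu := W.hu
  have hμ := W.hμ
  exact go_sound hM hC hF ct hct E 1000 _ _ _ _ _ _ _ _ _ _ h W w1 w2 (by omega) (by omega)
    (by norm_num) (Nat.mod_one _) (by omega) (hfull _ _ W.hw W.hν)

end Pool.Agent.P.MP_65bf67_nt
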