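import Pool.Agent.P.MP_65bf67_nt.Basic

/-! Soundness of the rotation mask. -/

set_option autoImplicit false

noncomputable section

namespace Pool.Agent.P.MP_65bf67_nt

theorem zz_succ (E n y : ℕ) :
    zz E (n + 1) y = 2 ^ (Tz E (y % 81)) + 2 ^ 54 * zz E n (y + 1) := rfl

theorem zz_zero (E y : ℕ) : zz E 0 y = 0 := rfl

theorem Tz_lt (E y : ℕ) : Tz E y < 27 := Nat.mod_lt _ (by norm_num)

theorem two_pow_Tz_lt (E y : ℕ) : 2 ^ Tz E y < 2 ^ 54 :=
  Nat.pow_lt_pow_right (by norm_num) (lt_trans (Tz_lt E y) (by norm_num))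

theorem zz_shift (E k : ℕ) : ∀ n y : ℕ, zz E (k + n) y >>> (54 * k) = zz E n (y + k) := by
  induction k with
  | zero => intro n y; simp
  | succ k ih =>
    intro n y
    have e1 : k + 1 + n = (k + n) + 1 := by omega
    have e2 : 54 * (k + 1) = 54 + 54 * k := by omega
    have e3 : y + (k + 1) = (y + 1) + k := by omega
    rw [e1, e2, zz_succ, Nat.shiftRight_add, e3, ← ih n (y + 1)]
    congr 1
    rw [Nat.shiftRight_eq_div_pow, Nat.add_mul_div_left _ _ (by positivity),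
      Nat.div_eq_of_lt (two_pow_Tz_lt E _), Nat.zero_add]

theorem zz_mod (E k : ℕ) : ∀ n y : ℕ, zz E (k + n) y % 2 ^ (54 * k) = zz E k y := by
  induction k with
  | zero => intro n y; simp [Nat.mod_one, zz_zero]
  | succ k ih =>
    intro n y
    have e1 : k + 1 + n = (k + n) + 1 := by omega
    have e2 : 54 * (k + 1) = 54 + 54 * k := by omega
    rw [e1, e2, zz_succ, zz_succ, pow_add, Nat.mod_mul, Nat.add_mul_mod_self_left,
      Nat.mod_eq_of_lt (two_pow_Tz_lt E _), Nat.add_mul_div_left _ _ (by positivity),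
      Nat.div_eq_of_lt (two_pow_Tz_lt E _), Nat.zero_add, ih]

theorem zr_eq (E t : ℕ) : zr (zz E 162 0) t = zz E 81 (2 * t % 81) := by
  have hs : 2 * t % 81 < 81 := Nat.mod_lt _ (by norm_num)
  have e : zr (zz E 162 0) t = (zz E 162 0 >>> (54 * (2 * t % 81))) % 2 ^ (54 * 81) := rfl
  rw [e]
  generalize 2 * t % 81 = s at hs ⊢
  have e1 : 162 = s + (81 + (81 - s)) := by omega
  rw [e1, zz_shift, zz_mod, Nat.zero_add]

theorem zz_mul_bit (E S i : ℕ) (hS : S < 2 ^ 27) (hi : i < 54) (w : ℕ) : ∀ n y : ℕ, w < n →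
    (zz E n y * S).testBit (54 * w + i) = (2 ^ (Tz E ((y + w) % 81)) * S).testBit i := by
  have hb : ∀ y, 2 ^ (Tz E y) * S < 2 ^ 54 := by
    intro y
    have h1 : 2 ^ Tz E y ≤ 2 ^ 27 := Nat.pow_le_pow_right (by norm_num) (Tz_lt E y).le
    calc 2 ^ (Tz E y) * S ≤ 2 ^ 27 * S := Nat.mul_le_mul_right _ h1
      _ < 2 ^ 27 * 2 ^ 27 := Nat.mul_lt_mul_of_pos_left hS (by positivity)
      _ = 2 ^ 54 := by norm_num
  induction w with
  | zero =>
    intro n y hn
    obtain ⟨n, rfl⟩ : ∃ m, n = m + 1 := ⟨n - 1, by omega⟩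
    have e : zz E (n + 1) y * S = 2 ^ 54 * (zz E n (y + 1) * S) + 2 ^ (Tz E (y % 81)) * S := by
      rw [zz_succ]; ring
    rw [e, Nat.testBit_two_pow_mul_add _ (hb _), if_pos (by omega)]
    simp
  | succ w ih =>
    intro n y hn
    obtain ⟨n, rfl⟩ : ∃ m, n = m + 1 := ⟨n - 1, by omega⟩
    have e : zz E (n + 1) y * S = 2 ^ 54 * (zz E n (y + 1) * S) + 2 ^ (Tz E (y % 81)) * S := by
      rw [zz_succ]; ring
    have e2 : 54 * (w + 1) + i - 54 = 54 * w + i := by omega
    have e3 : y + (w + 1) = y + 1 + w := by omega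
    rw [e, Nat.testBit_two_pow_mul_add _ (hb _), if_neg (by omega), e2, ih n (y + 1) (by omega), e3]

theorem rot_eq (S K : ℕ) : rot S K = ((2 ^ 27 * S + S) >>> (27 - K)) % 2 ^ 27 := by
  have e : rot S K = ((S * 134217729) >>> (27 - K)) % 134217728 := rfl
  have e2 : S * 134217729 = 2 ^ 27 * S + S := by norm_num; ring
  rw [e, e2]; norm_num

theorem rot_lt (S K : ℕ) : rot S K < 2 ^ 27 := by
  rw [rot_eq]; exact Nat.mod_lt _ (by positivity)

theorem rot_bit (S K j : ℕ) (hK : K < 27) (hS : S < 2 ^ 27) (hj : j < 27)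
    (h : S.testBit j = true) : (rot S K).testBit ((j + K) % 27) = true := by
  have h0 : (j + K) % 27 < 27 := Nat.mod_lt _ (by norm_num)
  rw [rot_eq, Nat.testBit_mod_two_pow, Nat.testBit_shiftRight, Nat.testBit_two_pow_mul_add _ hS]
  simp only [h0, decide_true, Bool.true_and]
  split_ifs with h1
  · have e : 27 - K + (j + K) % 27 = j := by omega
    rw [e]; exact h
  · have e : 27 - K + (j + K) % 27 - 27 = j := by omega
    rw [e]; exact h

theorem mask_sound : S_Mask := by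
  intro E t S K w ν j hw hν hK hS hj he h
  have hr := rot_bit S K j hK hS hj h
  have h0 : (j + K) % 27 < 27 := Nat.mod_lt _ (by norm_num)
  have ec : 2 * t % 81 + w = w + 2 * t % 81 := by omega
  have hT := Tz_lt E ((w + 2 * t % 81) % 81)
  have key : ∀ i, i < 54 → i = (j + K) % 27 + Tz E ((w + 2 * t % 81) % 81) →
      (zr (zz E 162 0) t * rot S K).testBit (54 * w + i) = true := by
    intro i hi hi2
    rw [zr_eq, zz_mul_bit E _ i (rot_lt S K) hi w 81 _ hw, ec, Nat.testBit_two_pow_mul]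
    have e : i - Tz E ((w + 2 * t % 81) % 81) = (j + K) % 27 := by omega
    rw [e, hr]
    simp only [Bool.and_true, decide_eq_true_eq]
    omega
  have e : ∀ X : ℕ, sor X = X ||| (X >>> 27) := fun _ => rfl
  rw [e, Nat.testBit_or, Bool.or_eq_true, Nat.testBit_shiftRight]
  by_cases hc : (j + K) % 27 + Tz E ((w + 2 * t % 81) % 81) < 27
  · exact Or.inl (key ν (by omega) (by omega))
  · have e2 : 27 + (54 * w + ν) = 54 * w + (ν + 27) := by omega
    rw [e2]
    exact Or.inr (key (ν + 27) (by omega) (by omega))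

def fullN (n : ℕ) : ℕ :=
  @Nat.rec (fun _ => ℕ) 0 (fun _ ih => Nat.add 134217727 (Nat.mul (Nat.pow 2 54) ih)) n

theorem fullN_bit (ν : ℕ) (hν : ν < 27) (w : ℕ) : ∀ n : ℕ, w < n →
    (fullN n).testBit (54 * w + ν) = true := by
  have hb : 2 ^ 27 - 1 < 2 ^ 54 := by norm_num
  have e : ∀ n, fullN (n + 1) = 2 ^ 54 * fullN n + (2 ^ 27 - 1) := by
    intro n
    have e1 : fullN (n + 1) = 134217727 + 2 ^ 54 * fullN n := rfl
    rw [e1]; omega
  induction w with
  | zero =>
    intro n hn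
    obtain ⟨n, rfl⟩ : ∃ m, n = m + 1 := ⟨n - 1, by omega⟩
    rw [e, Nat.testBit_two_pow_mul_add _ hb, if_pos (by omega), Nat.testBit_two_pow_sub_one]
    simp only [decide_eq_true_eq]
    omega
  | succ w ih =>
    intro n hn
    obtain ⟨n, rfl⟩ : ∃ m, n = m + 1 := ⟨n - 1, by omega⟩
    have e2 : 54 * (w + 1) + ν - 54 = 54 * w + ν := by omega
    rw [e, Nat.testBit_two_pow_mul_add _ hb, if_neg (by omega), e2]
    exact ih n (by omega)

theorem full_bit (w ν : ℕ) (hw : w < 81) (hν : ν < 27) : full.testBit (54 * w + ν) = true :=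
  fullN_bit ν hν w 81 hw

end Pool.Agent.P.MP_65bf67_nt
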