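import Pool.Agent.P.MP_65bf67_nt.Defs

set_option autoImplicit false

namespace Pool.Agent.P.MP_65bf67_nt

namespace Small

/-- sums of `k` tetrahedral numbers -/
def SumK : ℕ → ℕ → Prop
  | 0, N => N = 0
  | k + 1, N => ∃ M y : ℕ, SumK k M ∧ N = M + tet y

theorem tet_succ (y : ℕ) : tet (y + 1) = tet y + (y + 1) * (y + 2) / 2 := by
  have h1 : ∀ n : ℕ, tet n = (n + 2).choose 3 := by
    intro n
    unfold tet
    have h := Nat.descFactorial_eq_factorial_mul_choose (n + 2) 3
    simp only [Nat.descFactorial_succ, Nat.descFactorial_zero, Nat.factorial] at h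
    have e1 : n + 2 - 2 = n := by omega
    have e2 : n + 2 - 1 = n + 1 := by omega
    have e3 : n + 2 - 0 = n + 2 := by omega
    rw [e1, e2, e3] at h
    have h' : n * (n + 1) * (n + 2) = 6 * (n + 2).choose 3 := by
      calc n * (n + 1) * (n + 2) = n * ((n + 1) * ((n + 2) * 1)) := by ring
        _ = _ := by rw [h]
    rw [h']
    omega
  rw [h1, h1]
  have h2 : (y + 1 + 2).choose 3 = (y + 2).choose 2 + (y + 2).choose 3 :=
    Nat.choose_succ_succ (y + 2) 2
  rw [h2, Nat.choose_two_right]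
  have e : (y + 2) * (y + 2 - 1) = (y + 1) * (y + 2) := by
    have : y + 2 - 1 = y + 1 := by omega
    rw [this]; ring
  rw [e]; omega

theorem tet_zero : tet 0 = 0 := by decide

theorem greedy (k lo hi : ℕ) (h : ∀ N, lo ≤ N → N ≤ hi → SumK k N) :
    ∀ y : ℕ, y * (y + 1) / 2 + lo ≤ hi + 1 → ∀ N, lo ≤ N → N ≤ hi + tet y → SumK (k + 1) N := by
  intro y
  induction y with
  | zero =>
    intro _ N h1 h2
    rw [tet_zero] at h2
    exact ⟨N, 0, h N h1 (by omega), by rw [tet_zero]; rfl⟩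
  | succ y ih =>
    intro hy N h1 h2
    by_cases h3 : N ≤ hi + tet y
    · refine ih ?_ N h1 h3
      have : y * (y + 1) / 2 ≤ (y + 1) * (y + 1 + 1) / 2 :=
        Nat.div_le_div_right (Nat.mul_le_mul (by omega) (by omega))
      omega
    · have ht := tet_succ y
      have e : y + 1 + 1 = y + 2 := rfl
      rw [e] at hy
      refine ⟨N - tet (y + 1), y + 1, h _ (by omega) (by omega), by omega⟩

/-- evaluate the argument before continuing -/
def force (x : ℕ) (f : ℕ → ℕ) : ℕ := Nat.rec (f 0) (fun n _ => f n.succ) x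

theorem force_eq (x : ℕ) (f : ℕ → ℕ) : force x f = f x := by
  cases x <;> rfl

/-- or of the shifts of `B` by `tet y`, `y < n`, on top of `acc` -/
def orShift (B : ℕ) (n : ℕ) : ℕ → ℕ :=
  Nat.rec (fun acc => acc)
    (fun y r acc => force (Nat.lor acc (Nat.shiftLeft B (tet y))) r) n

/-- one more summand, truncated -/
def step (X Y B : ℕ) : ℕ := force B (fun b => Nat.mod (orShift b Y 0) (Nat.pow 2 X))

theorem orShift_bit (B n : ℕ) : ∀ acc m : ℕ, (orShift B n acc).testBit m = true →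
    acc.testBit m = true ∨ ∃ M y, B.testBit M = true ∧ m = M + tet y := by
  induction n with
  | zero => intro acc m h; exact Or.inl h
  | succ n ih =>
    intro acc m h
    have e : orShift B (n + 1) acc = orShift B n (acc ||| (B <<< tet n)) := by
      show force _ _ = _
      rw [force_eq]; rfl
    rw [e] at h
    rcases ih _ _ h with h1 | h1
    · rw [Nat.testBit_or, Bool.or_eq_true] at h1
      rcases h1 with h1 | h1
      · exact Or.inl h1
      · rw [Nat.testBit_shiftLeft, Bool.and_eq_true, decide_eq_true_eq] at h1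
        exact Or.inr ⟨m - tet n, n, h1.2, by omega⟩
    · exact Or.inr h1

theorem step_bit (X Y B k : ℕ) (h : ∀ m, B.testBit m = true → SumK k m) :
    ∀ m, (step X Y B).testBit m = true → SumK (k + 1) m := by
  intro m hm
  have e : step X Y B = orShift B Y 0 % 2 ^ X := by
    unfold step; rw [force_eq]; rfl
  rw [e, Nat.testBit_mod_two_pow, Bool.and_eq_true] at hm
  rcases orShift_bit B Y 0 m hm.2 with h1 | ⟨M, y, h1, h2⟩
  · simp at h1
  · exact ⟨M, y, h M h1, h2⟩

theorem one_bit : ∀ m, (1 : ℕ).testBit m = true → SumK 0 m := by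
  intro m hm
  cases m with
  | zero => rfl
  | succ m => simp [Nat.testBit_succ] at hm

theorem of_full (B lo n k : ℕ) (h : ∀ m, B.testBit m = true → SumK k m)
    (hB : Nat.beq (Nat.shiftRight B lo) (Nat.pow 2 n - 1) = true) :
    ∀ N, lo ≤ N → N < lo + n → SumK k N := by
  intro N h1 h2
  have hB' : B >>> lo = 2 ^ n - 1 := Nat.eq_of_beq_eq_true hB
  apply h
  have : (B >>> lo).testBit (N - lo) = true := by
    rw [hB', Nat.testBit_two_pow_sub_one]; simp; omega
  rw [Nat.testBit_shiftRight] at this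
  have e : lo + (N - lo) = N := by omega
  rwa [e] at this

theorem chk4 : Nat.beq (Nat.shiftRight
    (step 1048576 186 (step 1048576 186 (step 1048576 186 (step 1048576 186 1)))) 343868)
    (Nat.pow 2 704708 - 1) = true := by decide +kernel

theorem chk5 : Nat.beq (Nat.shiftRight
    (step 1001 19 (step 1001 19 (step 1001 19 (step 1001 19 (step 1001 19 1))))) 0)
    (Nat.pow 2 1001 - 1) = true := by decide +kernel

theorem four : ∀ N, 343868 ≤ N → N ≤ 1048575 → SumK 4 N := by
  intro N h1 h2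
  exact of_full _ _ _ 4 (step_bit _ _ _ 3 (step_bit _ _ _ 2 (step_bit _ _ _ 1
    (step_bit _ _ _ 0 one_bit)))) chk4 N h1 (by omega)

theorem five : ∀ N, 0 ≤ N → N ≤ 1000 → SumK 5 N := by
  intro N h1 h2
  exact of_full _ _ _ 5 (step_bit _ _ _ 4 (step_bit _ _ _ 3 (step_bit _ _ _ 2 (step_bit _ _ _ 1
    (step_bit _ _ _ 0 one_bit))))) chk5 N h1 (by omega)

theorem big : ∀ N, 343868 ≤ N → N ≤ 10 ^ 18 → SumK 7 N := by
  have h5 : ∀ N, 343868 ≤ N → N ≤ 279789411 → SumK 5 N := fun N h1 h2 =>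
    greedy 4 _ _ four 1186 (by norm_num) N h1 (le_trans h2 (by norm_num [tet]))
  have h6 : ∀ N, 343868 ≤ N → N ≤ 2202426646091 → SumK 6 N := fun N h1 h2 =>
    greedy 5 _ _ h5 23640 (by norm_num) N h1 (le_trans h2 (by norm_num [tet]))
  exact fun N h1 h2 =>
    greedy 6 _ _ h6 2098773 (by norm_num) N h1 (le_trans h2 (by norm_num [tet]))

theorem low : ∀ N, 0 ≤ N → N ≤ 988150 → SumK 7 N := by
  have h6 : ∀ N, 0 ≤ N → N ≤ 16180 → SumK 6 N := fun N h1 h2 =>
    greedy 5 _ _ five 44 (by norm_num) N h1 (le_trans h2 (by norm_num [tet]))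
  exact fun N h1 h2 =>
    greedy 6 _ _ h6 179 (by norm_num) N h1 (le_trans h2 (by norm_num [tet]))

theorem sum7_of (N : ℕ) (h : SumK 7 N) : Sum7 N := by
  obtain ⟨M6, g, ⟨M5, f, ⟨M4, e, ⟨M3, d, ⟨M2, c, ⟨M1, b, ⟨M0, a, h0, h1⟩, h2⟩, h3⟩, h4⟩, h5⟩,
    h6⟩, h7⟩ := h
  have h0' : M0 = 0 := h0
  exact ⟨a, b, c, d, e, f, g, by omega⟩

end Small

theorem small : S_Small := by
  intro N hN
  apply Small.sum7_of
  by_cases h : N ≤ 988150
  · exact Small.low N (Nat.zero_le _) h
  · exact Small.big N (by omega) hN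

end Pool.Agent.P.MP_65bf67_nt
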