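import Pool.Agent.P.MP_65bf67_nt.Basic

set_option autoImplicit false

namespace Pool.Agent.P.MP_65bf67_nt

namespace WorldA

theorem hensel (N a : ℕ) : ∃ u : ℕ, (2 : ℤ) ^ a ∣ 4 * (u : ℤ) ^ 3 - u - 3 * N := by
  induction a with
  | zero => exact ⟨0, by simp⟩
  | succ a ih =>
    obtain ⟨u, k, hk⟩ := ih
    rcases Int.even_or_odd' k with ⟨j, rfl | rfl⟩
    · exact ⟨u, j, by rw [hk]; ring⟩
    · refine ⟨u + 2 ^ a, j + 6 * u ^ 2 + 6 * u * 2 ^ a + 2 * (2 ^ a) ^ 2, ?_⟩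
      push_cast
      linear_combination hk

theorem hensel' (N a : ℕ) : ∃ (u : ℕ) (H : ℤ), u < 2 ^ a ∧
    (2 : ℤ) ^ a * H = 3 * N - 4 * (u : ℤ) ^ 3 + u := by
  obtain ⟨u, k, hk⟩ := hensel N a
  have e : (u : ℤ) = 2 ^ a * ((u / 2 ^ a : ℕ) : ℤ) + ((u % 2 ^ a : ℕ) : ℤ) := by
    exact_mod_cast (Nat.div_add_mod u (2 ^ a)).symm
  refine ⟨u % 2 ^ a, ?_, Nat.mod_lt _ (by positivity), ?_⟩
  · exact -k - (u / 2 ^ a : ℕ) + 4 * (3 * ((u % 2 ^ a : ℕ) : ℤ) ^ 2 * (u / 2 ^ a : ℕ) +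
      3 * ((u % 2 ^ a : ℕ) : ℤ) * 2 ^ a * ((u / 2 ^ a : ℕ) : ℤ) ^ 2 +
      (2 ^ a) ^ 2 * ((u / 2 ^ a : ℕ) : ℤ) ^ 3)
  · generalize ((u % 2 ^ a : ℕ) : ℤ) = r at *
    generalize ((u / 2 ^ a : ℕ) : ℤ) = d at *
    rw [e] at hk
    linear_combination hk

theorem exists_inv (x M c : ℤ) (hM : 0 < M) (h : IsCoprime x M) :
    ∃ (n : ℕ) (k : ℤ), x * n = c + M * k := by
  obtain ⟨a, b, hab⟩ := h
  have h0 : 0 ≤ (c * a) % M := Int.emod_nonneg _ hM.ne'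
  refine ⟨((c * a) % M).toNat, -(c * b) - x * (c * a / M), ?_⟩
  rw [Int.toNat_of_nonneg h0, Int.emod_def]
  linear_combination c * hab

theorem mu_ex (u : ℕ) : ∃ (μ : ℕ) (k : ℤ), (μ % 16 = 1 ∨ μ % 32 = 21) ∧
    (μ : ℤ) = 1 - 12 * (u : ℤ) ^ 2 + 16384 * k := by
  have h0 : 0 ≤ (1 - 12 * (u : ℤ) ^ 2) % 16384 := Int.emod_nonneg _ (by norm_num)
  refine ⟨((1 - 12 * (u : ℤ) ^ 2) % 16384).toNat, -((1 - 12 * (u : ℤ) ^ 2) / 16384), ?_, ?_⟩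
  · rcases Int.even_or_odd' (u : ℤ) with ⟨j, hj | hj⟩
    · have : (u : ℤ) ^ 2 = 4 * j ^ 2 := by rw [hj]; ring
      left
      generalize j ^ 2 = s at this
      omega
    · obtain ⟨s, hs⟩ := Int.even_mul_succ_self j
      have : (u : ℤ) ^ 2 = 8 * s + 1 := by rw [hj]; linear_combination 4 * hs
      right
      omega
  · rw [Int.toNat_of_nonneg h0]
    omega

theorem three_dvd (N U β S1 S3 : ℤ) (h : 3 ∣ S1 - S3) :
    3 ∣ 3 * N - 4 * U ^ 3 + U - β ^ 3 * S3 + β * S1 := by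
  have c : ∀ x : ℤ, 3 ∣ x ^ 3 - x := fun x => by
    rcases (show ∃ j, x = 3 * j ∨ x = 3 * j + 1 ∨ x = 3 * j + 2 from ⟨x / 3, by omega⟩) with
      ⟨j, rfl | rfl | rfl⟩
    · exact ⟨9 * j ^ 3 - j, by ring⟩
    · exact ⟨9 * j ^ 3 + 9 * j ^ 2 + 2 * j, by ring⟩
    · exact ⟨9 * j ^ 3 + 18 * j ^ 2 + 11 * j + 2, by ring⟩
  obtain ⟨a, ha⟩ := c U
  obtain ⟨b, hb⟩ := c β
  obtain ⟨d, hd⟩ := h
  exact ⟨N - 4 * a - U - b * S3 + β * d, by linear_combination (-4) * ha - S3 * hb + β * hd⟩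

theorem adic3 (N β u b e t S1 S3 : ℕ) (q : ℤ) (k1 : ℤ) (h1 : (β : ℤ) * b = 1 + 81 * k1)
    (h2 : β ^ 2 % 81 = 1 + 3 * e) (hS : S1 % 3 = S3 % 3)
    (hq : 3 * (β : ℤ) * q = 3 * N - 4 * ((u : ℤ) + β * t) ^ 3 + (u + β * t) -
      (β : ℤ) ^ 3 * S3 + β * S1) :
    q + (Tz (1 + 3 * e) ((2 * u * b % 81 + 2 * t % 81) % 81) : ℕ) + (KK (1 + 3 * e) S1 S3 : ℕ) ≡
      ((N * b % 27 : ℕ) : ℤ) [ZMOD 27] := by
  set y := (2 * u * b % 81 + 2 * t % 81) % 81 with hy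
  have h81 : (81 : ZMod 81) = 0 := by decide
  have z1 : (b : ZMod 81) * β = 1 := by
    have := congrArg (Int.cast : ℤ → ZMod 81) h1
    push_cast at this
    linear_combination this + (k1 : ZMod 81) * h81
  have z2 : (β : ZMod 81) ^ 2 = ((1 + 3 * e : ℕ) : ZMod 81) := by
    rw [← h2, ZMod.natCast_mod]
    push_cast
    rfl
  have z3 : (y : ZMod 81) = 2 * u * b + 2 * t := by
    rw [hy, ZMod.natCast_mod, Nat.cast_add, ZMod.natCast_mod, ZMod.natCast_mod]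
    push_cast
    rfl
  have z4 : 2 * ((u : ZMod 81) + β * t) = β * y := by
    rw [z3]
    linear_combination (-2 * (u : ZMod 81)) * z1
  have z5 := congrArg (Int.cast : ℤ → ZMod 81) hq
  push_cast at z5
  generalize (u : ZMod 81) + β * t = U at z4 z5
  have z6 : 6 * ((b : ZMod 81) * β) * q - 6 * N * b + (b * β) * β ^ 2 * y ^ 3 - (b * β) * y +
      2 * (b * β) * β ^ 2 * S3 - 2 * (b * β) * S1 = 0 := by
    linear_combination 2 * (b : ZMod 81) * z5 -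
      (b : ZMod 81) * ((β * y) ^ 2 + 2 * β * y * U + 4 * U ^ 2 - 1) * z4
  rw [z1, z2] at z6
  have z7 : ((6 * q - 6 * ((N * b : ℕ) : ℤ) + (((1 + 3 * e) * y ^ 3 + 80 * y : ℕ) : ℤ) +
      2 * (((1 + 3 * e) * S3 + 80 * S1 : ℕ) : ℤ) : ℤ) : ZMod 81) = 0 := by
    push_cast at z6 ⊢
    linear_combination z6 + ((y : ZMod 81) + 2 * S1) * h81
  have d := (ZMod.intCast_zmod_eq_zero_iff_dvd _ 81).1 z7
  have p2 : ((1 + 3 * e) * S3 + 80 * S1) % 3 = 0 := by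
    rw [add_mul, one_mul, mul_assoc]
    omega
  have eK : KK (1 + 3 * e) S1 S3 = ((1 + 3 * e) * S3 + 80 * S1) % 81 / 3 := rfl
  rw [eK, Tz]
  generalize (1 + 3 * e) * y ^ 3 + 80 * y = P1 at *
  generalize (1 + 3 * e) * S3 + 80 * S1 = P2 at *
  generalize N * b = Nb at *
  unfold Int.ModEq
  omega

theorem six_tet (n : ℕ) : 6 * tet n = n * (n + 1) * (n + 2) := by
  refine Nat.mul_div_cancel' ?_
  induction n with
  | zero => simp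
  | succ n ih =>
    obtain ⟨k, hk⟩ := ih
    obtain ⟨s, hs⟩ := Nat.even_mul_succ_self (n + 1)
    exact ⟨k + s, by nlinarith⟩

theorem tet_int (z : ℤ) (hz : 0 ≤ z) : ∃ n : ℕ, 6 * (tet n : ℤ) = z ^ 3 - z := by
  obtain ⟨m, rfl⟩ := Int.eq_ofNat_of_zero_le hz
  cases m with
  | zero => exact ⟨0, by simp [tet]⟩
  | succ m =>
    refine ⟨m, ?_⟩
    have := congrArg (Nat.cast : ℕ → ℤ) (six_tet m)
    push_cast at this ⊢
    linear_combination this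

theorem bound (C C1 β x q : ℤ) (h1 : 0 < C1) (h2 : C1 ≤ C) (hβ : 0 ≤ β) (h3 : C * x ^ 2 ≤ q)
    (h4 : q ≤ C1 ^ 3 * β ^ 2) : 0 ≤ C * β + x ∧ 0 ≤ C * β - x := by
  have hC : 0 < C := h1.trans_le h2
  have h5 : C1 ^ 3 * β ^ 2 ≤ C ^ 3 * β ^ 2 := by gcongr
  have h6 : x ^ 2 ≤ (C * β) ^ 2 := le_of_mul_le_mul_left (by nlinarith) hC
  have := abs_le_of_sq_le_sq' h6 (by positivity)
  constructor <;> linarith [this.1, this.2]

end WorldA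

open WorldA

theorem fin7 : S_Fin := by
  rintro N β u C1 C2 C3 q hβ h1 h2 h3 he hq ⟨x, y, z, hr⟩
  have hq' : (q : ℤ) ≤ (C1 : ℤ) ^ 3 * (β : ℤ) ^ 2 := by exact_mod_cast hq
  have c1 : (0 : ℤ) < C1 := by exact_mod_cast h1
  have c2 : (C1 : ℤ) ≤ C2 := by exact_mod_cast h2
  have c3 : (C1 : ℤ) ≤ C3 := by exact_mod_cast h3
  have p1 : 0 ≤ (C1 : ℤ) * x ^ 2 := by positivity
  have p2 : 0 ≤ (C2 : ℤ) * y ^ 2 := by positivity
  have p3 : 0 ≤ (C3 : ℤ) * z ^ 2 := by positivity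
  have bx := bound C1 C1 β x q c1 le_rfl (by positivity) (by linarith) hq'
  have by' := bound C2 C1 β y q c1 c2 (by positivity) (by linarith) hq'
  have bz := bound C3 C1 β z q c1 c3 (by positivity) (by linarith) hq'
  obtain ⟨a, ha⟩ := tet_int (2 * u) (by positivity)
  obtain ⟨b, hb⟩ := tet_int _ bx.1
  obtain ⟨c, hc⟩ := tet_int _ bx.2
  obtain ⟨d, hd⟩ := tet_int _ by'.1
  obtain ⟨e, he'⟩ := tet_int _ by'.2
  obtain ⟨f, hf⟩ := tet_int _ bz.1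
  obtain ⟨g, hg⟩ := tet_int _ bz.2
  refine ⟨a, b, c, d, e, f, g, ?_⟩
  have : 6 * (N : ℤ) = 6 * (tet a + tet b + tet c + tet d + tet e + tet f + tet g) := by
    push_cast at he
    linear_combination -ha - hb - hc - hd - he' - hf - hg - 2 * he + 6 * (β : ℤ) * hr
  omega

theorem world : S_World := by
  intro N hN
  have hN0 : N ≠ 0 := by
    rintro rfl
    norm_num at hN
  have hl : 57 ≤ Nat.log 2 N := Nat.le_log_of_pow_le (by norm_num) hN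
  obtain ⟨a, ha1, ha2, ha3⟩ : ∃ a, 14 ≤ a ∧ 15 + 3 * a ≤ Nat.log 2 N ∧
      Nat.log 2 N + 1 ≤ 18 + 3 * a := ⟨(Nat.log 2 N - 15) / 3, by omega, by omega, by omega⟩
  have l1 : 2 ^ (15 + 3 * a) ≤ N :=
    (Nat.pow_le_pow_right (by norm_num) ha2).trans (Nat.pow_log_le_self 2 hN0)
  have l2 : N ≤ 2 ^ (18 + 3 * a) :=
    (Nat.lt_pow_succ_log_self (by norm_num) N).le.trans (Nat.pow_le_pow_right (by norm_num) ha3)
  obtain ⟨u, H, hu, hH⟩ := hensel' N a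
  obtain ⟨μ, k, hμ, hk⟩ := mu_ex u
  have cμ : IsCoprime (μ : ℤ) (2 ^ 14) :=
    IsCoprime.pow_right (⟨1, -((μ : ℤ) / 2), by omega⟩ : IsCoprime (μ : ℤ) 2)
  obtain ⟨n, k2, hn⟩ := exists_inv μ (2 ^ 14) (-H) (by norm_num) cμ
  have cβ : IsCoprime ((2 : ℤ) ^ a) 81 := IsCoprime.pow_left (⟨41, -1, by norm_num⟩ : IsCoprime (2 : ℤ) 81)
  obtain ⟨b, k1, hb⟩ := exists_inv (2 ^ a) 81 1 (by norm_num) cβ
  have c3 : IsCoprime (3 : ℤ) (2 ^ a) := IsCoprime.pow_right (⟨1, -1, by norm_num⟩ : IsCoprime (3 : ℤ) 2)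
  have s3 : (2 ^ a) ^ 2 % 3 = 1 := by
    rw [← pow_mul, mul_comm, pow_mul, Nat.pow_mod]
    simp
  obtain ⟨a', rfl⟩ := Nat.exists_eq_add_of_le ha1
  have hβ : ((2 ^ (14 + a') : ℕ) : ℤ) = 2 ^ (14 + a') := by push_cast; rfl
  refine ⟨(2 ^ (14 + a')) ^ 2 % 81 / 3, by omega,
    ⟨N, 2 ^ (14 + a'), u, n, μ, 2 * u * b % 81, N * b % 27, ?_, hu, hμ, by omega, by omega,
      fun t S1 S3 hS => ?_⟩, rfl, ?_, ?_⟩
  · exact Nat.pow_le_pow_right (n := 2) (by norm_num) (Nat.le_add_right 14 a')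
  · have e : 3 * (N : ℤ) - 4 * ((u : ℤ) + 2 ^ (14 + a') * t) ^ 3 + (u + 2 ^ (14 + a') * t) -
        ((2 : ℤ) ^ (14 + a')) ^ 3 * S3 + 2 ^ (14 + a') * S1 = 2 ^ (14 + a') *
          (H + (1 - 12 * u ^ 2) * t + S1 - 2 ^ (14 + a') *
            (12 * u * t ^ 2 + 4 * 2 ^ (14 + a') * t ^ 3 + 2 ^ (14 + a') * S3)) := by
      linear_combination -hH
    have d := three_dvd N ((u : ℤ) + 2 ^ (14 + a') * t) (2 ^ (14 + a')) S1 S3 (by omega)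
    rw [e] at d
    obtain ⟨q, hq⟩ := c3.dvd_of_dvd_mul_left d
    have e2 : 3 * ((2 ^ (14 + a') : ℕ) : ℤ) * q = 3 * N - 4 * ((u : ℤ) + (2 ^ (14 + a') : ℕ) * t) ^ 3 +
        (u + (2 ^ (14 + a') : ℕ) * t) - ((2 ^ (14 + a') : ℕ) : ℤ) ^ 3 * S3 +
        (2 ^ (14 + a') : ℕ) * S1 := by
      rw [hβ, e, hq]
      ring
    refine ⟨q, e2, ?_, adic3 N _ u b _ t S1 S3 q k1 (by rw [hβ]; exact hb) (by omega) hS e2⟩
    refine (Int.modEq_iff_dvd.2 ⟨k * t - k2 + 2 ^ a' *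
      (12 * u * t ^ 2 + 4 * 2 ^ (14 + a') * t ^ 3 + 2 ^ (14 + a') * S3), ?_⟩)
    rw [← hq]
    linear_combination (t : ℤ) * hk - hn
  · show 2 ^ 23 * (2 ^ (14 + a')) ^ 3 ≤ 256 * N
    calc 2 ^ 23 * (2 ^ (14 + a')) ^ 3 = 256 * 2 ^ (15 + 3 * (14 + a')) := by ring
      _ ≤ _ := Nat.mul_le_mul_left _ l1
  · show 256 * N ≤ 2 ^ 26 * (2 ^ (14 + a')) ^ 3
    calc 256 * N ≤ 256 * 2 ^ (18 + 3 * (14 + a')) := Nat.mul_le_mul_left _ l2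
      _ = _ := by ring

end Pool.Agent.P.MP_65bf67_nt
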