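import Pool.Agent.P.MP_65bf67_nt.Recs
import Pool.Agent.P.MP_65bf67_nt.Go
import Pool.Agent.P.MP_65bf67_nt.Mask
import Pool.Agent.P.MP_65bf67_nt.Class
import Pool.Agent.P.MP_65bf67_nt.World
import Pool.Agent.P.MP_65bf67_nt.Small
import Pool.Agent.P.MP_65bf67_nt.Tree0
import Pool.Agent.P.MP_65bf67_nt.Tree1
import Pool.Agent.P.MP_65bf67_nt.Tree2
import Pool.Agent.P.MP_65bf67_nt.Tree3
import Pool.Agent.P.MP_65bf67_nt.Tree4
import Pool.Agent.P.MP_65bf67_nt.Tree5
import Pool.Agent.P.MP_65bf67_nt.Tree6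
import Pool.Agent.P.MP_65bf67_nt.Tree7
import Pool.Agent.P.MP_65bf67_nt.Tree8

set_option autoImplicit false
set_option maxRecDepth 100000

noncomputable section

namespace Pool.Agent.P.MP_65bf67_nt

theorem rs {E R1 R2 s : ℕ} (h : root ctAll E R1 R2 s = true) : RC E R1 R2 :=
  root_sound mask_sound class_sound fin7 full_bit ctAll look_all E R1 R2 s h

theorem cov0 : RC 1 8388608 67108864 :=
  ((((((rs t0_0).trans (rs t0_1)).trans (rs t0_2)).trans (rs t0_3)).trans (rs t0_4)).trans (rs t0_5))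

theorem cov1 : RC 4 8388608 67108864 :=
  ((((((rs t1_0).trans (rs t1_1)).trans (rs t1_2)).trans (rs t1_3)).trans (rs t1_4)).trans (rs t1_5))

theorem cov2 : RC 7 8388608 67108864 :=
  ((((((rs t2_0).trans (rs t2_1)).trans (rs t2_2)).trans (rs t2_3)).trans (rs t2_4)).trans (rs t2_5))

theorem cov3 : RC 10 8388608 67108864 :=
  ((((((rs t3_0).trans (rs t3_1)).trans (rs t3_2)).trans (rs t3_3)).trans (rs t3_4)).trans (rs t3_5))

theorem cov4 : RC 13 8388608 67108864 :=
  ((((((rs t4_0).trans (rs t4_1)).trans (rs t4_2)).trans (rs t4_3)).trans (rs t4_4)).trans (rs t4_5))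

theorem cov5 : RC 16 8388608 67108864 :=
  ((((((rs t5_0).trans (rs t5_1)).trans (rs t5_2)).trans (rs t5_3)).trans (rs t5_4)).trans (rs t5_5))

theorem cov6 : RC 19 8388608 67108864 :=
  ((((((rs t6_0).trans (rs t6_1)).trans (rs t6_2)).trans (rs t6_3)).trans (rs t6_4)).trans (rs t6_5))

theorem cov7 : RC 22 8388608 67108864 :=
  ((((((rs t7_0).trans (rs t7_1)).trans (rs t7_2)).trans (rs t7_3)).trans (rs t7_4)).trans (rs t7_5))

theorem cov8 : RC 25 8388608 67108864 :=
  ((((((rs t8_0).trans (rs t8_1)).trans (rs t8_2)).trans (rs t8_3)).trans (rs t8_4)).trans (rs t8_5))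

theorem cov9 : RC 28 8388608 67108864 :=
  ((((((rs t9_0).trans (rs t9_1)).trans (rs t9_2)).trans (rs t9_3)).trans (rs t9_4)).trans (rs t9_5))

theorem cov10 : RC 31 8388608 67108864 :=
  ((((((rs t10_0).trans (rs t10_1)).trans (rs t10_2)).trans (rs t10_3)).trans (rs t10_4)).trans (rs t10_5))

theorem cov11 : RC 34 8388608 67108864 :=
  ((((((rs t11_0).trans (rs t11_1)).trans (rs t11_2)).trans (rs t11_3)).trans (rs t11_4)).trans (rs t11_5))

theorem cov12 : RC 37 8388608 67108864 :=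
  ((((((rs t12_0).trans (rs t12_1)).trans (rs t12_2)).trans (rs t12_3)).trans (rs t12_4)).trans (rs t12_5))

theorem cov13 : RC 40 8388608 67108864 :=
  ((((((rs t13_0).trans (rs t13_1)).trans (rs t13_2)).trans (rs t13_3)).trans (rs t13_4)).trans (rs t13_5))

theorem cov14 : RC 43 8388608 67108864 :=
  ((((((rs t14_0).trans (rs t14_1)).trans (rs t14_2)).trans (rs t14_3)).trans (rs t14_4)).trans (rs t14_5))

theorem cov15 : RC 46 8388608 67108864 :=
  ((((((rs t15_0).trans (rs t15_1)).trans (rs t15_2)).trans (rs t15_3)).trans (rs t15_4)).trans (rs t15_5))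

theorem cov16 : RC 49 8388608 67108864 :=
  ((((((rs t16_0).trans (rs t16_1)).trans (rs t16_2)).trans (rs t16_3)).trans (rs t16_4)).trans (rs t16_5))

theorem cov17 : RC 52 8388608 67108864 :=
  ((((((rs t17_0).trans (rs t17_1)).trans (rs t17_2)).trans (rs t17_3)).trans (rs t17_4)).trans (rs t17_5))

theorem cov18 : RC 55 8388608 67108864 :=
  ((((((rs t18_0).trans (rs t18_1)).trans (rs t18_2)).trans (rs t18_3)).trans (rs t18_4)).trans (rs t18_5))

theorem cov19 : RC 58 8388608 67108864 :=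
  ((((((rs t19_0).trans (rs t19_1)).trans (rs t19_2)).trans (rs t19_3)).trans (rs t19_4)).trans (rs t19_5))

theorem cov20 : RC 61 8388608 67108864 :=
  ((((((rs t20_0).trans (rs t20_1)).trans (rs t20_2)).trans (rs t20_3)).trans (rs t20_4)).trans (rs t20_5))

theorem cov21 : RC 64 8388608 67108864 :=
  ((((((rs t21_0).trans (rs t21_1)).trans (rs t21_2)).trans (rs t21_3)).trans (rs t21_4)).trans (rs t21_5))

theorem cov22 : RC 67 8388608 67108864 :=
  ((((((rs t22_0).trans (rs t22_1)).trans (rs t22_2)).trans (rs t22_3)).trans (rs t22_4)).trans (rs t22_5))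

theorem cov23 : RC 70 8388608 67108864 :=
  ((((((rs t23_0).trans (rs t23_1)).trans (rs t23_2)).trans (rs t23_3)).trans (rs t23_4)).trans (rs t23_5))

theorem cov24 : RC 73 8388608 67108864 :=
  ((((((rs t24_0).trans (rs t24_1)).trans (rs t24_2)).trans (rs t24_3)).trans (rs t24_4)).trans (rs t24_5))

theorem cov25 : RC 76 8388608 67108864 :=
  ((((((rs t25_0).trans (rs t25_1)).trans (rs t25_2)).trans (rs t25_3)).trans (rs t25_4)).trans (rs t25_5))

theorem cov26 : RC 79 8388608 67108864 :=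
  ((((((rs t26_0).trans (rs t26_1)).trans (rs t26_2)).trans (rs t26_3)).trans (rs t26_4)).trans (rs t26_5))

theorem rc_all (e : ℕ) (he : e < 27) : RC (1 + 3 * e) (2 ^ 23) (2 ^ 26) := by
  interval_cases e
  exacts [cov0, cov1, cov2, cov3, cov4, cov5, cov6, cov7, cov8, cov9, cov10, cov11, cov12, cov13, cov14, cov15, cov16, cov17, cov18, cov19, cov20, cov21, cov22, cov23, cov24, cov25, cov26]

theorem sum7_all (N : ℕ) : Sum7 N := by
  rcases le_total N (10 ^ 18) with h | h
  · exact small N h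
  · obtain ⟨e, he, W, hN, h1, h2⟩ := world N (le_trans (by norm_num) h)
    rw [← hN] at h1 h2 ⊢
    exact rc_all e he W h1 h2

end Pool.Agent.P.MP_65bf67_nt
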