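import Pool.Agent.P.MP_65bf67_nt.Basic

/-! Soundness of the group and table checkers. -/

set_option autoImplicit false

noncomputable section

namespace Pool.Agent.P.MP_65bf67_nt

theorem admB_two (n : ℕ) : admB 2 n = true ↔ n % 4 ≠ 0 ∧ n % 8 ≠ 7 := by
  have e : admB 2 n = band (Nat.blt 0 (n % 4)) (not (Nat.beq (n % 8) 7)) := rfl
  rw [e, band_iff, Nat.blt_eq, Bool.not_eq_true', ← Bool.not_eq_true, Nat.beq_eq]
  omega

theorem admB_three (n : ℕ) : admB 3 n = true ↔ n % 9 ≠ 0 ∧ n % 9 ≠ 6 := by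
  have e : admB 3 n = band (Nat.blt 0 (n % 9)) (not (Nat.beq (n % 9) 6)) := rfl
  rw [e, band_iff, Nat.blt_eq, Bool.not_eq_true', ← Bool.not_eq_true, Nat.beq_eq]
  omega

theorem admB_congr (D : ℕ) {n n' : ℕ} (h : n % 72 = n' % 72) : admB D n = admB D n' := by
  have h4 : Nat.mod n 4 = Nat.mod n' 4 := by
    show n % 4 = n' % 4
    omega
  have h8 : Nat.mod n 8 = Nat.mod n' 8 := by
    show n % 8 = n' % 8
    omega
  have h9 : Nat.mod n 9 = Nat.mod n' 9 := by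
    show n % 9 = n' % 9
    omega
  unfold admB
  rw [h4, h8, h9]

theorem fam_base2 (h : S_Three) : Fam 2 1 [⟨1,1,1,0,0,0⟩] := by
  intro n hn
  rw [one_mul, admB_two] at hn
  obtain ⟨x, y, z, e⟩ := h n hn.1 hn.2
  refine ⟨_, List.mem_singleton_self _, x, y, z, ?_⟩
  rw [e]
  simp [ev, QF]

theorem fam_base3 (h : S_Hex) : Fam 3 1 [⟨1,1,1,0,0,1⟩] := by
  intro n hn
  rw [one_mul, admB_three] at hn
  obtain ⟨x, y, z, e⟩ := h n hn.1 hn.2
  refine ⟨_, List.mem_singleton_self _, x, y, z, ?_⟩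
  rw [e]
  simp only [ev, QF]
  ring

theorem exists_zip {α β : Type} (l : List α) (l' : List β) (h : l.length = l'.length) (a : α)
    (ha : a ∈ l) : ∃ b, (a, b) ∈ l.zip l' := by
  obtain ⟨i, hi, rfl⟩ := List.getElem_of_mem ha
  refine ⟨l'[i]'(h ▸ hi), ?_⟩
  have hz : i < (l.zip l').length := by
    rw [List.length_zip]
    omega
  have := List.getElem_mem hz
  rwa [List.getElem_zip] at this

theorem admM_spec (D P i j : ℕ) (h : (admM D P).testBit i = true) (hj : j < 3) :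
    admB D (P * (2 ^ (i / 48) * 3 ^ (i / 24 % 2)) * (i % 24 + 24 * j)) = true := by
  have h1 := ((mk_bit 96 _ i).1 h).2
  exact (allLt_iff 3 _).1 h1 j hj

theorem admM_bit (D P α β m : ℕ) (hβ : β < 2)
    (h : (admM D P).testBit (48 * α + 24 * β + m % 24) = true) :
    admB D (P * (2 ^ α * 3 ^ β * m)) = true := by
  have h4 := admM_spec D P _ (m % 72 / 24) h (by omega)
  have e1 : (48 * α + 24 * β + m % 24) / 48 = α := by omega
  have e2 : (48 * α + 24 * β + m % 24) / 24 % 2 = β := by omega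
  have e3 : (48 * α + 24 * β + m % 24) % 24 + 24 * (m % 72 / 24) = m % 72 := by omega
  rw [e1, e2, e3] at h4
  rw [← h4]
  apply admB_congr
  rw [Nat.mul_mod_mod, mul_assoc P]

theorem land_bit (M A i : ℕ) (h : Nat.land M A = M) (hb : M.testBit i = true) :
    A.testBit i = true := by
  have h' : M &&& A = M := h
  rw [← h', Nat.testBit_and, Bool.and_eq_true] at hb
  exact hb.2

theorem grp_sound (h : S_Lat) (c1 c2 c3 lam D P : ℕ) (Ks : List K6) (g : Grp)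
    (hF : Fam D P Ks) (hg : grpOK c1 c2 c3 lam D P Ks g = true) (α β m : ℕ) (hα : α < 2)
    (hβ : β < 2) (hm2 : m % 2 = 1) (hm3 : m % 3 ≠ 0)
    (hb : g.M.testBit (48 * α + 24 * β + m % 24) = true) :
    ∃ X Y Z : ℤ, (lam : ℤ) * (c1 * X ^ 2 + c2 * Y ^ 2 + c3 * Z ^ 2) =
      ((4 ^ g.j2 * 9 ^ g.j3 : ℕ) : ℤ) * ((2 ^ α * 3 ^ β * m : ℕ) : ℤ) := by
  unfold grpOK at hg
  rw [band_iff, band_iff, lall_iff, Nat.beq_eq, Nat.beq_eq] at hg
  obtain ⟨h1, h2, h3⟩ := hg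
  have hbit := land_bit _ _ _ h1 hb
  have h5 := admM_bit D P α β m hβ hbit
  obtain ⟨K, hK, x, y, z, hxyz⟩ := hF _ h5
  obtain ⟨L, hL⟩ := exists_zip Ks g.lats h2 K hK
  have h6 := h3 (K, L) hL
  simp only [Nat.mul_eq, Nat.pow_eq] at h6
  exact h c1 c2 c3 lam (4 ^ g.j2 * 9 ^ g.j3) g.M K L h6 α β m x y z hα hβ hm2 hm3 hb hxyz

theorem form_of_lat (h : S_Lat) : S_Form := by
  intro fams f h1 h2 hf
  have hF : Fam (fams.getD f.fi fm0).D (fams.getD f.fi fm0).lev (fams.getD f.fi fm0).Ks := by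
    by_cases hi : f.fi < fams.length
    · rw [List.getD_eq_getElem _ _ hi]
      exact h1 _ (List.getElem_mem hi)
    · rw [List.getD_eq_default _ _ (by omega)]
      exact h2
  unfold fcOK fcAux at hf
  generalize fams.getD f.fi fm0 = F at hF hf
  rw [band_iff, band_iff, band_iff, band_iff, lall_iff, Nat.blt_eq, Nat.ble_eq, Nat.ble_eq] at hf
  obtain ⟨h3, h4, h5, h6, h7⟩ := hf
  refine ⟨h3, h4, h5, fun a b m ha hb hm2 hm3 hbit => ?_⟩
  unfold tabOK at h7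
  rw [allLt_iff] at h7
  have h8 := h7 a ha
  rw [allLt_iff] at h8
  have h9 := h8 b hb
  rw [lall_iff] at h9
  have hmem : m % 24 ∈ [1, 5, 7, 11, 13, 17, 19, 23] := by
    simp only [List.mem_cons, List.not_mem_nil, or_false]
    omega
  have h10 := h9 _ hmem
  rw [bor_iff, tb_eq, hbit] at h10
  have h11 := h10.resolve_left (by simp)
  unfold goodB at h11
  rw [lany_iff] at h11
  obtain ⟨g, hg, h12⟩ := h11
  rw [band_iff, band_iff, Nat.ble_eq, Nat.ble_eq, tb_eq] at h12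
  obtain ⟨hA, hB, hM⟩ := h12
  have hA' : 2 * g.j2 ≤ a + f.l2 := hA
  have hB' : 2 * g.j3 ≤ b + f.l3 := hB
  have hM' : g.M.testBit (48 * ((a + f.l2) % 2) + 24 * ((b + f.l3) % 2) + m % 24) = true := hM
  obtain ⟨X, Y, Z, e⟩ := grp_sound h _ _ _ _ _ _ _ g hF (h6 g hg) _ _ m (Nat.mod_lt _ two_pos)
    (Nat.mod_lt _ two_pos) hm2 hm3 hM'
  obtain ⟨i, hi⟩ : ∃ i, a + f.l2 = 2 * g.j2 + (a + f.l2) % 2 + 2 * i :=
    ⟨(a + f.l2) / 2 - g.j2, by omega⟩
  obtain ⟨k, hk⟩ : ∃ k, b + f.l3 = 2 * g.j3 + (b + f.l3) % 2 + 2 * k :=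
    ⟨(b + f.l3) / 2 - g.j3, by omega⟩
  generalize (a + f.l2) % 2 = α at e hi
  generalize (b + f.l3) % 2 = β at e hk
  have e2 : (2 : ℤ) ^ a * 2 ^ f.l2 = 4 ^ g.j2 * 2 ^ α * (2 ^ i) ^ 2 := by
    rw [← pow_add, hi, pow_add, pow_add, pow_mul, mul_comm 2 i, pow_mul]
    norm_num
  have e3 : (3 : ℤ) ^ b * 3 ^ f.l3 = 9 ^ g.j3 * 3 ^ β * (3 ^ k) ^ 2 := by
    rw [← pow_add, hk, pow_add, pow_add, pow_mul, mul_comm 2 k, pow_mul]
    norm_num
  simp only [Nat.mul_eq, Nat.pow_eq] at e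
  push_cast at e
  refine ⟨2 ^ i * 3 ^ k * X, 2 ^ i * 3 ^ k * Y, 2 ^ i * 3 ^ k * Z, ?_⟩
  have hne : (2 : ℤ) ^ f.l2 * 3 ^ f.l3 ≠ 0 := by positivity
  apply mul_left_cancel₀ hne
  push_cast
  calc (2 : ℤ) ^ f.l2 * 3 ^ f.l3 * (2 ^ a * 3 ^ b * m)
      = (2 ^ a * 2 ^ f.l2) * (3 ^ b * 3 ^ f.l3) * m := by ring
    _ = (2 ^ i * 3 ^ k) ^ 2 * (4 ^ g.j2 * 9 ^ g.j3 * (2 ^ α * 3 ^ β * m)) := by
      rw [e2, e3]; ring
    _ = _ := by rw [← e]; ring

theorem look_ok (hF : S_Form) (fams : List Fm) (h1 : ∀ F ∈ fams, Fam F.D F.lev F.Ks)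
    (h2 : Fam fm0.D fm0.lev fm0.Ks) (t : CT) (h : ctOK fams t = true) (i : ℕ) :
    RecOK (look t i) := by
  induction t generalizing i with
  | L f => exact hF fams f h1 h2 h
  | N s t ihs iht =>
    have e : ctOK fams (CT.N s t) = band (ctOK fams s) (ctOK fams t) := rfl
    rw [e, band_iff] at h
    have e' : look (CT.N s t) i = @Bool.rec (fun _ => ℕ) (look t (Nat.div i 2))
      (look s (Nat.div i 2)) (Nat.beq (Nat.mod i 2) 0) := rfl
    rw [e']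
    cases Nat.beq (Nat.mod i 2) 0
    · exact iht h.2 _
    · exact ihs h.1 _

end Pool.Agent.P.MP_65bf67_nt
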