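import Pool.Agent.P.MP_65bf67_nt.Basic

/-! Soundness of the lattice and frame checker. -/

set_option autoImplicit false

noncomputable section

namespace Pool.Agent.P.MP_65bf67_nt

namespace LatA

theorem ev_mul (K : K6) (c x y z : ℤ) : ev K (c * x) (c * y) (c * z) = c ^ 2 * ev K x y z := by
  simp only [ev, QF]; ring

theorem ev_cong (K : K6) {P x y z x' y' z' : ℤ} (hx : x ≡ x' [ZMOD P]) (hy : y ≡ y' [ZMOD P])
    (hz : z ≡ z' [ZMOD P]) : ev K x y z ≡ ev K x' y' z' [ZMOD P] := by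
  simp only [ev, QF]; gcongr

theorem even_of {k : ℤ} (h : dv 2 (nm 2 k) = true) : (2 : ℤ) ∣ k := by
  rw [dv_iff] at h
  have h1 : (2 : ℤ) ∣ (nm 2 k : ℕ) := by exact_mod_cast h
  have h2 := (nm_modEq 2 (by norm_num) k).dvd
  simpa using dvd_add h1 h2

theorem ev_cong2 (K : K6) {P x y z x' y' z' : ℤ} (hP : 2 ∣ P) (hx : x ≡ x' [ZMOD P])
    (hy : y ≡ y' [ZMOD P]) (hz : z ≡ z' [ZMOD P]) :
    ev K x y z ≡ ev K x' y' z' [ZMOD (P * (dd K : ℕ))] := by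
  unfold dd
  cases h : band (dv 2 (nm 2 K.r)) (band (dv 2 (nm 2 K.s)) (dv 2 (nm 2 K.t)))
  · have e : ite' false 2 1 = 1 := rfl
    rw [e, Nat.cast_one, mul_one]
    exact ev_cong K hx hy hz
  · have e : ite' true 2 1 = 2 := rfl
    rw [band_iff, band_iff] at h
    obtain ⟨r, hr⟩ := even_of h.1
    obtain ⟨s, hs⟩ := even_of h.2.1
    obtain ⟨t, ht⟩ := even_of h.2.2
    obtain ⟨Q, rfl⟩ := hP
    obtain ⟨u, hu⟩ := hx.dvd
    obtain ⟨v, hv⟩ := hy.dvd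
    obtain ⟨w, hw⟩ := hz.dvd
    obtain rfl : x' = x + 2 * Q * u := by linarith
    obtain rfl : y' = y + 2 * Q * v := by linarith
    obtain rfl : z' = z + 2 * Q * w := by linarith
    rw [e, Int.modEq_iff_dvd]
    refine ⟨K.a * (x * u + Q * u ^ 2) + K.b * (y * v + Q * v ^ 2) + K.c * (z * w + Q * w ^ 2) +
      r * (y * w + v * z + 2 * Q * v * w) + s * (x * w + u * z + 2 * Q * u * w) +
      t * (x * v + u * y + 2 * Q * u * v), ?_⟩
    simp only [ev, QF, hr, hs, ht]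
    push_cast
    ring

theorem res_eq (K : K6) {md N PP W vl : ℕ} {x y z : ℕ} {T : ℤ} (h1 : md ∣ N) (h2 : N ∣ 144)
    (h3 : md ∣ PP) (h4 : md ∣ W) (h5 : T ≡ ev K x y z [ZMOD PP]) (h6 : T ≡ vl [ZMOD W]) :
    vl % md = qn 144 K x y z % N % md := by
  rw [Nat.mod_mod_of_dvd _ h1]
  have a1 := (qn_modEq 144 (by norm_num) K x y z).of_dvd (Int.natCast_dvd_natCast.2 (h1.trans h2))
  have a2 := h5.of_dvd (Int.natCast_dvd_natCast.2 h3)
  have a3 := h6.of_dvd (Int.natCast_dvd_natCast.2 h4)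
  exact Int.natCast_modEq_iff.1 (a3.symm.trans (a2.trans a1.symm))

theorem sq_mod8 {c : ℤ} (h : IsCoprime c 2) : c ^ 2 ≡ 1 [ZMOD 8] := by
  have h1 : ¬ (2 : ℤ) ∣ c := fun hd => by
    have := h.isUnit_of_dvd' hd dvd_rfl
    rw [Int.isUnit_iff] at this
    omega
  obtain ⟨k, rfl⟩ : ∃ k, c = 2 * k + 1 := ⟨c / 2, by omega⟩
  obtain ⟨j, hj⟩ := Int.even_mul_succ_self k
  rw [Int.modEq_iff_dvd]
  exact ⟨-j, by linear_combination (-4) * hj⟩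

theorem sq_mod3 {c : ℤ} (h : IsCoprime c 3) : c ^ 2 ≡ 1 [ZMOD 3] := by
  have h1 : ¬ (3 : ℤ) ∣ c := fun hd => by
    have := h.isUnit_of_dvd' hd dvd_rfl
    rw [Int.isUnit_iff] at this
    omega
  rw [Int.modEq_iff_dvd]
  rcases (by omega : c = 3 * (c / 3) + 1 ∨ c = 3 * (c / 3) + 2) with e | e
  · generalize c / 3 = k at e
    exact ⟨-(3 * k ^ 2 + 2 * k), by rw [e]; ring⟩
  · generalize c / 3 = k at e
    exact ⟨-(3 * k ^ 2 + 4 * k + 1), by rw [e]; ring⟩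

theorem unit_cong {n c A B : ℤ} {m : ℕ} (hn : n ∣ 24) (hc : c ^ 2 ≡ 1 [ZMOD n]) :
    c ^ 2 * (A * B * m) ≡ A * B * (m % 24 : ℕ) [ZMOD (n * A)] := by
  have h1 : (m : ℤ) ≡ (m % 24 : ℕ) [ZMOD n] := by
    refine Int.ModEq.of_dvd hn ?_
    push_cast
    exact (Int.mod_modEq _ _).symm
  have h2 : c ^ 2 * (B * m) ≡ 1 * (B * (m % 24 : ℕ)) [ZMOD n] := by gcongr
  have h3 := h2.mul_right' (c := A)
  have e1 : c ^ 2 * (A * B * m) = c ^ 2 * (B * m) * A := by ring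
  have e2 : A * B * (m % 24 : ℕ) = 1 * (B * (m % 24 : ℕ)) * A := by ring
  rw [e1, e2]
  exact h3

theorem dvd_loc {p k m F s0 s1 s2 x' y' z' : ℕ} {c x y z : ℤ} (hm : m ∣ 1728)
    (hc : IsCoprime c (p : ℤ)) (hx : c * x ≡ x' [ZMOD ((p : ℤ) ^ k)])
    (hy : c * y ≡ y' [ZMOD ((p : ℤ) ^ k)]) (hz : c * z ≡ z' [ZMOD ((p : ℤ) ^ k)])
    (h : dv (Nat.gcd m (p ^ k)) (lin F s0 s1 s2 x' y' z') = true) :
    ((Nat.gcd m (p ^ k) : ℕ) : ℤ) ∣ wi 1728 F s0 * x + wi 1728 F s1 * y + wi 1728 F s2 * z := by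
  rw [dv_iff, lin_eq, ← Int.natCast_dvd_natCast] at h
  have g1 : ((Nat.gcd m (p ^ k) : ℕ) : ℤ) ∣ (p : ℤ) ^ k := by
    exact_mod_cast Nat.gcd_dvd_right m (p ^ k)
  have g2 : ((Nat.gcd m (p ^ k) : ℕ) : ℤ) ∣ 1728 := by
    exact_mod_cast (Nat.gcd_dvd_left m (p ^ k)).trans hm
  generalize ((Nat.gcd m (p ^ k) : ℕ) : ℤ) = g at *
  have hcop : IsCoprime g c := (hc.symm.pow_left (m := k)).of_isCoprime_of_dvd_left g1
  refine hcop.dvd_of_dvd_mul_left ?_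
  obtain ⟨u, hu⟩ := g1.trans hx.dvd
  obtain ⟨v, hv⟩ := g1.trans hy.dvd
  obtain ⟨w, hw⟩ := g1.trans hz.dvd
  obtain ⟨a, ha⟩ := h
  obtain ⟨b, hb⟩ := g2
  push_cast at ha
  refine ⟨a - (fl F s0 * u + fl F s1 * v + fl F s2 * w) - b * (c * x + c * y + c * z), ?_⟩
  simp only [wi]
  push_cast
  linear_combination ha - fl F s0 * hu - fl F s1 * hv - fl F s2 * hw - (c * x + c * y + c * z) * hb

theorem dvd_glob {a b m : ℕ} {W : ℤ} (h : mOK (2 ^ a) (3 ^ b) m = true)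
    (h2 : ((Nat.gcd m (2 ^ a) : ℕ) : ℤ) ∣ W) (h3 : ((Nat.gcd m (3 ^ b) : ℕ) : ℤ) ∣ W) :
    (m : ℤ) ∣ W := by
  rw [mOK, band_iff, Nat.beq_eq] at h
  have e : Nat.gcd m (2 ^ a) * Nat.gcd m (3 ^ b) = m := h.2
  have hc : Nat.Coprime (Nat.gcd m (2 ^ a)) (Nat.gcd m (3 ^ b)) :=
    Nat.Coprime.coprime_dvd_left (Nat.gcd_dvd_right _ _)
      (Nat.Coprime.coprime_dvd_right (Nat.gcd_dvd_right _ _)
        (Nat.Coprime.pow a b (by norm_num)))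
  have := (Nat.isCoprime_iff_coprime.2 hc).mul_dvd h2 h3
  rwa [← Nat.cast_mul, e] at this

theorem mOK_dvd {P2 P3 m : ℕ} (h : mOK P2 P3 m = true) : m ∣ 1728 := by
  rw [mOK, band_iff, dv_iff] at h
  exact h.1

theorem frId_eq {A B C T : ℤ} {K : K6} {F : ℕ} (h : frId A B C T K F = true) (x y z : ℤ) :
    A * (wi 1728 F 0 * x + wi 1728 F 12 * y + wi 1728 F 24 * z) ^ 2 +
      B * (wi 1728 F 48 * x + wi 1728 F 60 * y + wi 1728 F 72 * z) ^ 2 +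
      C * (wi 1728 F 96 * x + wi 1728 F 108 * y + wi 1728 F 120 * z) ^ 2 = T * ev K x y z := by
  simp only [frId, band_iff, ieq_iff, sq3, bl3] at h
  obtain ⟨h1, h2, h3, h4, h5, h6⟩ := h
  simp only [ev, QF]
  linear_combination x ^ 2 * h1 + y ^ 2 * h2 + z ^ 2 * h3 + y * z * h4 + x * z * h5 + x * y * h6

theorem not_dvd {K : K6} {p : ℕ} {x y z : ℤ} {q : ℕ} (h : ev K x y z = q) (hq : ¬ p ^ 2 ∣ q) :
    ¬ ((p : ℤ) ∣ x ∧ (p : ℤ) ∣ y ∧ (p : ℤ) ∣ z) := by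
  rintro ⟨⟨a, rfl⟩, ⟨b, rfl⟩, ⟨c, rfl⟩⟩
  rw [ev_mul] at h
  exact hq (by exact_mod_cast (show (p : ℤ) ^ 2 ∣ q from ⟨_, h.symm⟩))

end LatA

open LatA in
theorem lat_of_chart (h : S_Chart) : S_Lat := by
  intro c1 c2 c3 lam mul M K L hL α β m x y z hα hβ hm2 hm3 hM hq
  simp only [latOK, frc_eq, latAux, band_iff, lall_iff] at hL
  obtain ⟨hfr, hp2⟩ := hL
  have hlt : 48 * α + 24 * β + m % 24 < 96 := by omega
  have i1 : Nat.div (48 * α + 24 * β + m % 24) 48 = α := by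
    show (48 * α + 24 * β + m % 24) / 48 = α
    omega
  have i2 : Nat.mod (Nat.div (48 * α + 24 * β + m % 24) 24) 2 = β := by
    show (48 * α + 24 * β + m % 24) / 24 % 2 = β
    omega
  have i3 : Nat.mod (48 * α + 24 * β + m % 24) 24 = m % 24 := by
    show (48 * α + 24 * β + m % 24) % 24 = m % 24
    omega
  have hval : val (48 * α + 24 * β + m % 24) = 2 ^ α * 3 ^ β * (m % 24) := by
    rw [val, i1, i2, i3]; rfl
  have n2 : ¬ 2 ^ 2 ∣ 2 ^ α * 3 ^ β * m := by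
    interval_cases α <;> interval_cases β <;> omega
  have n3 : ¬ 3 ^ 2 ∣ 2 ^ α * 3 ^ β * m := by
    interval_cases α <;> interval_cases β <;> omega
  obtain ⟨c, x2, y2, z2, hc, hx, hy, hz, hf⟩ :=
    h 2 L.e2 _ Nat.prime_two hp2 x y z (not_dvd hq n2)
  have b2 : (sg2 M (Nat.mul (Nat.pow 2 (L.e2 + 1)) (dd K)) K x2 y2 z2).testBit
      (48 * α + 24 * β + m % 24) = true := by
    rw [sg2, frcN_eq]
    change (M &&& _).testBit _ = true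
    rw [Nat.testBit_and, hM, Bool.true_and, cm2, mk_bit, Nat.beq_eq, i1, hval]
    refine ⟨hlt, res_eq K (N := 16) (T := c ^ 2 * ((2 ^ α * 3 ^ β * m : ℕ) : ℤ))
      ((Nat.gcd_dvd_right _ _).trans ?_) (by norm_num) (Nat.gcd_dvd_left _ _)
      (Nat.gcd_dvd_right _ _) ?_ ?_⟩
    · interval_cases α <;> decide
    · have := ev_cong2 K (dvd_pow_self _ (Nat.succ_ne_zero _)) hx hy hz
      rw [ev_mul, hq] at this
      simpa using this
    · have := unit_cong (A := 2 ^ α) (B := 3 ^ β) (m := m) (by norm_num) (sq_mod8 hc)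
      simpa using this
  rw [bor_iff, Nat.beq_eq] at hf
  rcases hf with hf | hf
  · rw [hf] at b2
    exact absurd b2 (by simp)
  rw [band_iff, inner3] at hf
  obtain ⟨c', x3, y3, z3, hc', hx', hy', hz', hf'⟩ :=
    h 3 L.e3 _ Nat.prime_three hf.1 x y z (not_dvd hq n3)
  have b3 : (sg3 (Nat.pow 3 (L.e3 + 1)) K x3 y3 z3).testBit (48 * α + 24 * β + m % 24) = true := by
    rw [sg3, frcN_eq]
    change (cm3 _ _).testBit _ = true
    rw [cm3, mk_bit, Nat.beq_eq, i2, hval]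
    refine ⟨hlt, res_eq K (N := 9) (T := c' ^ 2 * ((2 ^ α * 3 ^ β * m : ℕ) : ℤ))
      ((Nat.gcd_dvd_right _ _).trans ?_) (by norm_num) (Nat.gcd_dvd_left _ _)
      (Nat.gcd_dvd_right _ _) ?_ ?_⟩
    · interval_cases β <;> decide
    · have := ev_cong K hx' hy' hz'
      rw [ev_mul, hq] at this
      simpa using this
    · have := unit_cong (A := 3 ^ β) (B := 2 ^ α) (m := m) (by norm_num) (sq_mod3 hc')
      simpa [mul_comm ((3 : ℤ) ^ β)] using this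
  rw [bor_iff, Nat.beq_eq, Nat.blt_eq] at hf'
  rcases hf' with hf' | hf'
  · have hb : (sg2 M (Nat.mul (Nat.pow 2 (L.e2 + 1)) (dd K)) K x2 y2 z2 &&&
        sg3 (Nat.pow 3 (L.e3 + 1)) K x3 y3 z3).testBit (48 * α + 24 * β + m % 24) = true := by
      rw [Nat.testBit_and, b2, b3]; rfl
    have hf'' : (sg2 M (Nat.mul (Nat.pow 2 (L.e2 + 1)) (dd K)) K x2 y2 z2 &&&
        sg3 (Nat.pow 3 (L.e3 + 1)) K x3 y3 z3) = 0 := hf'
    rw [hf''] at hb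
    exact absurd hb (by simp)
  obtain ⟨F, hF, f2, f3⟩ := fm_and _ _ _ hf'
  have hF' := hfr F hF
  simp only [frOK, band_iff] at hF'
  obtain ⟨m1, m2, m3, hid⟩ := hF'
  simp only [frPt, band_iff] at f2 f3
  obtain ⟨X, hX⟩ := dvd_glob m1 (dvd_loc (mOK_dvd m1) hc hx hy hz f2.1)
    (dvd_loc (mOK_dvd m1) hc' hx' hy' hz' f3.1)
  obtain ⟨Y, hY⟩ := dvd_glob m2 (dvd_loc (mOK_dvd m2) hc hx hy hz f2.2.1)
    (dvd_loc (mOK_dvd m2) hc' hx' hy' hz' f3.2.1)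
  obtain ⟨Z, hZ⟩ := dvd_glob m3 (dvd_loc (mOK_dvd m3) hc hx hy hz f2.2.2)
    (dvd_loc (mOK_dvd m3) hc' hx' hy' hz' f3.2.2)
  have hI := frId_eq hid x y z
  have hX' : wi 1728 F 0 * x + wi 1728 F 12 * y + wi 1728 F 24 * z = fl F 36 * X := hX
  have hY' : wi 1728 F 48 * x + wi 1728 F 60 * y + wi 1728 F 72 * z = fl F 84 * Y := hY
  have hZ' : wi 1728 F 96 * x + wi 1728 F 108 * y + wi 1728 F 120 * z = fl F 132 * Z := hZ
  rw [hX', hY', hZ', hq] at hI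
  have z1 : fl F 36 ≠ 0 := ne_zero_of_dvd_ne_zero (by norm_num) (mOK_dvd m1)
  have z2 : fl F 84 ≠ 0 := ne_zero_of_dvd_ne_zero (by norm_num) (mOK_dvd m2)
  have z3 : fl F 132 ≠ 0 := ne_zero_of_dvd_ne_zero (by norm_num) (mOK_dvd m3)
  have z4 : ((fl F 36 : ℤ) * fl F 84 * fl F 132) ^ 2 ≠ 0 :=
    pow_ne_zero _ (mul_ne_zero (mul_ne_zero (Nat.cast_ne_zero.2 z1) (Nat.cast_ne_zero.2 z2))
      (Nat.cast_ne_zero.2 z3))
  refine ⟨X, Y, Z, mul_left_cancel₀ z4 ?_⟩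
  generalize ((2 ^ α * 3 ^ β * m : ℕ) : ℤ) = q at hI ⊢
  push_cast at hI
  linear_combination hI

end Pool.Agent.P.MP_65bf67_nt
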