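import Pool.Agent.P.MP_65bf67_nt.Defs

set_option autoImplicit false

namespace Pool.Agent.P.MP_65bf67_nt

namespace Red

/-- every value of the form has property `B` whenever the form is definite of discriminant `D` -/
def Ok (B : ℤ → Prop) (D a b c r s t : ℤ) : Prop :=
  PD a b c r s t → disc a b c r s t = D → ∀ x y z : ℤ, B (QF a b c r s t x y z)

lemma swap12 {B : ℤ → Prop} {D a b c r s t : ℤ} (h : Ok B D b a c s r t) :
    Ok B D a b c r s t := by
  intro hp hd x y z
  have e : ∀ x y z : ℤ, QF a b c r s t x y z = QF b a c s r t y x z := by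
    intro x y z; simp only [QF]; ring
  rw [e]
  refine h (fun x y z hx => ?_) ?_ _ _ _
  · rw [← e]; exact hp _ _ _ (by tauto)
  · rw [← hd]; simp only [disc]; ring

lemma swap23 {B : ℤ → Prop} {D a b c r s t : ℤ} (h : Ok B D a c b r t s) :
    Ok B D a b c r s t := by
  intro hp hd x y z
  have e : ∀ x y z : ℤ, QF a b c r s t x y z = QF a c b r t s x z y := by
    intro x y z; simp only [QF]; ring
  rw [e]
  refine h (fun x y z hx => ?_) ?_ _ _ _
  · rw [← e]; exact hp _ _ _ (by tauto)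
  · rw [← hd]; simp only [disc]; ring

lemma zmove {B : ℤ → Prop} {D a b c r s t : ℤ} (u v : ℤ)
    (h : Ok B D a b (QF a b c r s t u v 1) (r + 2 * b * v + t * u) (s + 2 * a * u + t * v) t) :
    Ok B D a b c r s t := by
  intro hp hd x y z
  have e : ∀ x y z : ℤ, QF a b (QF a b c r s t u v 1) (r + 2 * b * v + t * u)
      (s + 2 * a * u + t * v) t x y z = QF a b c r s t (x + u * z) (y + v * z) z := by
    intro x y z; simp only [QF]; ring
  have e2 := e (x - u * z) (y - v * z) z
  rw [sub_add_cancel, sub_add_cancel] at e2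
  rw [← e2]
  refine h (fun x y z hx => ?_) ?_ _ _ _
  · rw [e]
    refine hp _ _ _ ?_
    by_cases hz : z = 0
    · subst hz; simpa using hx
    · exact Or.inr (Or.inr hz)
  · rw [← hd]; simp only [disc, QF]; ring

lemma pos_of_PD {a b c r s t : ℤ} (hp : PD a b c r s t) : 0 < a ∧ 0 < b ∧ 0 < c := by
  have h1 := hp 1 0 0 (by simp)
  have h2 := hp 0 1 0 (by simp)
  have h3 := hp 0 0 1 (by simp)
  simp only [QF] at h1 h2 h3
  refine ⟨by linarith, by linarith, by linarith⟩

/-- reduction to reduced forms -/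
lemma reduce (B : ℤ → Prop) (D : ℤ)
    (hb : ∀ a b c r s t : ℤ, a ≤ b → b ≤ c → |t| ≤ a →
      (∀ u v : ℤ, c ≤ QF a b c r s t u v 1) → Ok B D a b c r s t) (n : ℕ) :
    ∀ a b c r s t : ℤ, a + b + c ≤ n → Ok B D a b c r s t := by
  induction n with
  | zero =>
    intro a b c r s t hn hp
    have := pos_of_PD hp
    exfalso
    simp only [Nat.cast_zero] at hn
    omega
  | succ n ih =>
    have key : ∀ a b c r s t : ℤ, a ≤ b → b ≤ c → a + b + c ≤ (n + 1 : ℕ) →
        Ok B D a b c r s t := by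
      intro a b c r s t hab hbc hn
      push_cast at hn
      by_cases h1 : ∀ u v : ℤ, c ≤ QF a b c r s t u v 1
      · by_cases h2 : |t| ≤ a
        · exact hb a b c r s t hab hbc h2 h1
        · apply swap23
          rcases abs_cases t with h | h
          · refine zmove (-1) 0 (ih _ _ _ _ _ _ ?_)
            simp only [QF]; omega
          · refine zmove 1 0 (ih _ _ _ _ _ _ ?_)
            simp only [QF]; omega
      · push Not at h1
        obtain ⟨u, v, h⟩ := h1
        exact zmove u v (ih _ _ _ _ _ _ (by omega))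
    intro a b c r s t hn
    rcases le_total a b with h1 | h1 <;> rcases le_total b c with h2 | h2 <;>
      rcases le_total a c with h3 | h3
    · exact key _ _ _ _ _ _ h1 h2 hn
    · exact key _ _ _ _ _ _ h1 h2 hn
    · exact swap23 (key _ _ _ _ _ _ h3 h2 (by omega))
    · exact swap23 (swap12 (key _ _ _ _ _ _ h3 h1 (by omega)))
    · exact swap12 (key _ _ _ _ _ _ h1 h3 (by omega))
    · exact swap12 (swap23 (key _ _ _ _ _ _ h2 h3 (by omega)))
    · exact swap12 (key _ _ _ _ _ _ h1 h3 (by omega))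
    · exact swap12 (swap23 (swap12 (key _ _ _ _ _ _ h2 h1 (by omega))))

/-- the discriminant of a reduced form is at least `abc` -/
lemma bound {a b c r s t : ℤ} (ha : 0 < a) (hab : a ≤ b) (hbc : b ≤ c) (ht : |t| ≤ a)
    (h : ∀ u v : ℤ, c ≤ QF a b c r s t u v 1) :
    |r| ≤ b ∧ |s| ≤ a ∧ a * b * c ≤ disc a b c r s t := by
  have h1 := h 1 0
  have h2 := h (-1) 0
  have h3 := h 0 1
  have h4 := h 0 (-1)
  have h5 := h 1 1
  have h6 := h 1 (-1)
  have h7 := h (-1) 1
  have h8 := h (-1) (-1)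
  simp only [QF] at h1 h2 h3 h4 h5 h6 h7 h8
  have hr : |r| ≤ b := abs_le.2 ⟨by linarith, by linarith⟩
  have hs : |s| ≤ a := abs_le.2 ⟨by linarith, by linarith⟩
  refine ⟨hr, hs, ?_⟩
  have hb : 0 < b := by linarith
  have hc : 0 < c := by linarith
  have hR := abs_nonneg r
  have hS := abs_nonneg s
  have hT := abs_nonneg t
  have hac : 0 < a * c := mul_pos ha hc
  have e1 : a * r ^ 2 ≤ a * c * |r| := by
    rw [← sq_abs r]
    have : |r| ≤ c := hr.trans hbc
    nlinarith [mul_nonneg ha.le (mul_nonneg hR (sub_nonneg.2 this))]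
  have e2 : b * s ^ 2 ≤ a * c * |s| := by
    rw [← sq_abs s]
    have k1 : b * |s| ≤ c * a := mul_le_mul hbc hs hS hc.le
    nlinarith [mul_le_mul_of_nonneg_right k1 hS]
  have e3 : c * t ^ 2 ≤ a * c * |t| := by
    rw [← sq_abs t]
    nlinarith [mul_nonneg hc.le (mul_nonneg hT (sub_nonneg.2 ht))]
  simp only [disc]
  rcases le_or_gt 0 (r * s * t) with hp | hp
  · have f1 : a * c * |r| ≤ a * c * b := mul_le_mul_of_nonneg_left hr hac.le
    have f2 : a * c * |s| ≤ a * c * b := mul_le_mul_of_nonneg_left (hs.trans hab) hac.le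
    have f3 : a * c * |t| ≤ a * c * b := mul_le_mul_of_nonneg_left (ht.trans hab) hac.le
    nlinarith
  · have hsum : |r| + |s| + |t| ≤ a + b := by
      rcases abs_cases r with k1 | k1 <;> rcases abs_cases s with k2 | k2 <;>
        rcases abs_cases t with k3 | k3
      · exact absurd (mul_nonneg (mul_nonneg k1.2 k2.2) k3.2) (not_le.2 hp)
      · linarith [k1.1, k2.1, k3.1]
      · linarith [k1.1, k2.1, k3.1]
      · exfalso
        nlinarith [mul_nonneg k1.2 (mul_pos_of_neg_of_neg k2.2 k3.2).le]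
      · linarith [k1.1, k2.1, k3.1]
      · exfalso
        nlinarith [mul_nonneg k2.2 (mul_pos_of_neg_of_neg k1.2 k3.2).le]
      · exfalso
        nlinarith [mul_nonneg k3.2 (mul_pos_of_neg_of_neg k1.2 k2.2).le]
      · linarith [k1.1, k2.1, k3.1]
    have f1 : a * c * (|r| + |s| + |t|) ≤ a * c * (2 * b) :=
      mul_le_mul_of_nonneg_left (by linarith) hac.le
    have f2 : |r * s * t| ≤ b * a * c := by
      rw [abs_mul, abs_mul]
      exact mul_le_mul (mul_le_mul hr hs hS hb.le) (ht.trans (hab.trans hbc)) hT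
        (mul_pos hb ha).le
    have f3 := neg_abs_le (r * s * t)
    nlinarith

lemma small {a b c : ℤ} (ha : 0 < a) (hab : a ≤ b) (hbc : b ≤ c) (h : a * b * c ≤ 3) :
    a = 1 ∧ b = 1 ∧ c ≤ 3 := by
  have hb : 0 < b := by linarith
  have h1 : b * c ≤ 3 := by nlinarith [mul_pos hb (by linarith : 0 < c)]
  have h2 : b = 1 := by nlinarith
  subst h2
  exact ⟨by omega, rfl, by linarith⟩

end Red

open Red

theorem red2 : S_Red2 := by
  intro a b c r s t
  refine reduce (fun n => ∃ X Y Z : ℤ, 2 * n = X ^ 2 + Y ^ 2 + Z ^ 2) 2 ?_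
    (a + b + c).toNat a b c r s t (Int.self_le_toNat _)
  intro a b c r s t hab hbc ht h hp hd x y z
  obtain ⟨ha, -, -⟩ := pos_of_PD hp
  obtain ⟨hr, hs, hD⟩ := bound ha hab hbc ht h
  obtain ⟨rfl, rfl, hc⟩ := small ha hab hbc (by omega)
  obtain ⟨r1, r2⟩ := abs_le.1 hr
  obtain ⟨s1, s2⟩ := abs_le.1 hs
  obtain ⟨t1, t2⟩ := abs_le.1 ht
  clear h hp hr hs ht hD
  interval_cases c <;> interval_cases r <;> interval_cases s <;> interval_cases t <;>
    first
    | exact absurd hd (by decide)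
    | exact ⟨((-1) * x + (-1) * y + (1) * z), ((-1) * x + (1) * y + (0) * z), ((0) * x + (0) * y + (-1) * z), by simp only [QF]; ring1⟩
    | exact ⟨((-1) * x + (-1) * y + (0) * z), ((-1) * x + (0) * y + (1) * z), ((0) * x + (-1) * y + (1) * z), by simp only [QF]; ring1⟩
    | exact ⟨((-1) * x + (0) * y + (1) * z), ((-1) * x + (1) * y + (-1) * z), ((0) * x + (-1) * y + (0) * z), by simp only [QF]; ring1⟩
    | exact ⟨((-1) * x + (-1) * y + (1) * z), ((-1) * x + (0) * y + (-1) * z), ((0) * x + (-1) * y + (0) * z), by simp only [QF]; ring1⟩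
    | exact ⟨((-1) * x + (0) * y + (-1) * z), ((-1) * x + (1) * y + (0) * z), ((0) * x + (-1) * y + (1) * z), by simp only [QF]; ring1⟩
    | exact ⟨((-1) * x + (-1) * y + (0) * z), ((-1) * x + (1) * y + (-1) * z), ((0) * x + (0) * y + (-1) * z), by simp only [QF]; ring1⟩
    | exact ⟨((-1) * x + (0) * y + (0) * z), ((-1) * x + (1) * y + (1) * z), ((0) * x + (-1) * y + (1) * z), by simp only [QF]; ring1⟩
    | exact ⟨((-1) * x + (-1) * y + (1) * z), ((-1) * x + (0) * y + (0) * z), ((0) * x + (-1) * y + (-1) * z), by simp only [QF]; ring1⟩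
    | exact ⟨((-1) * x + (0) * y + (0) * z), ((-1) * x + (1) * y + (-1) * z), ((0) * x + (-1) * y + (-1) * z), by simp only [QF]; ring1⟩
    | exact ⟨((-1) * x + (-1) * y + (-1) * z), ((-1) * x + (0) * y + (0) * z), ((0) * x + (-1) * y + (1) * z), by simp only [QF]; ring1⟩
    | exact ⟨((-1) * x + (0) * y + (1) * z), ((-1) * x + (1) * y + (0) * z), ((0) * x + (-1) * y + (-1) * z), by simp only [QF]; ring1⟩
    | exact ⟨((-1) * x + (-1) * y + (0) * z), ((-1) * x + (1) * y + (1) * z), ((0) * x + (0) * y + (-1) * z), by simp only [QF]; ring1⟩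
    | exact ⟨((-1) * x + (0) * y + (-1) * z), ((-1) * x + (1) * y + (1) * z), ((0) * x + (-1) * y + (0) * z), by simp only [QF]; ring1⟩
    | exact ⟨((-1) * x + (-1) * y + (-1) * z), ((-1) * x + (0) * y + (1) * z), ((0) * x + (-1) * y + (0) * z), by simp only [QF]; ring1⟩
    | exact ⟨((-1) * x + (-1) * y + (-1) * z), ((-1) * x + (1) * y + (0) * z), ((0) * x + (0) * y + (-1) * z), by simp only [QF]; ring1⟩
    | exact ⟨((-1) * x + (-1) * y + (0) * z), ((-1) * x + (0) * y + (-1) * z), ((0) * x + (-1) * y + (-1) * z), by simp only [QF]; ring1⟩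

theorem red3 : S_Red3 := by
  intro a b c r s t
  refine reduce (fun n => ∃ X Y Z : ℤ, n = X ^ 2 + X * Y + Y ^ 2 + Z ^ 2) 3 ?_
    (a + b + c).toNat a b c r s t (Int.self_le_toNat _)
  intro a b c r s t hab hbc ht h hp hd x y z
  obtain ⟨ha, -, -⟩ := pos_of_PD hp
  obtain ⟨hr, hs, hD⟩ := bound ha hab hbc ht h
  obtain ⟨rfl, rfl, hc⟩ := small ha hab hbc (by omega)
  obtain ⟨r1, r2⟩ := abs_le.1 hr
  obtain ⟨s1, s2⟩ := abs_le.1 hs
  obtain ⟨t1, t2⟩ := abs_le.1 ht
  clear h hp hr hs ht hD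
  interval_cases c <;> interval_cases r <;> interval_cases s <;> interval_cases t <;>
    first
    | exact absurd hd (by decide)
    | exact ⟨((0) * x + (-1) * y + (0) * z), ((0) * x + (0) * y + (1) * z), ((-1) * x + (0) * y + (0) * z), by simp only [QF]; ring1⟩
    | exact ⟨((-1) * x + (0) * y + (0) * z), ((0) * x + (0) * y + (1) * z), ((0) * x + (-1) * y + (0) * z), by simp only [QF]; ring1⟩
    | exact ⟨((-1) * x + (0) * y + (0) * z), ((0) * x + (1) * y + (0) * z), ((0) * x + (0) * y + (-1) * z), by simp only [QF]; ring1⟩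
    | exact ⟨((-1) * x + (-1) * y + (0) * z), ((0) * x + (1) * y + (0) * z), ((0) * x + (0) * y + (-1) * z), by simp only [QF]; ring1⟩
    | exact ⟨((-1) * x + (0) * y + (-1) * z), ((0) * x + (0) * y + (1) * z), ((0) * x + (-1) * y + (0) * z), by simp only [QF]; ring1⟩
    | exact ⟨((0) * x + (-1) * y + (-1) * z), ((0) * x + (0) * y + (1) * z), ((-1) * x + (0) * y + (0) * z), by simp only [QF]; ring1⟩
    | exact ⟨((-1) * x + (0) * y + (1) * z), ((0) * x + (1) * y + (-1) * z), ((0) * x + (0) * y + (-1) * z), by simp only [QF]; ring1⟩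
    | exact ⟨((-1) * x + (-1) * y + (0) * z), ((0) * x + (1) * y + (-1) * z), ((0) * x + (0) * y + (-1) * z), by simp only [QF]; ring1⟩
    | exact ⟨((-1) * x + (-1) * y + (0) * z), ((0) * x + (1) * y + (1) * z), ((0) * x + (0) * y + (-1) * z), by simp only [QF]; ring1⟩
    | exact ⟨((-1) * x + (0) * y + (-1) * z), ((0) * x + (1) * y + (1) * z), ((0) * x + (0) * y + (-1) * z), by simp only [QF]; ring1⟩

end Pool.Agent.P.MP_65bf67_nt
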