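import Pool.Agent.P.MP_65bf67_nt.Basic

/-! Projective charts and soundness of the level step checker. -/

set_option autoImplicit false

noncomputable section

namespace Pool.Agent.P.MP_65bf67_nt

namespace StepAux

theorem exists_inv (p e : ℕ) (hp : p.Prime) (x : ℤ) (hx : ¬ (p : ℤ) ∣ x) :
    ∃ c : ℤ, IsCoprime c (p : ℤ) ∧ c * x ≡ 1 [ZMOD ((p : ℤ) ^ (e + 1))] := by
  have hpz : Prime (p : ℤ) := Nat.prime_iff_prime_int.1 hp
  have h1 : IsCoprime (p : ℤ) x := (Prime.coprime_iff_not_dvd hpz).2 hx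
  have h2 : IsCoprime x ((p : ℤ) ^ (e + 1)) := h1.symm.pow_right
  obtain ⟨c, d, hcd⟩ := h2
  refine ⟨c, ⟨x, d * (p : ℤ) ^ e, ?_⟩, ?_⟩
  · rw [← hcd]; ring
  · rw [Int.modEq_iff_dvd]
    exact ⟨d, by rw [← hcd]; ring⟩

theorem red (p e : ℕ) (hp : p.Prime) (a : ℤ) :
    ∃ n : ℕ, n < p ^ (e + 1) ∧ a ≡ n [ZMOD ((p : ℤ) ^ (e + 1))] := by
  have hpos : (0 : ℤ) < (p : ℤ) ^ (e + 1) := pow_pos (by exact_mod_cast hp.pos) _
  have h0 : 0 ≤ a % (p : ℤ) ^ (e + 1) := Int.emod_nonneg _ hpos.ne'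
  have h1 : a % (p : ℤ) ^ (e + 1) < (p : ℤ) ^ (e + 1) := Int.emod_lt_of_pos _ hpos
  refine ⟨(a % (p : ℤ) ^ (e + 1)).toNat, ?_, ?_⟩
  · have h2 : (((a % (p : ℤ) ^ (e + 1)).toNat : ℕ) : ℤ) < ((p ^ (e + 1) : ℕ) : ℤ) := by
      rw [Int.toNat_of_nonneg h0]; push_cast; exact h1
    exact_mod_cast h2
  · rw [Int.toNat_of_nonneg h0]
    exact (Int.mod_modEq _ _).symm

theorem red' (p e : ℕ) (hp : p.Prime) (a : ℤ) (ha : (p : ℤ) ∣ a) :
    ∃ n : ℕ, n < p ^ e ∧ a ≡ ((p * n : ℕ) : ℤ) [ZMOD ((p : ℤ) ^ (e + 1))] := by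
  obtain ⟨m, hm, hme⟩ := red p e hp a
  have h1 : (p : ℤ) ∣ (m : ℤ) := by
    have h2 : (p : ℤ) ∣ (m : ℤ) - a :=
      dvd_trans (Dvd.intro_left ((p : ℤ) ^ e) (pow_succ _ _).symm) (Int.modEq_iff_dvd.1 hme)
    have h3 := dvd_add h2 ha
    rwa [sub_add_cancel] at h3
  obtain ⟨n, hn⟩ := Int.natCast_dvd_natCast.1 h1
  refine ⟨n, ?_, ?_⟩
  · rw [hn, pow_succ, mul_comm (p ^ e) p] at hm
    exact Nat.lt_of_mul_lt_mul_left hm
  · rw [← hn]; exact hme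

theorem ev_frame (p : ℕ) (G K : K6) (F : ℕ) (h : lfOK p G K F = true) (x y z : ℤ) :
    ev K (wi (16 * p) F 0 * x + wi (16 * p) F 12 * y + wi (16 * p) F 24 * z)
      (wi (16 * p) F 36 * x + wi (16 * p) F 48 * y + wi (16 * p) F 60 * z)
      (wi (16 * p) F 72 * x + wi (16 * p) F 84 * y + wi (16 * p) F 96 * z) = p * ev G x y z := by
  unfold lfOK at h
  simp only [band_iff, ieq_iff] at h
  obtain ⟨h1, h2, h3, h4, h5, h6⟩ := h
  generalize wi (16 * p) F 0 = a0 at *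
  generalize wi (16 * p) F 12 = a1 at *
  generalize wi (16 * p) F 24 = a2 at *
  generalize wi (16 * p) F 36 = b0 at *
  generalize wi (16 * p) F 48 = b1 at *
  generalize wi (16 * p) F 60 = b2 at *
  generalize wi (16 * p) F 72 = c0 at *
  generalize wi (16 * p) F 84 = c1 at *
  generalize wi (16 * p) F 96 = c2 at *
  unfold ev QF at *
  linear_combination (x ^ 2 - x * y - x * z) * h1 + (y ^ 2 - x * y - y * z) * h2 +
    (z ^ 2 - x * z - y * z) * h3 + y * z * h4 + x * z * h5 + x * y * h6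

theorem ev_smul (K : K6) (c x y z : ℤ) : ev K (c * x) (c * y) (c * z) = c ^ 2 * ev K x y z := by
  unfold ev QF; ring

theorem ev_modEq (K : K6) (M x y z x' y' z' : ℤ) (hx : x ≡ x' [ZMOD M]) (hy : y ≡ y' [ZMOD M])
    (hz : z ≡ z' [ZMOD M]) : ev K x y z ≡ ev K x' y' z' [ZMOD M] := by
  unfold ev QF
  gcongr

theorem row_dvd (p F s0 s1 s2 : ℕ) (c x y z : ℤ) (x' y' z' : ℕ) (hc : IsCoprime c (p : ℤ))
    (hx : c * x ≡ x' [ZMOD p]) (hy : c * y ≡ y' [ZMOD p]) (hz : c * z ≡ z' [ZMOD p])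
    (h : dv p (lin F s0 s1 s2 x' y' z') = true) :
    (p : ℤ) ∣ wi (16 * p) F s0 * x + wi (16 * p) F s1 * y + wi (16 * p) F s2 * z := by
  rw [dv_iff, lin_eq] at h
  have h1 : (p : ℤ) ∣ (fl F s0 : ℤ) * x' + (fl F s1 : ℤ) * y' + (fl F s2 : ℤ) * z' := by
    exact_mod_cast Int.natCast_dvd_natCast.2 h
  obtain ⟨k, hk⟩ := h1
  obtain ⟨kx, hkx⟩ := Int.modEq_iff_dvd.1 hx
  obtain ⟨ky, hky⟩ := Int.modEq_iff_dvd.1 hy
  obtain ⟨kz, hkz⟩ := Int.modEq_iff_dvd.1 hz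
  refine hc.symm.dvd_of_dvd_mul_left ?_
  refine ⟨k - (fl F s0 : ℤ) * kx - (fl F s1 : ℤ) * ky - (fl F s2 : ℤ) * kz
    - 16 * c * (x + y + z), ?_⟩
  unfold wi
  push_cast
  linear_combination hk - (fl F s0 : ℤ) * hkx - (fl F s1 : ℤ) * hky - (fl F s2 : ℤ) * hkz

end StepAux

open StepAux

theorem chart : S_Chart := by
  intro p e f hp h x y z hn
  unfold allPts at h
  simp only [band_iff, allLt_iff] at h
  obtain ⟨h1, h2, h3⟩ := h
  by_cases hx : (p : ℤ) ∣ x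
  · by_cases hy : (p : ℤ) ∣ y
    · have hz : ¬ (p : ℤ) ∣ z := fun hz => hn ⟨hx, hy, hz⟩
      obtain ⟨c, hc, hcz⟩ := exists_inv p e hp z hz
      obtain ⟨x', hx1, hx2⟩ := red' p e hp (c * x) (Dvd.dvd.mul_left hx c)
      obtain ⟨y', hy1, hy2⟩ := red' p e hp (c * y) (Dvd.dvd.mul_left hy c)
      exact ⟨c, p * x', p * y', 1, hc, hx2, hy2, by exact_mod_cast hcz, h3 x' hx1 y' hy1⟩
    · obtain ⟨c, hc, hcy⟩ := exists_inv p e hp y hy
      obtain ⟨x', hx1, hx2⟩ := red' p e hp (c * x) (Dvd.dvd.mul_left hx c)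
      obtain ⟨z', hz1, hz2⟩ := red p e hp (c * z)
      exact ⟨c, p * x', 1, z', hc, hx2, by exact_mod_cast hcy, hz2, h2 x' hx1 z' hz1⟩
  · obtain ⟨c, hc, hcx⟩ := exists_inv p e hp x hx
    obtain ⟨y', hy1, hy2⟩ := red p e hp (c * y)
    obtain ⟨z', hz1, hz2⟩ := red p e hp (c * z)
    exact ⟨c, 1, y', z', hc, by exact_mod_cast hcx, hy2, hz2, h1 y' hy1 z' hz1⟩

theorem step_sound : S_Step := by
  intro D P p Gs frs Ks hp hF hs n hn
  have hn' : admB D (P * (p * n)) = true := by rw [← mul_assoc]; exact hn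
  obtain ⟨G, hG, x, y, z, hv⟩ := hF (p * n) hn'
  unfold stepOK at hs
  rw [band_iff, lall_iff, Nat.beq_eq] at hs
  obtain ⟨hlen, hall⟩ := hs
  obtain ⟨i, hi, rfl⟩ := List.getElem_of_mem hG
  have hi2 : i < frs.length := hlen ▸ hi
  have hmem : (Gs[i], frs[i]) ∈ Gs.zip frs := by
    have hl : i < (Gs.zip frs).length := by rw [List.length_zip]; omega
    have := List.getElem_mem hl
    rwa [List.getElem_zip] at this
  have hpar := hall _ hmem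
  unfold parOK at hpar
  simp only [band_iff, lall_iff, lany_iff] at hpar
  obtain ⟨⟨F0, hF0, -⟩, hfr, hpts⟩ := hpar
  have hp0 : (p : ℤ) ≠ 0 := by exact_mod_cast hp.ne_zero
  have key : ∃ F ∈ frs[i],
      (p : ℤ) ∣ wi (16 * p) F 0 * x + wi (16 * p) F 12 * y + wi (16 * p) F 24 * z ∧
      (p : ℤ) ∣ wi (16 * p) F 36 * x + wi (16 * p) F 48 * y + wi (16 * p) F 60 * z ∧
      (p : ℤ) ∣ wi (16 * p) F 72 * x + wi (16 * p) F 84 * y + wi (16 * p) F 96 * z := by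
    by_cases hd : (p : ℤ) ∣ x ∧ (p : ℤ) ∣ y ∧ (p : ℤ) ∣ z
    · obtain ⟨h1, h2, h3⟩ := hd
      refine ⟨F0, hF0, ?_, ?_, ?_⟩ <;>
        exact dvd_add (dvd_add (Dvd.dvd.mul_left h1 _) (Dvd.dvd.mul_left h2 _))
          (Dvd.dvd.mul_left h3 _)
    · have hpts' : allPts p (p ^ (0 + 1)) (p ^ 0) (fun x y z =>
          bor (Nat.blt (nat_lit 0) (Nat.mod (qn p Gs[i] x y z) p))
            (lany frs[i] fun F => lfPt p F x y z)) = true := by
        rw [zero_add, pow_one, pow_zero]; exact hpts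
      obtain ⟨c, x', y', z', hc, hx, hy, hz, hf⟩ := chart p 0 _ hp hpts' x y z hd
      rw [zero_add, pow_one] at hx hy hz
      rw [bor_iff, lany_iff] at hf
      have hq : (p : ℤ) ∣ ((qn p Gs[i] x' y' z' : ℕ) : ℤ) := by
        have h1 := qn_modEq p hp.pos Gs[i] x' y' z'
        have h2 := ev_modEq Gs[i] p _ _ _ _ _ _ hx hy hz
        rw [ev_smul, hv] at h2
        have h3 := h1.trans h2.symm
        have h4 : c ^ 2 * ((p * n : ℕ) : ℤ) ≡ 0 [ZMOD p] := by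
          rw [Int.modEq_zero_iff_dvd]
          push_cast
          exact Dvd.dvd.mul_left (Dvd.intro _ rfl) _
        exact Int.modEq_zero_iff_dvd.1 (h3.trans h4)
      have hq2 : qn p Gs[i] x' y' z' % p = 0 :=
        Nat.mod_eq_zero_of_dvd (Int.natCast_dvd_natCast.1 hq)
      rcases hf with hf | ⟨F, hFm, hf⟩
      · exfalso
        have h5 : 0 < qn p Gs[i] x' y' z' % p := Nat.blt_eq.mp hf
        omega
      · unfold lfPt at hf
        simp only [band_iff] at hf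
        obtain ⟨g1, g2, g3⟩ := hf
        exact ⟨F, hFm, row_dvd p F 0 12 24 c x y z x' y' z' hc hx hy hz g1,
          row_dvd p F 36 48 60 c x y z x' y' z' hc hx hy hz g2,
          row_dvd p F 72 84 96 c x y z x' y' z' hc hx hy hz g3⟩
  obtain ⟨F, hFm, ⟨X, hX⟩, ⟨Y, hY⟩, ⟨Z, hZ⟩⟩ := key
  obtain ⟨hlt, hlf⟩ := hfr F hFm
  have hlt' : fl F 108 < Ks.length := Nat.blt_eq.mp hlt
  have hK : Ks.getD (fl F 108) base0 ∈ Ks := by
    rw [List.getD_eq_getElem _ _ hlt']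
    exact List.getElem_mem hlt'
  refine ⟨_, hK, X, Y, Z, ?_⟩
  have h1 := ev_frame p _ _ F hlf x y z
  rw [hX, hY, hZ, ev_smul, hv] at h1
  have h2 : (p : ℤ) ^ 2 * ev (Ks.getD (fl F 108) base0) X Y Z = (p : ℤ) ^ 2 * n := by
    rw [h1]; push_cast; ring
  exact mul_left_cancel₀ (pow_ne_zero 2 hp0) h2

end Pool.Agent.P.MP_65bf67_nt
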