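import Pool.Agent.P.MP_65bf67_nt.Data
import Pool.Agent.P.MP_65bf67_nt.Red
import Pool.Agent.P.MP_65bf67_nt.Dir
import Pool.Agent.P.MP_65bf67_nt.Step
import Pool.Agent.P.MP_65bf67_nt.Lat
import Pool.Agent.P.MP_65bf67_nt.Form
import Pool.Agent.P.MP_65bf67_nt.Cert0
import Pool.Agent.P.MP_65bf67_nt.Cert1
import Pool.Agent.P.MP_65bf67_nt.Cert2
import Pool.Agent.P.MP_65bf67_nt.Cert3

set_option autoImplicit false
set_option maxRecDepth 100000

noncomputable section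

namespace Pool.Agent.P.MP_65bf67_nt

theorem fok2_1 : Fam 2 1 fam2_1 := fam_base2 (three_of_red red2)

theorem fok3_1 : Fam 3 1 fam3_1 := fam_base3 (hex_of_red red3)

theorem fok2_7 : Fam 2 7 fam2_7 :=
  step_sound 2 1 7 fam2_1 lf2_7 fam2_7 (by norm_num) fok2_1 (by decide +kernel)

theorem fok3_5 : Fam 3 5 fam3_5 :=
  step_sound 3 1 5 fam3_1 lf3_5 fam3_5 (by norm_num) fok3_1 (by decide +kernel)

theorem fok3_7 : Fam 3 7 fam3_7 :=
  step_sound 3 1 7 fam3_1 lf3_7 fam3_7 (by norm_num) fok3_1 (by decide +kernel)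

theorem fok2_5 : Fam 2 5 fam2_5 :=
  step_sound 2 1 5 fam2_1 lf2_5 fam2_5 (by norm_num) fok2_1 (by decide +kernel)

theorem fok2_55 : Fam 2 55 fam2_55 :=
  step_sound 2 5 11 fam2_5 lf2_55 fam2_55 (by norm_num) fok2_5 (by decide +kernel)

theorem fok2_11 : Fam 2 11 fam2_11 :=
  step_sound 2 1 11 fam2_1 lf2_11 fam2_11 (by norm_num) fok2_1 (by decide +kernel)

theorem fok2_13 : Fam 2 13 fam2_13 :=
  step_sound 2 1 13 fam2_1 lf2_13 fam2_13 (by norm_num) fok2_1 (by decide +kernel)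

theorem fok3_13 : Fam 3 13 fam3_13 :=
  step_sound 3 1 13 fam3_1 lf3_13 fam3_13 (by norm_num) fok3_1 (by decide +kernel)

theorem fok3_35 : Fam 3 35 fam3_35 :=
  step_sound 3 5 7 fam3_5 lf3_35 fam3_35 (by norm_num) fok3_5 (by decide +kernel)

theorem fok3_11 : Fam 3 11 fam3_11 :=
  step_sound 3 1 11 fam3_1 lf3_11 fam3_11 (by norm_num) fok3_1 (by decide +kernel)

theorem fok2_17 : Fam 2 17 fam2_17 :=
  step_sound 2 1 17 fam2_1 lf2_17 fam2_17 (by norm_num) fok2_1 (by decide +kernel)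

theorem fok2_35 : Fam 2 35 fam2_35 :=
  step_sound 2 5 7 fam2_5 lf2_35 fam2_35 (by norm_num) fok2_5 (by decide +kernel)

theorem fok2_19 : Fam 2 19 fam2_19 :=
  step_sound 2 1 19 fam2_1 lf2_19 fam2_19 (by norm_num) fok2_1 (by decide +kernel)

theorem fok3_17 : Fam 3 17 fam3_17 :=
  step_sound 3 1 17 fam3_1 lf3_17 fam3_17 (by norm_num) fok3_1 (by decide +kernel)

theorem fok3_29 : Fam 3 29 fam3_29 :=
  step_sound 3 1 29 fam3_1 lf3_29 fam3_29 (by norm_num) fok3_1 (by decide +kernel)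

theorem fok3_37 : Fam 3 37 fam3_37 :=
  step_sound 3 1 37 fam3_1 lf3_37 fam3_37 (by norm_num) fok3_1 (by decide +kernel)

theorem fok3_19 : Fam 3 19 fam3_19 :=
  step_sound 3 1 19 fam3_1 lf3_19 fam3_19 (by norm_num) fok3_1 (by decide +kernel)

theorem fok2_31 : Fam 2 31 fam2_31 :=
  step_sound 2 1 31 fam2_1 lf2_31 fam2_31 (by norm_num) fok2_1 (by decide +kernel)

theorem fams_ok : ∀ F ∈ fams, Fam F.D F.lev F.Ks := by
  unfold fams
  simp only [List.forall_mem_cons]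
  exact ⟨fok2_1, fok3_1, fok2_7, fok3_5, fok3_7, fok2_5, fok2_55, fok2_11, fok2_13, fok3_13, fok3_35, fok3_11, fok2_17, fok2_35, fok2_19, fok3_17, fok3_29, fok3_37, fok3_19, fok2_31, by simp⟩

theorem ctN (a b : CT) (h1 : ctOK fams a = true) (h2 : ctOK fams b = true) :
    ctOK fams (.N a b) = true := (band_iff _ _).2 ⟨h1, h2⟩

theorem ctAll_ok : ctOK fams ctAll = true :=
  (ctN _ _ (ctN _ _ (ctN _ _ (ctN _ _ ctc0 ctc8) (ctN _ _ ctc4 ctc12)) (ctN _ _ (ctN _ _ ctc2 ctc10) (ctN _ _ ctc6 ctc14))) (ctN _ _ (ctN _ _ (ctN _ _ ctc1 ctc9) (ctN _ _ ctc5 ctc13)) (ctN _ _ (ctN _ _ ctc3 ctc11) (ctN _ _ ctc7 ctc15))))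

theorem look_all (i : ℕ) : RecOK (look ctAll i) :=
  look_ok (form_of_lat (lat_of_chart chart)) fams fams_ok fok2_1 ctAll ctAll_ok i

end Pool.Agent.P.MP_65bf67_nt
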